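import Pool.Agent.W_MP_ffc92f_co.Kraft

namespace Pool.Agent.W_MP_ffc92f_co

universe u

variable {α : Type u}

/-! ### Geometric sums -/

theorem geo1_aux (J : ℕ) (N : ℕ) (h : N ≤ J) :
    ∑ j ∈ Finset.range N, (1 / 2 : ℝ) ^ j * (1 / 4) ^ (J - j) ≤
      (1 / 4) ^ J * (2 ^ N - 1) := by
  induction N with
  | zero => simp
  | succ N ih =>
    rw [Finset.sum_range_succ]
    have h1 := ih (by omega)
    have h2 : (1 / 2 : ℝ) ^ N * (1 / 4) ^ (J - N) = (1 / 4) ^ J * 2 ^ N := by
      obtain ⟨r, hr⟩ : ∃ r, J = N + r := ⟨J - N, by omega⟩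
      subst hr
      rw [Nat.add_sub_cancel_left, pow_add (1 / 4 : ℝ) N r]
      have : (1 / 2 : ℝ) ^ N = (1 / 4) ^ N * 2 ^ N := by rw [← mul_pow]; norm_num
      rw [this]; ring
    rw [h2, pow_succ]
    nlinarith

theorem geo1 (J N : ℕ) :
    ∑ j ∈ Finset.range N, (1 / 2 : ℝ) ^ j * (1 / 4) ^ (J - j) ≤ 3 * (1 / 2) ^ J := by
  have base : ∑ j ∈ Finset.range J, (1 / 2 : ℝ) ^ j * (1 / 4) ^ (J - j) ≤ (1 / 2) ^ J := by
    refine (geo1_aux J J le_rfl).trans ?_
    have : (1 / 4 : ℝ) ^ J * 2 ^ J = (1 / 2) ^ J := by rw [← mul_pow]; norm_num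
    have h0 : (0 : ℝ) ≤ (1 / 4) ^ J := by positivity
    nlinarith
  have hpos : (0 : ℝ) ≤ (1 / 2) ^ J := by positivity
  rcases le_total N J with h | h
  · have : ∑ j ∈ Finset.range N, (1 / 2 : ℝ) ^ j * (1 / 4) ^ (J - j) ≤
        ∑ j ∈ Finset.range J, (1 / 2 : ℝ) ^ j * (1 / 4) ^ (J - j) := by
      refine Finset.sum_le_sum_of_subset_of_nonneg ?_ (fun _ _ _ => by positivity)
      exact Finset.range_subset_range.2 h
    linarith
  · have key : ∑ j ∈ Finset.range N, (1 / 2 : ℝ) ^ j * (1 / 4) ^ (J - j) ≤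
        3 * (1 / 2) ^ J - 2 * (1 / 2) ^ N := by
      induction N, h using Nat.le_induction with
      | base => linarith
      | succ N hN ih =>
        rw [Finset.sum_range_succ]
        have : J - N = 0 := by omega
        rw [this, pow_zero, mul_one, pow_succ]
        linarith
    have : (0 : ℝ) ≤ (1 / 2) ^ N := by positivity
    linarith

theorem geo2 (N : ℕ) : ∑ r ∈ Finset.range N, (1 / 2 : ℝ) ^ (r / 2) ≤ 4 := by
  induction N using Nat.strong_induction_on with
  | _ N ih =>
    match N, ih with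
    | 0, _ => simp
    | 1, _ => simp
    | N + 2, ih =>
      have h1 := ih N (by omega)
      rw [Finset.sum_range_succ', Finset.sum_range_succ']
      have h2 : ∀ r, (1 / 2 : ℝ) ^ ((r + 1 + 1) / 2) = (1 / 2) * (1 / 2) ^ (r / 2) := by
        intro r
        have : (r + 1 + 1) / 2 = r / 2 + 1 := by omega
        rw [this, pow_succ]; ring
      simp only [h2]
      rw [← Finset.mul_sum]
      norm_num
      norm_num at h1
      linarith

theorem geo3 (J : ℕ) : ∑ m ∈ Finset.range J, (1 / 2 : ℝ) ^ ((J - m) / 2) ≤ 4 := by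
  rw [← Finset.sum_range_reflect]
  have h1 := geo2 (J + 1)
  rw [Finset.sum_range_succ'] at h1
  have h2 : ∑ j ∈ Finset.range J, (1 / 2 : ℝ) ^ ((J - (J - 1 - j)) / 2) =
      ∑ j ∈ Finset.range J, (1 / 2 : ℝ) ^ ((j + 1) / 2) := by
    refine Finset.sum_congr rfl fun j hj => ?_
    rw [Finset.mem_range] at hj
    congr 2; omega
  rw [h2]
  simp at h1 ⊢
  linarith

/-! ### Sum of the epsilons -/

open Classical in
theorem epsSum_total [Fintype α] (x0 : α) (J : ℕ) (w : List α) :
    ∑ i ∈ Finset.range w.length, epsSum x0 J (w.drop (i + 1)) ≤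
      9 / 2 * w.length * (1 / 2) ^ J := by
  set n := w.length with hn
  set q := Fintype.card α with hq
  have hq1 : 1 ≤ q := Fintype.card_pos_iff.2 ⟨x0⟩
  have hq' : (0 : ℝ) < q := by exact_mod_cast hq1
  have hcls : ∀ i < n, ∀ d, cls (w.drop (i + 1)) d < n + 1 := by
    intro i hi d
    unfold cls
    have h1 := per_le_length ((w.drop (i + 1)).take (lppLen (d :: w.drop (i + 1)) - 2))
    rw [List.length_take, List.length_drop] at h1
    have h2 := Nat.log_le_self 2 (per ((w.drop (i + 1)).take (lppLen (d :: w.drop (i + 1)) - 2)))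
    omega
  -- one letter
  have hletter : ∀ d : α, ∑ i ∈ Finset.range n,
      (if d ≠ dflt x0 (w.drop (i + 1)) then eps q J (w.drop (i + 1)) d else 0) ≤
      1 / (4 * q) * (6 * n * (3 * (1 / 2) ^ J)) := by
    intro d
    have h1 : ∀ i ∈ Finset.range n,
        (if d ≠ dflt x0 (w.drop (i + 1)) then eps q J (w.drop (i + 1)) d else 0) =
        ∑ j ∈ Finset.range (n + 1), (if Bad x0 w d j i then 1 / (4 * (q : ℝ)) * (1 / 4) ^ (J - j)
          else 0) := by
      intro i hi
      rw [Finset.mem_range] at hi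
      by_cases hd : d ≠ dflt x0 (w.drop (i + 1))
      · rw [if_pos hd, Finset.sum_eq_single (cls (w.drop (i + 1)) d)]
        · rw [if_pos ⟨hi, hd, rfl⟩]; rfl
        · intro j _ hj
          rw [if_neg]
          rintro ⟨-, -, h⟩
          exact hj h.symm
        · intro hj
          exact absurd (Finset.mem_range.2 (hcls i hi d)) hj
      · rw [if_neg hd, Finset.sum_eq_zero]
        intro j _
        rw [if_neg]
        rintro ⟨-, h, -⟩
        exact hd h
    rw [Finset.sum_congr rfl h1, Finset.sum_comm]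
    have h2 : ∀ j ∈ Finset.range (n + 1), ∑ i ∈ Finset.range n,
        (if Bad x0 w d j i then 1 / (4 * (q : ℝ)) * (1 / 4) ^ (J - j) else 0) ≤
        1 / (4 * q) * (6 * n) * ((1 / 2) ^ j * (1 / 4) ^ (J - j)) := by
      intro j _
      rw [← Finset.sum_filter, Finset.sum_const, nsmul_eq_mul]
      have h3 := card_bad_le x0 w d j
      rw [← hn] at h3
      have h4 : (((Finset.range n).filter (fun i => Bad x0 w d j i)).card : ℝ) * 2 ^ j ≤
          6 * n := by exact_mod_cast h3
      have h5 : (((Finset.range n).filter (fun i => Bad x0 w d j i)).card : ℝ) ≤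
          6 * n * (1 / 2) ^ j := by
        have : (1 / 2 : ℝ) ^ j = (2 ^ j)⁻¹ := by rw [one_div, inv_pow]
        rw [this, ← div_eq_mul_inv, le_div_iff₀ (by positivity)]
        exact h4
      have h6 : (0 : ℝ) ≤ 1 / (4 * (q : ℝ)) * (1 / 4) ^ (J - j) := by positivity
      calc _ ≤ 6 * n * (1 / 2) ^ j * (1 / (4 * (q : ℝ)) * (1 / 4) ^ (J - j)) :=
            mul_le_mul_of_nonneg_right h5 h6
        _ = _ := by ring
    refine (Finset.sum_le_sum h2).trans ?_
    rw [← Finset.mul_sum]
    have h7 := geo1 J (n + 1)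
    have h8 : (0 : ℝ) ≤ 1 / (4 * (q : ℝ)) * (6 * n) := by positivity
    calc _ ≤ 1 / (4 * (q : ℝ)) * (6 * n) * (3 * (1 / 2) ^ J) :=
          mul_le_mul_of_nonneg_left h7 h8
      _ = _ := by ring
  have hswap : ∑ i ∈ Finset.range n, epsSum x0 J (w.drop (i + 1)) =
      ∑ d : α, ∑ i ∈ Finset.range n,
        (if d ≠ dflt x0 (w.drop (i + 1)) then eps q J (w.drop (i + 1)) d else 0) := by
    rw [Finset.sum_comm]
    refine Finset.sum_congr rfl fun i _ => ?_
    unfold epsSum
    rw [← Finset.sum_filter]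
    refine Finset.sum_congr ?_ fun _ _ => rfl
    ext d
    simp
  rw [hswap]
  calc _ ≤ ∑ _d : α, 1 / (4 * (q : ℝ)) * (6 * n * (3 * (1 / 2) ^ J)) :=
        Finset.sum_le_sum fun d _ => hletter d
    _ = 9 / 2 * n * (1 / 2) ^ J := by
        rw [Finset.sum_const, Finset.card_univ, nsmul_eq_mul, ← hq]
        field_simp
        ring

/-! ### The nondefault steps -/

theorem cls_core {x0 : α} {w : List α} {i : ℕ} (hi : i < w.length) :
    cls (w.drop (i + 1)) (w.getD i x0) = Nat.log 2 (per (core w i)) := by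
  unfold cls core mlen
  rw [← drop_cons x0 hi]

open Classical in
theorem card_ND_le [Fintype α] (x0 : α) {w : List α} (hw : IsRich w) (k p : ℕ) :
    ((Finset.range w.length).filter (fun i => ND x0 w i ∧ per (core w i) ≤ p)).card ≤
      2 * Fintype.card α + Fintype.card α ^ 3 * (p * k) + Fintype.card α ^ 2 * (p * k) +
      ((Finset.range w.length).filter (fun i => ND x0 w i ∧ k ≤ mlen w i)).card := by
  have hsub : (Finset.range w.length).filter (fun i => ND x0 w i ∧ per (core w i) ≤ p) ⊆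
      (((Finset.range w.length).filter (fun i => mlen w i = 0)) ∪
      ((Finset.range w.length).filter
        (fun i => TI x0 w i ∧ mlen w i ≤ k ∧ per (core w i) ≤ p))) ∪
      ((Finset.range w.length).filter
        (fun i => TII x0 w i ∧ mlen w i ≤ k ∧ per (core w i) ≤ p)) ∪
      ((Finset.range w.length).filter (fun i => ND x0 w i ∧ k ≤ mlen w i)) := by
    intro i hi
    rw [Finset.mem_filter, Finset.mem_range] at hi
    obtain ⟨hi, hnd, hp⟩ := hi
    simp only [Finset.mem_union, Finset.mem_filter, Finset.mem_range]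
    by_cases h0 : mlen w i = 0
    · exact Or.inl (Or.inl (Or.inl ⟨hi, h0⟩))
    · by_cases hk : k ≤ mlen w i
      · exact Or.inr ⟨hi, hnd, hk⟩
      · obtain ⟨s1, s2, s3, s4, s5, s6⟩ := step_data (x0 := x0) hi (by omega)
        rcases s5.lt_or_eq with h | h
        · exact Or.inl (Or.inl (Or.inr ⟨hi, ⟨hnd, by omega, h⟩, by omega, hp⟩))
        · exact Or.inl (Or.inr ⟨hi, ⟨hnd, by omega, h⟩, by omega, hp⟩)
  have h1 := Finset.card_le_card hsub
  have h2 := card_TI_le x0 hw k p
  have h3 := card_TII_le x0 hw k p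
  have h4 := card_small_le x0 hw
  refine h1.trans ((Finset.card_union_le _ _).trans ?_)
  refine Nat.add_le_add_right ((Finset.card_union_le _ _).trans ?_) _
  refine Nat.add_le_add ((Finset.card_union_le _ _).trans ?_) h3
  exact Nat.add_le_add h4 h2

/-- The constant. -/
def cA (q : ℕ) : ℕ := 2 * q + 2 * q ^ 3 + 2 * q ^ 2 + 256

open Classical in
theorem card_large_pow (x0 : α) {w : List α} {J h : ℕ} (hn : w.length < 8 ^ (J + 1))
    (hh : h ≤ 2 * J) :
    ((Finset.range w.length).filter (fun i => ND x0 w i ∧ 2 ^ (J + h) ≤ mlen w i)).card ≤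
      256 * 2 ^ (2 * J - h) := by
  have h1 := card_large_le x0 w (2 ^ (J + h))
  have h2 : 32 * w.length ≤ 256 * 2 ^ (2 * J - h) * 2 ^ (J + h) := by
    have e1 : 256 * 2 ^ (2 * J - h) * 2 ^ (J + h) = 256 * 2 ^ (3 * J) := by
      rw [mul_assoc, ← pow_add]
      congr 2; omega
    have e2 : (8 : ℕ) ^ (J + 1) = 8 * 2 ^ (3 * J) := by
      rw [pow_succ, pow_mul]; norm_num; ring
    rw [e1]; rw [e2] at hn
    omega
  exact Nat.le_of_mul_le_mul_right (h1.trans h2) (by positivity)

open Classical in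
theorem card_class_le [Fintype α] (x0 : α) {w : List α} (hw : IsRich w) {J m : ℕ}
    (hn : w.length < 8 ^ (J + 1)) (hm : m ≤ J) :
    ((Finset.range w.length).filter (fun i => ND x0 w i ∧
      cls (w.drop (i + 1)) (w.getD i x0) ≤ m)).card ≤
      cA (Fintype.card α) * 2 ^ (2 * J - (J - m) / 2) := by
  set q := Fintype.card α with hq
  set h := (J - m) / 2 with hh
  have h2h : m + 2 * h ≤ J := by omega
  have h1 := card_ND_le x0 hw (2 ^ (J + h)) (2 ^ (m + 1))
  have h2 := card_large_pow x0 hn (show h ≤ 2 * J by omega)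
  have h3 : ((Finset.range w.length).filter (fun i => ND x0 w i ∧
      cls (w.drop (i + 1)) (w.getD i x0) ≤ m)).card ≤
      ((Finset.range w.length).filter (fun i => ND x0 w i ∧ per (core w i) ≤ 2 ^ (m + 1))).card := by
    refine Finset.card_le_card ?_
    intro i hi
    rw [Finset.mem_filter, Finset.mem_range] at hi ⊢
    obtain ⟨hi, hnd, hc⟩ := hi
    refine ⟨hi, hnd, ?_⟩
    rw [cls_core hi] at hc
    have := Nat.lt_pow_succ_log_self (b := 2) (by norm_num) (per (core w i))
    exact this.le.trans (Nat.pow_le_pow_right (by norm_num) (Nat.succ_le_succ hc))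
  have h4 : 2 ^ (m + 1) * 2 ^ (J + h) ≤ 2 * 2 ^ (2 * J - h) := by
    rw [← pow_add, ← pow_succ']
    exact Nat.pow_le_pow_right (by norm_num) (by omega)
  have h5 : 1 ≤ 2 ^ (2 * J - h) := Nat.one_le_two_pow
  rw [← hq] at h1
  have h6 : q ^ 3 * (2 ^ (m + 1) * 2 ^ (J + h)) ≤ q ^ 3 * (2 * 2 ^ (2 * J - h)) :=
    Nat.mul_le_mul_left _ h4
  have h7 : q ^ 2 * (2 ^ (m + 1) * 2 ^ (J + h)) ≤ q ^ 2 * (2 * 2 ^ (2 * J - h)) :=
    Nat.mul_le_mul_left _ h4
  have h8 : 2 * q * 1 ≤ 2 * q * 2 ^ (2 * J - h) := Nat.mul_le_mul_left _ h5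
  unfold cA
  calc _ ≤ _ := h3.trans h1
    _ ≤ 2 * q * 2 ^ (2 * J - h) + q ^ 3 * (2 * 2 ^ (2 * J - h)) +
        q ^ 2 * (2 * 2 ^ (2 * J - h)) + 256 * 2 ^ (2 * J - h) := by omega
    _ = _ := by ring

open Classical in
theorem card_ND_total [Fintype α] (x0 : α) {w : List α} (hw : IsRich w) {J : ℕ}
    (hn : w.length < 8 ^ (J + 1)) :
    ((Finset.range w.length).filter (fun i => ND x0 w i)).card ≤
      2 * cA (Fintype.card α) * 4 ^ J := by
  have h1 := card_class_le x0 hw hn le_rfl
  have h2 := card_large_pow x0 (h := 0) hn (by omega)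
  have hsub : (Finset.range w.length).filter (fun i => ND x0 w i) ⊆
      (Finset.range w.length).filter (fun i => ND x0 w i ∧
        cls (w.drop (i + 1)) (w.getD i x0) ≤ J) ∪
      (Finset.range w.length).filter (fun i => ND x0 w i ∧ 2 ^ (J + 0) ≤ mlen w i) := by
    intro i hi
    rw [Finset.mem_filter, Finset.mem_range] at hi
    obtain ⟨hi, hnd⟩ := hi
    simp only [Finset.mem_union, Finset.mem_filter, Finset.mem_range]
    by_cases hc : cls (w.drop (i + 1)) (w.getD i x0) ≤ J
    · exact Or.inl ⟨hi, hnd, hc⟩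
    · right
      refine ⟨hi, hnd, ?_⟩
      rw [cls_core hi] at hc
      have hper : per (core w i) ≠ 0 := by
        intro h0
        rw [h0, Nat.log_zero_right] at hc
        omega
      have h3 := Nat.pow_log_le_self 2 hper
      have h4 : per (core w i) ≤ mlen w i := by
        have h5 := per_le_length (core w i)
        have h6 : (core w i).length ≤ mlen w i := List.length_take_le _ _
        omega
      have h7 : 2 ^ (J + 0) ≤ 2 ^ Nat.log 2 (per (core w i)) :=
        Nat.pow_le_pow_right (by norm_num) (by omega)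
      omega
  have h3 := (Finset.card_le_card hsub).trans (Finset.card_union_le _ _)
  simp only [Nat.sub_self, Nat.zero_div, Nat.sub_zero] at h1 h2
  have h4 : (4 : ℕ) ^ J = 2 ^ (2 * J) := by rw [pow_mul]; norm_num
  rw [h4]
  have h5 : 256 * 2 ^ (2 * J) ≤ cA (Fintype.card α) * 2 ^ (2 * J) :=
    Nat.mul_le_mul_right _ (by unfold cA; omega)
  calc _ ≤ _ := h3
    _ ≤ cA (Fintype.card α) * 2 ^ (2 * J) + 256 * 2 ^ (2 * J) := Nat.add_le_add h1 h2
    _ ≤ cA (Fintype.card α) * 2 ^ (2 * J) + cA (Fintype.card α) * 2 ^ (2 * J) :=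
        Nat.add_le_add_left h5 _
    _ = _ := by ring

open Classical in
theorem sum_defect_le [Fintype α] (x0 : α) {w : List α} (hw : IsRich w) {J : ℕ}
    (hn : w.length < 8 ^ (J + 1)) :
    (∑ i ∈ (Finset.range w.length).filter (fun i => ND x0 w i),
      ((J - cls (w.drop (i + 1)) (w.getD i x0) : ℕ) : ℝ)) ≤
      4 * cA (Fintype.card α) * 4 ^ J := by
  have h1 : ∀ c : ℕ, (J - c : ℕ) = ∑ m ∈ Finset.range J, (if c ≤ m then 1 else 0) := by
    intro c
    rw [← Finset.sum_filter, Finset.sum_const, smul_eq_mul, mul_one]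
    have : (Finset.range J).filter (fun m => c ≤ m) = Finset.Ico c J := by
      ext m; simp only [Finset.mem_filter, Finset.mem_range, Finset.mem_Ico]; tauto
    rw [this, Nat.card_Ico]
  have h2 : (∑ i ∈ (Finset.range w.length).filter (fun i => ND x0 w i),
      (J - cls (w.drop (i + 1)) (w.getD i x0))) =
      ∑ m ∈ Finset.range J, ((Finset.range w.length).filter (fun i => ND x0 w i ∧
        cls (w.drop (i + 1)) (w.getD i x0) ≤ m)).card := by
    rw [Finset.sum_congr rfl fun i _ => h1 _, Finset.sum_comm]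
    refine Finset.sum_congr rfl fun m _ => ?_
    rw [← Finset.sum_filter, Finset.sum_const, smul_eq_mul, mul_one, Finset.filter_filter]
  have h3 : ((∑ i ∈ (Finset.range w.length).filter (fun i => ND x0 w i),
      (J - cls (w.drop (i + 1)) (w.getD i x0)) : ℕ) : ℝ) ≤
      ∑ m ∈ Finset.range J, (cA (Fintype.card α) : ℝ) * 4 ^ J * (1 / 2) ^ ((J - m) / 2) := by
    rw [h2, Nat.cast_sum]
    refine Finset.sum_le_sum fun m hm => ?_
    rw [Finset.mem_range] at hm
    have h4 := card_class_le x0 hw hn hm.le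
    have h5 : (2 : ℝ) ^ (2 * J - (J - m) / 2) = 4 ^ J * (1 / 2) ^ ((J - m) / 2) := by
      have e1 : (4 : ℝ) ^ J = 2 ^ (2 * J - (J - m) / 2) * 2 ^ ((J - m) / 2) := by
        rw [← pow_add]
        have : 2 * J - (J - m) / 2 + (J - m) / 2 = 2 * J := by omega
        rw [this, pow_mul]; norm_num
      rw [e1, mul_assoc, ← mul_pow]; norm_num
    calc _ ≤ ((cA (Fintype.card α) * 2 ^ (2 * J - (J - m) / 2) : ℕ) : ℝ) := by
          exact_mod_cast h4
      _ = _ := by push_cast; rw [h5]; ring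
  rw [← Nat.cast_sum]
  refine h3.trans ?_
  rw [← Finset.mul_sum]
  have h6 := geo3 J
  have h7 : (0 : ℝ) ≤ (cA (Fintype.card α) : ℝ) * 4 ^ J := by positivity
  calc _ ≤ (cA (Fintype.card α) : ℝ) * 4 ^ J * 4 := mul_le_mul_of_nonneg_left h6 h7
    _ = _ := by ring

/-- Constant of the upper bound. -/
noncomputable def cU (q : ℕ) : ℝ :=
  72 + 2 * cA q * Real.log (4 * q) + 4 * cA q * Real.log 4

theorem loss_le [Fintype α] (x0 : α) {w : List α} (hw : IsRich w) {J : ℕ}
    (hn : w.length < 8 ^ (J + 1)) :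
    ∑ i ∈ Finset.range w.length, -Real.log (pred x0 J (w.getD i x0) (w.drop (i + 1))) ≤
      cU (Fintype.card α) * 4 ^ J := by
  classical
  have hq : 1 ≤ Fintype.card α := Fintype.card_pos_iff.2 ⟨x0⟩
  have hq' : (1 : ℝ) ≤ Fintype.card α := by exact_mod_cast hq
  have h1 : ∑ i ∈ Finset.range w.length,
      -Real.log (pred x0 J (w.getD i x0) (w.drop (i + 1))) ≤
      2 * ∑ i ∈ Finset.range w.length, epsSum x0 J (w.drop (i + 1)) +
      ∑ i ∈ (Finset.range w.length).filter (fun i => ND x0 w i),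
        (Real.log (4 * Fintype.card α) +
          (J - cls (w.drop (i + 1)) (w.getD i x0) : ℕ) * Real.log 4) := by
    rw [Finset.mul_sum, Finset.sum_filter, ← Finset.sum_add_distrib]
    refine Finset.sum_le_sum fun i _ => ?_
    have h0 := neg_log_pred_le x0 J (w.getD i x0) (w.drop (i + 1))
    by_cases hnd : ND x0 w i
    · rw [if_pos hnd]
      rw [if_pos (show w.getD i x0 ≠ dflt x0 (w.drop (i + 1)) from hnd)] at h0
      exact h0
    · rw [if_neg hnd]
      rw [if_neg (show ¬ w.getD i x0 ≠ dflt x0 (w.drop (i + 1)) from hnd)] at h0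
      exact h0
  have h2 := epsSum_total x0 J w
  have h3 : (9 / 2 : ℝ) * w.length * (1 / 2) ^ J ≤ 36 * 4 ^ J := by
    have e1 : (w.length : ℝ) ≤ 8 * 8 ^ J := by
      have : (w.length : ℝ) < ((8 ^ (J + 1) : ℕ) : ℝ) := by exact_mod_cast hn
      push_cast at this
      rw [pow_succ] at this
      linarith
    have e2 : (8 : ℝ) ^ J * (1 / 2) ^ J = 4 ^ J := by rw [← mul_pow]; norm_num
    have e3 : (0 : ℝ) ≤ (1 / 2) ^ J := by positivity
    calc (9 / 2 : ℝ) * w.length * (1 / 2) ^ J ≤ 9 / 2 * (8 * 8 ^ J) * (1 / 2) ^ J := by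
          refine mul_le_mul_of_nonneg_right ?_ e3
          exact mul_le_mul_of_nonneg_left e1 (by norm_num)
      _ = 36 * (8 ^ J * (1 / 2) ^ J) := by ring
      _ = 36 * 4 ^ J := by rw [e2]
  have h4 := card_ND_total x0 hw hn
  have h5 := sum_defect_le x0 hw hn
  have h6 : ∑ i ∈ (Finset.range w.length).filter (fun i => ND x0 w i),
        (Real.log (4 * Fintype.card α) +
          (J - cls (w.drop (i + 1)) (w.getD i x0) : ℕ) * Real.log 4) =
      ((Finset.range w.length).filter (fun i => ND x0 w i)).card * Real.log (4 * Fintype.card α) +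
      (∑ i ∈ (Finset.range w.length).filter (fun i => ND x0 w i),
        ((J - cls (w.drop (i + 1)) (w.getD i x0) : ℕ) : ℝ)) * Real.log 4 := by
    rw [Finset.sum_add_distrib, Finset.sum_const, nsmul_eq_mul, Finset.sum_mul]
  have hl1 : 0 ≤ Real.log (4 * (Fintype.card α : ℝ)) := Real.log_nonneg (by linarith)
  have hl2 : 0 ≤ Real.log 4 := Real.log_nonneg (by norm_num)
  have h7 : (((Finset.range w.length).filter (fun i => ND x0 w i)).card : ℝ) ≤
      2 * cA (Fintype.card α) * 4 ^ J := by exact_mod_cast h4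
  have h8 := mul_le_mul_of_nonneg_right h7 hl1
  have h9 := mul_le_mul_of_nonneg_right h5 hl2
  rw [h6] at h1
  unfold cU
  calc _ ≤ _ := h1
    _ ≤ 2 * (36 * 4 ^ J) + (2 * cA (Fintype.card α) * 4 ^ J * Real.log (4 * Fintype.card α) +
        4 * cA (Fintype.card α) * 4 ^ J * Real.log 4) := by linarith
    _ = _ := by ring

theorem cU_nonneg {q : ℕ} (hq : 1 ≤ q) : 0 ≤ cU q := by
  have hq' : (1 : ℝ) ≤ q := by exact_mod_cast hq
  have hl1 : 0 ≤ Real.log (4 * (q : ℝ)) := Real.log_nonneg (by linarith)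
  have hl2 : 0 ≤ Real.log 4 := Real.log_nonneg (by norm_num)
  unfold cU
  positivity

theorem richCount_pos [Nonempty α] [Finite α] (n : ℕ) : 0 < richCount α n := by
  obtain ⟨a⟩ := ‹Nonempty α›
  rw [richCount, Set.ncard_pos ((List.finite_length_eq α n).subset fun _ h => h.1)]
  refine ⟨List.replicate n a, List.length_replicate, ?_⟩
  induction n with
  | zero => exact isRich_nil
  | succ n ih =>
    rw [List.replicate_succ]
    refine isRich_cons_iff.2 ⟨ih, List.replicate (n + 1) a, ?_, List.reverse_replicate, ?_⟩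
    · rw [← List.replicate_succ]
    · intro hc
      have := hc.length_le
      simp at this

theorem upper_bound [Fintype α] [Nonempty α] (n : ℕ) (hn : 1 ≤ n) :
    Real.log (richCount α n) ≤ cU (Fintype.card α) * (n : ℝ) ^ (2 / 3 : ℝ) := by
  obtain ⟨x0⟩ := ‹Nonempty α›
  have hq : 1 ≤ Fintype.card α := Fintype.card_pos_iff.2 ⟨x0⟩
  set J := Nat.log 8 n with hJ
  have h1 : n < 8 ^ (J + 1) := Nat.lt_pow_succ_log_self (by norm_num) n
  have h2 : 8 ^ J ≤ n := Nat.pow_log_le_self 8 (by omega)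
  have h3 : (richCount α n : ℝ) ≤ Real.exp (cU (Fintype.card α) * 4 ^ J) := by
    refine richCount_le_exp x0 (p := pred x0 J) (pred_pos x0 J) (pred_sum x0 J) ?_
    intro w hw hr
    exact loss_le x0 hr (by rw [hw]; exact h1)
  have hpos : (0 : ℝ) < richCount α n := by exact_mod_cast richCount_pos n
  have h4 : Real.log (richCount α n) ≤ cU (Fintype.card α) * 4 ^ J := by
    rw [Real.log_le_iff_le_exp hpos]
    exact h3
  refine h4.trans (mul_le_mul_of_nonneg_left ?_ (cU_nonneg hq))
  have h5 : (4 : ℝ) ^ J = ((8 : ℝ) ^ J) ^ (2 / 3 : ℝ) := by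
    rw [← Real.rpow_natCast 8 J, ← Real.rpow_mul (by norm_num), mul_comm, Real.rpow_mul (by norm_num),
      Real.rpow_natCast]
    congr 1
    rw [show (8 : ℝ) = 2 ^ (3 : ℝ) by norm_num, ← Real.rpow_mul (by norm_num)]
    norm_num
  rw [h5]
  refine Real.rpow_le_rpow (by positivity) ?_ (by norm_num)
  exact_mod_cast h2

end Pool.Agent.W_MP_ffc92f_co
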