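import Pool.Agent.W_MP_ffc92f_co.Steps

namespace Pool.Agent.W_MP_ffc92f_co

universe u

variable {α : Type u}

theorem uniocc {d : α} {l : List α} (h : IsRich (d :: l)) :
    ¬ (d :: l).take (lppLen (d :: l)) <:+: l := by
  obtain ⟨-, p, hp1, hp2, hp3⟩ := isRich_cons_iff.1 h
  have hpe : p = (d :: l).take p.length := List.prefix_iff_eq_take.1 hp1
  have hle : p.length ≤ lppLen (d :: l) := le_lppLen hp1.length_le (hpe ▸ hp2)
  intro hc
  apply hp3
  refine List.IsInfix.trans (List.IsPrefix.isInfix ?_) hc
  rw [hpe]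
  exact List.take_prefix_take_left hle

theorem word_inj {w : List α} (hw : IsRich w) {i i' : ℕ} (hi : i < w.length)
    (hi' : i' < w.length)
    (h : (w.drop i).take (lppLen (w.drop i)) = (w.drop i').take (lppLen (w.drop i'))) :
    i = i' := by
  have key : ∀ {i i' : ℕ}, i < w.length → i < i' →
      (w.drop i).take (lppLen (w.drop i)) = (w.drop i').take (lppLen (w.drop i')) → False := by
    intro i i' hi hlt h
    have hr : IsRich (w.drop i) := hw.of_suffix (List.drop_suffix _ _)
    have hd := List.drop_eq_getElem_cons hi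
    have h1 : ¬ (w.drop i).take (lppLen (w.drop i)) <:+: w.drop (i + 1) := by
      rw [hd] at hr ⊢
      exact uniocc hr
    apply h1
    rw [h]
    have h2 : w.drop i' <:+ w.drop (i + 1) := by
      have : w.drop i' = (w.drop (i + 1)).drop (i' - (i + 1)) := by
        rw [List.drop_drop]; congr 1; omega
      rw [this]; exact List.drop_suffix _ _
    exact (List.take_prefix _ _).isInfix.trans h2.isInfix
  rcases lt_trichotomy i i' with h1 | h1 | h1
  · exact (key hi h1 h).elim
  · exact h1
  · exact (key hi' h1 h.symm).elim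

theorem take_snoc_infix {l : List α} {m k : ℕ} {c : α} (hm : Pal (l.take m))
    (hk : Pal (l.take k)) (hmk : m ≤ k) (hc : l[k]? = some c) : l.take m ++ [c] <:+: l := by
  have h1 : l.take m <+: l.take k := List.take_prefix_take_left hmk
  obtain ⟨t, ht⟩ := pal_prefix_suffix hm hk h1
  have h2 : l.take (k + 1) = l.take k ++ [c] := take_succ_eq hc
  have h3 : l.take m ++ [c] <:+ l.take (k + 1) := ⟨t, by rw [h2, ← ht]; simp⟩
  exact h3.isInfix.trans (List.take_prefix _ _).isInfix

theorem snoc_bd {Q : List α} (hQ : Pal Q) {π : α} (hπ : Q[bd Q]? = some π) :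
    Q.take (bd Q) ++ [π] <+: Q ∧ π :: Q.take (bd Q) <:+ Q := by
  have h1 : Q.take (bd Q) ++ [π] <+: Q := by
    rw [← take_succ_eq hπ]; exact List.take_prefix _ _
  refine ⟨h1, ?_⟩
  have := h1.reverse
  rw [hQ, List.reverse_append, pal_take_bd Q] at this
  exact this

theorem label_bounds {Q : List α} (hQ : Pal Q) (hr : IsRich Q) (hne : Q ≠ []) {π e : α}
    (hπ : Q[bd Q]? = some π) (hπe : π ≠ e) :
    (labOf (path π e (Q.take (bd Q)))).1 ≤ per Q ∧
      (labOf (path π e (Q.take (bd Q)))).1 + (labOf (path π e (Q.take (bd Q)))).2 ≤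
        Q.length + 1 := by
  have hb := bd_lt hne
  have hlen : (Q.take (bd Q)).length = bd Q := by
    rw [List.length_take, min_eq_left hb.le]
  have h1 := (snoc_bd hQ hπ).1
  have h2 : Q.take (bd Q) <:+ Q :=
    pal_prefix_suffix (pal_take_bd Q) hQ (List.take_prefix _ _)
  have h3 := (ret_path hπe (Q.take (bd Q))).1 Q hr h1 h2 (by rw [hlen]; exact hb)
  have h4 := label_sum_le hπe _ rfl (pal_take_bd Q) (hr.of_suffix h2)
  rw [hlen] at h3 h4
  unfold per
  constructor <;> omega

theorem fac_core {w Q : List α} (hQ : Pal Q) {π e : α} (hπ : Q[bd Q]? = some π)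
    (h : Fac w (Q ++ [e])) : Fac w (π :: (Q.take (bd Q) ++ [e])) := by
  refine h.of_infix ?_
  obtain ⟨t, ht⟩ := (snoc_bd hQ hπ).2
  refine ⟨t, [], ?_⟩
  conv_rhs => rw [← ht]
  simp

theorem fac_suffix_snoc {w Q S : List α} {z e : α} (h : Fac w (Q ++ [e])) (hS : z :: S <:+ Q) :
    Fac w (z :: (S ++ [e])) := by
  refine h.of_infix ?_
  obtain ⟨t, ht⟩ := hS
  refine ⟨t, [], ?_⟩
  rw [← ht]; simp

theorem pal_suffix_le_bd {Q S : List α} (hQ : Pal Q) (hS : Pal S) (h : S <:+ Q)
    (hlt : S.length < Q.length) : S.length ≤ bd Q := by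
  have h1 : S <+: Q := by
    have := h.reverse
    rwa [hQ, hS] at this
  apply le_bd (by omega)
  rw [← List.prefix_iff_eq_take.1 h1]
  exact hS

theorem recover1 {w : List α} (hw : IsRich w) {c d e π : α} (hcd : c ≠ d) (hπe : π ≠ e)
    (he : e = c ∨ e = d) {Q1 Q2 : List α} (p1 : Pal Q1) (p2 : Pal Q2)
    (h1c : Fac w (Q1 ++ [c])) (h1d : Fac w (Q1 ++ [d]))
    (h2c : Fac w (Q2 ++ [c])) (h2d : Fac w (Q2 ++ [d]))
    (hπ1 : Q1[bd Q1]? = some π) (hπ2 : Q2[bd Q2]? = some π)
    (hlab : labOf (path π e (Q1.take (bd Q1))) = labOf (path π e (Q2.take (bd Q2)))) :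
    Q1 = Q2 := by
  have h1e : Fac w (Q1 ++ [e]) := by
    rcases he with rfl | rfl
    · exact h1c
    · exact h1d
  have h2e : Fac w (Q2 ++ [e]) := by
    rcases he with rfl | rfl
    · exact h2c
    · exact h2d
  have hQ' : Q1.take (bd Q1) = Q2.take (bd Q2) :=
    path_inj hw hπe (pal_take_bd Q1) (pal_take_bd Q2) (fac_core p1 hπ1 h1e)
      (fac_core p2 hπ2 h2e) (labOf_injective hlab)
  have hb1 : bd Q1 < Q1.length := by
    by_contra hc
    rw [List.getElem?_eq_none (by omega)] at hπ1
    exact absurd hπ1 (by simp)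
  have hb2 : bd Q2 < Q2.length := by
    by_contra hc
    rw [List.getElem?_eq_none (by omega)] at hπ2
    exact absurd hπ2 (by simp)
  have hb : bd Q1 = bd Q2 := by
    have := congrArg List.length hQ'
    rw [List.length_take, List.length_take, min_eq_left hb1.le, min_eq_left hb2.le] at this
    exact this
  rcases suffix_split Q1 Q2 with h | ⟨z, h⟩ | ⟨z, h⟩ | ⟨z1, z2, S, hne, h1, h2⟩
  · exact h
  · exfalso
    have h3 := h.length_le
    rw [List.length_cons] at h3
    have := pal_suffix_le_bd p2 p1 ((List.suffix_cons _ _).trans h) (by omega)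
    omega
  · exfalso
    have h3 := h.length_le
    rw [List.length_cons] at h3
    have := pal_suffix_le_bd p1 p2 ((List.suffix_cons _ _).trans h) (by omega)
    omega
  · exfalso
    have s1 := (snoc_bd p1 hπ1).2
    have s2 := (snoc_bd p2 hπ2).2
    rw [← hQ'] at s2
    have hlenQ' : (Q1.take (bd Q1)).length = bd Q1 := by
      rw [List.length_take, min_eq_left hb1.le]
    have hSlen : bd Q1 < S.length := by
      by_contra hc
      push Not at hc
      have g1 : z1 :: S <:+ π :: Q1.take (bd Q1) :=
        List.suffix_of_suffix_length_le h1 s1 (by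
          rw [List.length_cons, List.length_cons, hlenQ']; omega)
      have g2 : z2 :: S <:+ π :: Q1.take (bd Q1) :=
        List.suffix_of_suffix_length_le h2 s2 (by
          rw [List.length_cons, List.length_cons, hlenQ']; omega)
      have := (List.suffix_of_suffix_length_le g1 g2 (by simp)).eq_of_length (by simp)
      exact hne (by simpa using this)
    have hnp : ¬ Pal S := by
      intro hS
      have h3 := h1.length_le
      rw [List.length_cons] at h3
      have := pal_suffix_le_bd p1 hS ((List.suffix_cons _ _).trans h1) (by omega)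
      omega
    have np : ∀ z y : α, ¬ Pal (z :: (S ++ [y])) := fun z y hh => hnp (pal_cons_append.1 hh).2
    exact F1 hw hne hcd (np _ _) (np _ _) (np _ _) (np _ _) (fac_suffix_snoc h1c h1)
      (fac_suffix_snoc h1d h1) (fac_suffix_snoc h2c h2) (fac_suffix_snoc h2d h2)

theorem recover2 {w : List α} (hw : IsRich w) {d π : α} (hπd : π ≠ d)
    {P1 P2 : List α} (p1 : Pal P1) (p2 : Pal P2)
    (f1 : Fac w (P1 ++ [d])) (f2 : Fac w (P2 ++ [d]))
    (hπ1 : P1[bd P1]? = some π) (hπ2 : P2[bd P2]? = some π)
    (g1 : 8 * per P1 ≤ P1.length) (g2 : 8 * per P2 ≤ P2.length)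
    (hlab : labOf (path π d (P1.take (bd P1))) = labOf (path π d (P2.take (bd P2)))) :
    P1 = P2 := by
  have key : ∀ {P1 P2 : List α}, Pal P1 → Pal P2 → bd P1 < P1.length → bd P2 < P2.length →
      8 * per P1 ≤ P1.length → 8 * per P2 ≤ P2.length → P1.take (bd P1) = P2.take (bd P2) →
      bd P1 = bd P2 → P1.length ≤ P2.length → P1 = P2 := by
    intro P1 P2 p1 p2 hb1 hb2 g1 g2 hQ hb hle
    have hpre : P1 = P2.take P1.length := by
      apply List.ext_getElem?
      intro x
      by_cases hx : x < P1.length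
      · rw [List.getElem?_take_of_lt hx]
        have hsmall : ∀ y, y < bd P1 → P1[y]? = P2[y]? := by
          intro y hy
          rw [← List.getElem?_take_of_lt hy (l := P1), hQ,
            List.getElem?_take_of_lt (by omega : y < bd P2)]
        by_cases hxb : x < bd P1
        · exact hsmall x hxb
        · have P1per := perAt_zero_of_pal (l := P1) (m := P1.length) (k := bd P1) le_rfl
            (by rw [List.take_length]; exact p1) (pal_take_bd P1) hb1.le
          have P2per := perAt_zero_of_pal (l := P2) (m := P2.length) (k := bd P2) le_rfl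
            (by rw [List.take_length]; exact p2) (pal_take_bd P2) hb2.le
          unfold per at g1 g2
          set q1 := P1.length - bd P1 with hq1
          set q2 := P2.length - bd P2 with hq2
          have e1 := P1per (x - q1) (Nat.zero_le _) (by omega)
          have e2 := P2per (x - q2) (Nat.zero_le _) (by omega)
          have e3 := P1per (x - q1 - q2) (Nat.zero_le _) (by omega)
          have e4 := P2per (x - q1 - q2) (Nat.zero_le _) (by omega)
          simp only at e1 e2 e3 e4
          have i1 : x - q1 + q1 = x := by omega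
          have i2 : x - q2 + q2 = x := by omega
          have i3 : x - q1 - q2 + q1 = x - q2 := by omega
          have i4 : x - q1 - q2 + q2 = x - q1 := by omega
          rw [i1] at e1
          rw [i2] at e2
          rw [i3] at e3
          rw [i4] at e4
          rw [← e1, ← e2, hsmall (x - q1) (by omega), ← e4, ← hsmall (x - q1 - q2) (by omega), e3,
            hsmall (x - q2) (by omega)]
      · rw [List.getElem?_eq_none (by omega), List.getElem?_eq_none (by
          rw [List.length_take]; omega)]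
    rcases hle.lt_or_eq with hlt | heq
    · exfalso
      have : P1.length ≤ bd P2 := by
        apply le_bd (by omega)
        rw [← hpre]; exact p1
      omega
    · rw [heq, List.take_length] at hpre
      exact hpre
  have hQ' : P1.take (bd P1) = P2.take (bd P2) :=
    path_inj hw hπd (pal_take_bd P1) (pal_take_bd P2) (fac_core p1 hπ1 f1)
      (fac_core p2 hπ2 f2) (labOf_injective hlab)
  have hb1 : bd P1 < P1.length := by
    by_contra hc
    rw [List.getElem?_eq_none (by omega)] at hπ1
    exact absurd hπ1 (by simp)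
  have hb2 : bd P2 < P2.length := by
    by_contra hc
    rw [List.getElem?_eq_none (by omega)] at hπ2
    exact absurd hπ2 (by simp)
  have hb : bd P1 = bd P2 := by
    have := congrArg List.length hQ'
    rw [List.length_take, List.length_take, min_eq_left hb1.le, min_eq_left hb2.le] at this
    exact this
  rcases le_total P1.length P2.length with h | h
  · exact key p1 p2 hb1 hb2 g1 g2 hQ' hb h
  · exact (key p2 p1 hb2 hb1 g2 g1 hQ'.symm hb.symm h).symm

/-- The core of step `i`. -/
noncomputable def core (w : List α) (i : ℕ) : List α := (w.drop (i + 1)).take (mlen w i)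

theorem core_word {x0 : α} {w : List α} {i : ℕ} (hi : i < w.length) (hm : 1 ≤ mlen w i) :
    (w.drop i).take (lppLen (w.drop i)) = w.getD i x0 :: (core w i ++ [w.getD i x0]) := by
  have hd := drop_cons x0 hi
  unfold mlen at hm
  unfold core mlen
  set l := w.drop (i + 1) with hl
  set d := w.getD i x0 with hdd
  rw [hd] at hm ⊢
  obtain ⟨h1, h2⟩ := lppLen_cons_spec (l := l) (d := d) (by omega)
  have h3 : lppLen (d :: l) = (lppLen (d :: l) - 2) + 1 + 1 := by omega
  conv_lhs => rw [h3]
  rw [List.take_succ_cons, take_succ_eq h1]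

/-- Data of a step with nonempty core. -/
theorem step_data {x0 : α} {w : List α} {i : ℕ} (hi : i < w.length) (hm : 1 ≤ mlen w i) :
    Pal (core w i) ∧ (core w i).length = mlen w i ∧ core w i ≠ [] ∧
      core w i ++ [w.getD i x0] <:+: w ∧ mlen w i ≤ lppLen (w.drop (i + 1)) ∧
      (w.drop (i + 1))[mlen w i]? = some (w.getD i x0) := by
  have hd := drop_cons x0 hi
  unfold core
  unfold mlen at hm ⊢
  set l := w.drop (i + 1) with hl
  set d := w.getD i x0 with hdd
  rw [hd] at hm ⊢
  obtain ⟨h1, h2⟩ := lppLen_cons_spec (l := l) (d := d) (by omega)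
  have h3 := lppLen_le (d :: l)
  rw [List.length_cons] at h3
  have hlen : (l.take (lppLen (d :: l) - 2)).length = lppLen (d :: l) - 2 := by
    rw [List.length_take]; omega
  refine ⟨h2, hlen, ?_, ?_, le_lppLen (by omega) h2, h1⟩
  · intro h0
    rw [h0] at hlen
    simp at hlen
    omega
  · rw [← take_succ_eq h1]
    exact (List.take_prefix _ _).isInfix.trans (List.drop_suffix _ _).isInfix

theorem exists_getElem?_bd {Q : List α} (h : Q ≠ []) : ∃ π, Q[bd Q]? = some π :=
  ⟨_, List.getElem?_eq_getElem (bd_lt h)⟩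

open Classical in
/-- one of `c`, `d` different from `π`. -/
noncomputable def pick (π d c : α) : α := if π = d then c else d

theorem pick_ne {π d c : α} (h : d ≠ c) : π ≠ pick π d c := by
  unfold pick
  split_ifs with hcase
  · rw [hcase]; exact h
  · exact hcase

theorem pick_or (π d c : α) : pick π d c = c ∨ pick π d c = d := by
  unfold pick
  split_ifs
  · left; rfl
  · right; rfl

/-- code of a type I step. -/
noncomputable def codeI (x0 : α) (w : List α) (i : ℕ) : α × α × α × (ℕ × ℕ) :=
  (dflt x0 (w.drop (i + 1)), w.getD i x0, (core w i).getD (bd (core w i)) x0,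
    labOf (path ((core w i).getD (bd (core w i)) x0)
      (pick ((core w i).getD (bd (core w i)) x0) (w.getD i x0) (dflt x0 (w.drop (i + 1))))
      ((core w i).take (bd (core w i)))))

/-- code of a type II step. -/
noncomputable def codeII (x0 : α) (w : List α) (i : ℕ) : α × α × (ℕ × ℕ) :=
  let c := dflt x0 (w.drop (i + 1))
  let d := w.getD i x0
  let Q := core w i
  (d, c, labOf (path c d (Q.take (bd Q))))

/-- Type I condition. -/
def TI (x0 : α) (w : List α) (i : ℕ) : Prop :=
  ND x0 w i ∧ 1 ≤ mlen w i ∧ mlen w i < lppLen (w.drop (i + 1))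

/-- Type II condition. -/
def TII (x0 : α) (w : List α) (i : ℕ) : Prop :=
  ND x0 w i ∧ 1 ≤ mlen w i ∧ mlen w i = lppLen (w.drop (i + 1))

theorem TI_fac {x0 : α} {w : List α} {i : ℕ} (hi : i < w.length) (h : TI x0 w i) :
    Fac w (core w i ++ [dflt x0 (w.drop (i + 1))]) := by
  obtain ⟨h1, h2, h3⟩ := h
  obtain ⟨s1, s2, s3, s4, s5, s6⟩ := step_data (x0 := x0) hi h2
  left
  unfold core at s1 ⊢
  set l := w.drop (i + 1) with hl
  refine List.IsInfix.trans ?_ (List.drop_suffix (i + 1) w).isInfix
  rw [← hl]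
  have hlne : l ≠ [] := by
    intro h0
    rw [h0] at s6; simp at s6
  by_cases hc : 8 * (lppLen l - lppp l) ≤ lppLen l ∨ lppLen l = l.length
  · exact take_snoc_infix s1 (pal_take_lppp l) (le_lppp h3 s1) (dflt_of_hp x0 hlne hc)
  · exact take_snoc_infix s1 (pal_take_lppLen l) h3.le (dflt_of_not x0 hc)

theorem codeI_inj {x0 : α} {w : List α} (hw : IsRich w) {i i' : ℕ} (hi : i < w.length)
    (hi' : i' < w.length) (h : TI x0 w i) (h' : TI x0 w i')
    (heq : codeI x0 w i = codeI x0 w i') : i = i' := by
  obtain ⟨s1, s2, s3, s4, s5, s6⟩ := step_data (x0 := x0) hi h.2.1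
  obtain ⟨t1, t2, t3, t4, t5, t6⟩ := step_data (x0 := x0) hi' h'.2.1
  have fc := TI_fac hi h
  have fc' := TI_fac hi' h'
  obtain ⟨π, hπ⟩ := exists_getElem?_bd s3
  obtain ⟨π', hπ'⟩ := exists_getElem?_bd t3
  have gπ : (core w i).getD (bd (core w i)) x0 = π := by
    rw [List.getD_eq_getElem?_getD, hπ]; rfl
  have gπ' : (core w i').getD (bd (core w i')) x0 = π' := by
    rw [List.getD_eq_getElem?_getD, hπ']; rfl
  have hne : w.getD i x0 ≠ dflt x0 (w.drop (i + 1)) := h.1
  unfold codeI at heq
  simp only [gπ, gπ', Prod.mk.injEq] at heq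
  obtain ⟨e1, e2, e3, e4⟩ := heq
  subst e3
  rw [← e1, ← e2] at e4
  rw [← e1] at fc'
  rw [← e2] at t4
  set c := dflt x0 (w.drop (i + 1)) with hc
  set d := w.getD i x0 with hd
  have hcore : core w i = core w i' := by
    exact recover1 hw (c := c) (d := d) (e := pick π d c) (π := π) hne.symm (pick_ne hne)
      (pick_or _ _ _) s1 t1 fc (Or.inl s4) fc' (Or.inl t4) hπ hπ' e4
  apply word_inj hw hi hi'
  rw [core_word (x0 := x0) hi h.2.1, core_word (x0 := x0) hi' h'.2.1, ← hd, ← e2, hcore]

theorem TII_data {x0 : α} {w : List α} {i : ℕ} (hi : i < w.length) (h : TII x0 w i) :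
    (core w i)[bd (core w i)]? = some (dflt x0 (w.drop (i + 1))) ∧
      8 * per (core w i) ≤ (core w i).length := by
  obtain ⟨h1, h2, h3⟩ := h
  obtain ⟨s1, s2, s3, s4, s5, s6⟩ := step_data (x0 := x0) hi h2
  have hd := drop_cons x0 hi
  have hcore : core w i = (w.drop (i + 1)).take (lppLen (w.drop (i + 1))) := by
    unfold core; rw [h3]
  have h3' := h3
  unfold ND at h1
  unfold mlen at h2 h3
  rw [hd] at h2 h3
  obtain ⟨g1, g2, -⟩ := typeII (x0 := x0) (by omega) h1 h3
  set l := w.drop (i + 1) with hl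
  have hbd : bd (core w i) = lppp l := by rw [hcore]; rfl
  have hlp := lppp_le l
  have hpos : 1 ≤ lppLen l := by omega
  rw [hbd]
  constructor
  · rw [hcore, List.getElem?_take_of_lt (by omega)]
    exact g2
  · unfold per
    rw [hbd, hcore, take_lppLen_length]
    exact g1

theorem codeII_inj {x0 : α} {w : List α} (hw : IsRich w) {i i' : ℕ} (hi : i < w.length)
    (hi' : i' < w.length) (h : TII x0 w i) (h' : TII x0 w i')
    (heq : codeII x0 w i = codeII x0 w i') : i = i' := by
  obtain ⟨s1, s2, s3, s4, s5, s6⟩ := step_data (x0 := x0) hi h.2.1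
  obtain ⟨t1, t2, t3, t4, t5, t6⟩ := step_data (x0 := x0) hi' h'.2.1
  obtain ⟨u1, u2⟩ := TII_data hi h
  obtain ⟨v1, v2⟩ := TII_data hi' h'
  have hne : w.getD i x0 ≠ dflt x0 (w.drop (i + 1)) := h.1
  unfold codeII at heq
  simp only [Prod.mk.injEq] at heq
  obtain ⟨e1, e2, e3⟩ := heq
  rw [← e1, ← e2] at e3
  rw [← e1] at t4
  rw [← e2] at v1
  set c := dflt x0 (w.drop (i + 1)) with hc
  set d := w.getD i x0 with hd
  have hcore : core w i = core w i' :=
    recover2 hw (d := d) (π := c) hne.symm s1 t1 (Or.inl s4) (Or.inl t4) u1 v1 u2 v2 e3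
  apply word_inj hw hi hi'
  rw [core_word (x0 := x0) hi h.2.1, core_word (x0 := x0) hi' h'.2.1, ← hd, ← e1, hcore]

open Classical in
theorem card_TI_le [Fintype α] (x0 : α) {w : List α} (hw : IsRich w) (k p : ℕ) :
    ((Finset.range w.length).filter
      (fun i => TI x0 w i ∧ mlen w i ≤ k ∧ per (core w i) ≤ p)).card ≤
      Fintype.card α ^ 3 * (p * k) := by
  have hcard : ((Finset.univ : Finset α) ×ˢ (Finset.univ : Finset α) ×ˢ (Finset.univ : Finset α)
      ×ˢ (Finset.Icc 1 p ×ˢ Finset.Icc 1 k)).card = Fintype.card α ^ 3 * (p * k) := by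
    simp only [Finset.card_product, Finset.card_univ, Nat.card_Icc, Nat.add_sub_cancel]
    ring
  rw [← hcard]
  refine Finset.card_le_card_of_injOn (codeI x0 w) ?_ ?_
  · intro i hi
    rw [Finset.mem_coe, Finset.mem_filter, Finset.mem_range] at hi
    obtain ⟨hi, hT, hk, hp⟩ := hi
    obtain ⟨s1, s2, s3, s4, s5, s6⟩ := step_data (x0 := x0) hi hT.2.1
    obtain ⟨π, hπ⟩ := exists_getElem?_bd s3
    have gπ : (core w i).getD (bd (core w i)) x0 = π := by
      rw [List.getD_eq_getElem?_getD, hπ]; rfl
    have hne : w.getD i x0 ≠ dflt x0 (w.drop (i + 1)) := hT.1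
    have hrich : IsRich (core w i) := by
      refine hw.of_infix (List.IsInfix.trans (List.IsPrefix.isInfix ?_) s4)
      exact List.prefix_append _ _
    unfold codeI
    simp only [gπ, Finset.mem_coe, Finset.mem_product, Finset.mem_univ, true_and,
      Finset.mem_Icc]
    obtain ⟨b1, b2⟩ := label_bounds s1 hrich s3 hπ (pick_ne (π := π) hne)
    obtain ⟨c1, c2⟩ := labOf_pos (path π (pick π (w.getD i x0) (dflt x0 (w.drop (i + 1))))
      ((core w i).take (bd (core w i))))
    rw [s2] at b2
    refine ⟨⟨c1, by omega⟩, ⟨c2, by omega⟩⟩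
  · intro i hi i' hi' heq
    rw [Finset.mem_coe, Finset.mem_filter, Finset.mem_range] at hi hi'
    exact codeI_inj hw hi.1 hi'.1 hi.2.1 hi'.2.1 heq

open Classical in
theorem card_TII_le [Fintype α] (x0 : α) {w : List α} (hw : IsRich w) (k p : ℕ) :
    ((Finset.range w.length).filter
      (fun i => TII x0 w i ∧ mlen w i ≤ k ∧ per (core w i) ≤ p)).card ≤
      Fintype.card α ^ 2 * (p * k) := by
  have hcard : ((Finset.univ : Finset α) ×ˢ (Finset.univ : Finset α)
      ×ˢ (Finset.Icc 1 p ×ˢ Finset.Icc 1 k)).card = Fintype.card α ^ 2 * (p * k) := by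
    simp only [Finset.card_product, Finset.card_univ, Nat.card_Icc, Nat.add_sub_cancel]
    ring
  rw [← hcard]
  refine Finset.card_le_card_of_injOn (codeII x0 w) ?_ ?_
  · intro i hi
    rw [Finset.mem_coe, Finset.mem_filter, Finset.mem_range] at hi
    obtain ⟨hi, hT, hk, hp⟩ := hi
    obtain ⟨s1, s2, s3, s4, s5, s6⟩ := step_data (x0 := x0) hi hT.2.1
    obtain ⟨hπ, -⟩ := TII_data hi hT
    have hne : w.getD i x0 ≠ dflt x0 (w.drop (i + 1)) := hT.1
    have hrich : IsRich (core w i) := by
      refine hw.of_infix (List.IsInfix.trans (List.IsPrefix.isInfix ?_) s4)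
      exact List.prefix_append _ _
    unfold codeII
    simp only [Finset.mem_coe, Finset.mem_product, Finset.mem_univ, true_and, Finset.mem_Icc]
    obtain ⟨b1, b2⟩ := label_bounds s1 hrich s3 hπ hne.symm
    obtain ⟨c1, c2⟩ := labOf_pos (path (dflt x0 (w.drop (i + 1))) (w.getD i x0)
      ((core w i).take (bd (core w i))))
    rw [s2] at b2
    refine ⟨⟨c1, by omega⟩, ⟨c2, by omega⟩⟩
  · intro i hi i' hi' heq
    rw [Finset.mem_coe, Finset.mem_filter, Finset.mem_range] at hi hi'
    exact codeII_inj hw hi.1 hi'.1 hi.2.1 hi'.2.1 heq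

open Classical in
theorem card_small_le [Fintype α] (x0 : α) {w : List α} (hw : IsRich w) :
    ((Finset.range w.length).filter (fun i => mlen w i = 0)).card ≤ 2 * Fintype.card α := by
  have hcard : ((Finset.univ : Finset α) ×ˢ (Finset.range 2)).card = 2 * Fintype.card α := by
    simp only [Finset.card_product, Finset.card_univ, Finset.card_range]
    ring
  rw [← hcard]
  refine Finset.card_le_card_of_injOn (fun i => (w.getD i x0, lppLen (w.drop i) - 1)) ?_ ?_
  · intro i hi
    rw [Finset.mem_coe, Finset.mem_filter, Finset.mem_range] at hi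
    obtain ⟨hi, hT⟩ := hi
    unfold mlen at hT
    simp only [Finset.mem_coe, Finset.mem_product, Finset.mem_univ, true_and, Finset.mem_range]
    omega
  · intro i hi i' hi' heq
    rw [Finset.mem_coe, Finset.mem_filter, Finset.mem_range] at hi hi'
    simp only [Prod.mk.injEq] at heq
    obtain ⟨e1, e2⟩ := heq
    unfold mlen at hi hi'
    have d1 := drop_cons x0 hi.1
    have d2 := drop_cons x0 hi'.1
    have g1 := lppLen_pos (l := w.drop i) (by rw [d1]; simp)
    have g2 := lppLen_pos (l := w.drop i') (by rw [d2]; simp)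
    have hM : lppLen (w.drop i) = lppLen (w.drop i') := by omega
    apply word_inj hw hi.1 hi'.1
    rw [← hM]
    have hle : lppLen (w.drop i) = 1 ∨ lppLen (w.drop i) = 2 := by omega
    rcases hle with h1 | h1
    · rw [h1, d1, d2, e1]
      simp
    · have form : ∀ {i : ℕ}, i < w.length → lppLen (w.drop i) = 2 →
          (w.drop i).take 2 = [w.getD i x0, w.getD i x0] := by
        intro i hi h2
        have d1 := drop_cons x0 hi
        rw [d1] at h2 ⊢
        obtain ⟨k1, -⟩ := lppLen_cons_spec (l := w.drop (i + 1)) (d := w.getD i x0) (by omega)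
        rw [h2] at k1
        rw [List.take_succ_cons, take_succ_eq k1]
        simp
      rw [h1, form hi.1 h1, form hi'.1 (hM ▸ h1), e1]

end Pool.Agent.W_MP_ffc92f_co
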