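import Mathlib

/-!
Definitions for the counting of rich words (palindromic richness).
-/

namespace Pool.Agent.W_MP_ffc92f_co

universe u

/-- The set of distinct palindromic factors of a word, the empty word included. -/
def palFactors {α : Type u} (w : List α) : Set (List α) :=
  {v | v <:+: w ∧ v.reverse = v}

/-- The palindromic defect of a word: its length plus one, minus the number of its
distinct palindromic factors. -/
noncomputable def defect {α : Type u} (w : List α) : ℤ :=
  (w.length : ℤ) + 1 - ((palFactors w).ncard : ℤ)

/-- A word is rich if its palindromic defect is zero. -/
def IsRich {α : Type u} (w : List α) : Prop := defect w = 0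

/-- The number of rich words of length `n` over the alphabet `α`. -/
noncomputable def richCount (α : Type u) (n : ℕ) : ℕ :=
  {w : List α | w.length = n ∧ IsRich w}.ncard

end Pool.Agent.W_MP_ffc92f_co
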