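import Pool.Agent.W_MP_ffc92f_co.Rich

namespace Pool.Agent.W_MP_ffc92f_co

universe u

variable {α : Type u}

/-- `u` or its reversal is a factor of `w`. -/
def Fac (w u : List α) : Prop := u <:+: w ∨ u.reverse <:+: w

theorem Fac.cons {l u : List α} (d : α) (h : Fac l u) : Fac (d :: l) u := by
  rcases h with h | h
  · exact Or.inl (List.infix_cons h)
  · exact Or.inr (List.infix_cons h)

theorem fac_reverse {w u : List α} : Fac w u.reverse ↔ Fac w u := by
  unfold Fac
  rw [List.reverse_reverse, or_comm]

theorem fac_flip {w v : List α} {z y : α} :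
    Fac w (y :: (v.reverse ++ [z])) ↔ Fac w (z :: (v ++ [y])) := by
  rw [← fac_reverse (u := z :: (v ++ [y]))]
  simp

theorem fac_flip_pal {w v : List α} {z y : α} (hv : Pal v) :
    Fac w (y :: (v ++ [z])) ↔ Fac w (z :: (v ++ [y])) := by
  have := fac_flip (w := w) (v := v) (z := z) (y := y)
  rwa [hv] at this

theorem Fac.of_infix {w u v : List α} (h : Fac w u) (hv : v <:+: u) : Fac w v := by
  rcases h with h | h
  · exact Or.inl (hv.trans h)
  · exact Or.inr (hv.reverse.trans h)

theorem Fac.isRich {w u : List α} (hw : IsRich w) (h : Fac w u) : IsRich u := by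
  rcases h with h | h
  · exact hw.of_infix h
  · exact isRich_reverse.1 (hw.of_infix h)

theorem not_fac_nil {z : α} {v : List α} : ¬ Fac [] (z :: v) := by
  rintro (h | h)
  · simp at h
  · simp at h

theorem newFac_prefix {d z y : α} {l v : List α} (h : IsRich (d :: l))
    (hu : ¬ Pal (z :: (v ++ [y]))) (hp : z :: (v ++ [y]) <+: d :: l)
    (hn : ¬ Fac l (z :: (v ++ [y]))) : ∀ y', Fac (d :: l) (z :: (v ++ [y'])) → y' = y := by
  obtain ⟨-, p, hp1, hp2, hp3⟩ := isRich_cons_iff.1 h
  have hpne : p ≠ [] := by rintro rfl; exact hp3 List.nil_infix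
  have hlen : p.length ≤ (z :: v).length := by
    by_contra hc
    push Not at hc
    have hle : (z :: (v ++ [y])).length ≤ p.length := by
      simp only [List.length_cons, List.length_append, List.length_nil] at hc ⊢
      omega
    have hup : z :: (v ++ [y]) <+: p := List.prefix_of_prefix_length_le hp hp1 hle
    rcases hle.lt_or_eq with hlt | heq
    · have h1 : (z :: (v ++ [y])).reverse <:+ p := by
        have := hup.reverse
        rwa [hp2] at this
      rcases List.prefix_cons_iff.1 hp1 with h2 | ⟨t, rfl, ht⟩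
      · exact hpne h2
      · have h3 : (z :: (v ++ [y])).reverse <:+ t := by
          refine suffix_tail_of_lt h1 ?_
          rw [List.length_reverse]
          rw [List.length_cons (as := t)] at hlt
          omega
        exact hn (Or.inr (h3.isInfix.trans ht.isInfix))
    · have := hup.eq_of_length heq
      exact hu (this ▸ hp2)
  have hzv : z :: v <+: z :: (v ++ [y]) := ⟨[y], by simp⟩
  have hpzv : p <+: z :: v := List.prefix_of_prefix_length_le hp1 (hzv.trans hp) hlen
  intro y' hy'
  rcases hy' with hy' | hy'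
  · rcases List.infix_cons_iff.1 hy' with h1 | h1
    · have h2 : z :: (v ++ [y']) = z :: (v ++ [y]) :=
        (List.prefix_of_prefix_length_le h1 hp (by simp)).eq_of_length (by simp)
      simpa using h2
    · exfalso
      apply hp3
      have h4 : z :: v <+: z :: (v ++ [y']) := ⟨[y'], by simp⟩
      exact (hpzv.trans h4).isInfix.trans h1
  · exfalso
    apply hp3
    have h4 : (z :: (v ++ [y'])).reverse = y' :: (z :: v).reverse := by simp
    rw [h4] at hy'
    have h5 : (z :: v).reverse <:+: l := by
      rcases List.infix_cons_iff.1 hy' with h6 | h6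
      · rw [List.cons_prefix_cons] at h6
        exact h6.2.isInfix
      · exact (List.suffix_cons _ _).isInfix.trans h6
    have h7 : p <:+ (z :: v).reverse := by
      have := hpzv.reverse
      rwa [hp2] at this
    exact h7.isInfix.trans h5

theorem newFac {d z y : α} {l v : List α} (h : IsRich (d :: l))
    (hu : ¬ Pal (z :: (v ++ [y]))) (hp : Fac (d :: l) (z :: (v ++ [y])))
    (hn : ¬ Fac l (z :: (v ++ [y]))) :
    (∀ y', Fac (d :: l) (z :: (v ++ [y'])) → y' = y) ∨
      (∀ z', Fac (d :: l) (z' :: (v ++ [y])) → z' = z) := by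
  rcases hp with hp | hp
  · left
    rcases List.infix_cons_iff.1 hp with h1 | h1
    · exact newFac_prefix h hu h1 hn
    · exact absurd (Or.inl h1) hn
  · right
    have h4 : (z :: (v ++ [y])).reverse = y :: (v.reverse ++ [z]) := by simp
    rw [h4] at hp
    rcases List.infix_cons_iff.1 hp with h1 | h1
    · have hu' : ¬ Pal (y :: (v.reverse ++ [z])) := by
        rw [← h4, pal_reverse]; exact hu
      have hn' : ¬ Fac l (y :: (v.reverse ++ [z])) := by
        rw [fac_flip]; exact hn
      intro z' hz'
      exact newFac_prefix h hu' h1 hn' z' (fac_flip.2 hz')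
    · exfalso
      apply hn
      right
      rw [h4]; exact h1

theorem F1 {w : List α} (hw : IsRich w) {z1 z2 a b : α} {v : List α} (hz : z1 ≠ z2)
    (hab : a ≠ b) (n1a : ¬ Pal (z1 :: (v ++ [a]))) (n1b : ¬ Pal (z1 :: (v ++ [b])))
    (n2a : ¬ Pal (z2 :: (v ++ [a]))) (n2b : ¬ Pal (z2 :: (v ++ [b])))
    (f1a : Fac w (z1 :: (v ++ [a]))) (f1b : Fac w (z1 :: (v ++ [b])))
    (f2a : Fac w (z2 :: (v ++ [a]))) (f2b : Fac w (z2 :: (v ++ [b]))) : False := by
  induction w with
  | nil => exact not_fac_nil f1a
  | cons d l ih =>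
    by_cases g1a : Fac l (z1 :: (v ++ [a]))
    · by_cases g1b : Fac l (z1 :: (v ++ [b]))
      · by_cases g2a : Fac l (z2 :: (v ++ [a]))
        · by_cases g2b : Fac l (z2 :: (v ++ [b]))
          · exact ih hw.of_cons g1a g1b g2a g2b
          · rcases newFac hw n2b f2b g2b with h | h
            · exact hab (h _ f2a)
            · exact hz (h _ f1b)
        · rcases newFac hw n2a f2a g2a with h | h
          · exact hab (h _ f2b).symm
          · exact hz (h _ f1a)
      · rcases newFac hw n1b f1b g1b with h | h
        · exact hab (h _ f1a)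
        · exact hz (h _ f2b).symm
    · rcases newFac hw n1a f1a g1a with h | h
      · exact hab (h _ f1b).symm
      · exact hz (h _ f2a).symm

theorem not_pal_of_ne {v : List α} {a b : α} (hab : a ≠ b) : ¬ Pal (a :: (v ++ [b])) :=
  fun h => hab (pal_cons_append.1 h).1

theorem F3 {w : List α} (hw : IsRich w) {a b c : α} {v : List α} (hv : Pal v)
    (hab : a ≠ b) (hbc : b ≠ c) (hac : a ≠ c) (fab : Fac w (a :: (v ++ [b])))
    (fbc : Fac w (b :: (v ++ [c]))) (fac : Fac w (a :: (v ++ [c]))) : False := by
  induction w with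
  | nil => exact not_fac_nil fab
  | cons d l ih =>
    by_cases gab : Fac l (a :: (v ++ [b]))
    · by_cases gbc : Fac l (b :: (v ++ [c]))
      · by_cases gac : Fac l (a :: (v ++ [c]))
        · exact ih hw.of_cons gab gbc gac
        · rcases newFac hw (not_pal_of_ne hac) fac gac with h | h
          · exact hbc (h _ fab)
          · exact hab (h _ fbc).symm
      · rcases newFac hw (not_pal_of_ne hbc) fbc gbc with h | h
        · exact hac (h _ ((fac_flip_pal hv).2 fab))
        · exact hab (h _ fac)
    · rcases newFac hw (not_pal_of_ne hab) fab gab with h | h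
      · exact hbc (h _ fac).symm
      · exact hac (h _ ((fac_flip_pal hv).2 fbc)).symm

theorem F2 {w : List α} (hw : IsRich w) {z1 z2 a b : α} {v : List α} (hv : Pal v)
    (hz : z1 ≠ z2) (hab : a ≠ b)
    (f1a : Fac w (z1 :: (v ++ [a]))) (f1b : Fac w (z1 :: (v ++ [b])))
    (f2a : Fac w (z2 :: (v ++ [a]))) (f2b : Fac w (z2 :: (v ++ [b]))) :
    (z1 = a ∧ z2 = b) ∨ (z1 = b ∧ z2 = a) := by
  by_cases h1 : z1 = a
  · by_cases h2 : z2 = b
    · left; exact ⟨h1, h2⟩
    · exfalso
      subst h1
      exact F3 hw hv hab (Ne.symm h2) hz f1b ((fac_flip_pal hv).2 f2b) ((fac_flip_pal hv).2 f2a)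
  · by_cases h3 : z1 = b
    · by_cases h2 : z2 = a
      · right; exact ⟨h3, h2⟩
      · exfalso
        subst h3
        exact F3 hw hv hab hz (Ne.symm h2) ((fac_flip_pal hv).2 f1a) ((fac_flip_pal hv).2 f2b)
          ((fac_flip_pal hv).2 f2a)
    · exfalso
      by_cases h4 : z2 = a
      · subst h4
        exact F3 hw hv hz hab h3 f1a f2b f1b
      · by_cases h5 : z2 = b
        · subst h5
          exact F3 hw hv h1 hab h3 f1a ((fac_flip_pal hv).2 f2a) f1b
        · exact F1 hw hz hab (not_pal_of_ne h1) (not_pal_of_ne h3) (not_pal_of_ne h4)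
            (not_pal_of_ne h5) f1a f1b f2a f2b

open Classical in
/-- The path of branching choices of a word read from its right end. -/
noncomputable def path (a b : α) : List α → List Bool
  | [] => []
  | z :: r => if Pal r ∧ z = a then true :: path a b r
      else if Pal r ∧ z = b then false :: path a b r else path a b r

theorem path_nil (a b : α) : path a b [] = [] := rfl

theorem path_cons_a {a b : α} {r : List α} (h : Pal r) :
    path a b (a :: r) = true :: path a b r := by
  rw [path, if_pos ⟨h, rfl⟩]

theorem path_cons_b {a b : α} (hab : a ≠ b) {r : List α} (h : Pal r) :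
    path a b (b :: r) = false :: path a b r := by
  rw [path, if_neg (fun hh => hab hh.2.symm), if_pos ⟨h, rfl⟩]

theorem path_cons_other {a b z : α} {r : List α} (ha : z ≠ a) (hb : z ≠ b) :
    path a b (z :: r) = path a b r := by
  rw [path, if_neg (fun hh => ha hh.2), if_neg (fun hh => hb hh.2)]

theorem path_cons_not_pal {a b z : α} {r : List α} (h : ¬ Pal r) :
    path a b (z :: r) = path a b r := by
  rw [path, if_neg (fun hh => h hh.1), if_neg (fun hh => h hh.1)]

theorem path_suffix_cons (a b z : α) (r : List α) : path a b r <:+ path a b (z :: r) := by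
  rw [path]
  split_ifs
  · exact List.suffix_cons _ _
  · exact List.suffix_cons _ _
  · exact List.suffix_rfl

theorem path_suffix {a b : α} {r Q : List α} (h : r <:+ Q) : path a b r <:+ path a b Q := by
  induction Q with
  | nil => rw [List.suffix_nil.1 h]
  | cons z Q ih =>
    rcases List.suffix_cons_iff.1 h with h | h
    · rw [h]
    · exact (ih h).trans (path_suffix_cons a b z Q)

theorem prefix_split (P1 P2 : List α) : P1 = P2 ∨ (∃ z, P1 ++ [z] <+: P2) ∨
    (∃ z, P2 ++ [z] <+: P1) ∨
    ∃ z1 z2 S, z1 ≠ z2 ∧ S ++ [z1] <+: P1 ∧ S ++ [z2] <+: P2 := by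
  induction P1 generalizing P2 with
  | nil =>
    cases P2 with
    | nil => left; rfl
    | cons c P2 => right; left; exact ⟨c, P2, by simp⟩
  | cons c P1 ih =>
    cases P2 with
    | nil => right; right; left; exact ⟨c, P1, by simp⟩
    | cons e P2 =>
      by_cases hce : c = e
      · subst hce
        rcases ih P2 with h | ⟨z, h⟩ | ⟨z, h⟩ | ⟨z1, z2, S, hne, h1, h2⟩
        · left; rw [h]
        · right; left; exact ⟨z, by simpa using h⟩
        · right; right; left; exact ⟨z, by simpa using h⟩
        · right; right; right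
          exact ⟨z1, z2, c :: S, hne, by simpa using h1, by simpa using h2⟩
      · right; right; right
        exact ⟨c, e, [], hce, by simp, by simp⟩

theorem suffix_split (Q1 Q2 : List α) : Q1 = Q2 ∨ (∃ z, z :: Q1 <:+ Q2) ∨
    (∃ z, z :: Q2 <:+ Q1) ∨
    ∃ z1 z2 S, z1 ≠ z2 ∧ z1 :: S <:+ Q1 ∧ z2 :: S <:+ Q2 := by
  rcases prefix_split Q1.reverse Q2.reverse with h | ⟨z, h⟩ | ⟨z, h⟩ | ⟨z1, z2, S, hne, h1, h2⟩
  · left; exact List.reverse_injective h
  · right; left; refine ⟨z, ?_⟩
    have := h.reverse
    simpa using this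
  · right; right; left; refine ⟨z, ?_⟩
    have := h.reverse
    simpa using this
  · right; right; right
    refine ⟨z1, z2, S.reverse, hne, ?_, ?_⟩
    · have := h1.reverse
      simpa using this
    · have := h2.reverse
      simpa using this

theorem fac_suffix_append {w Q : List α} {a b z : α} {S : List α}
    (h : Fac w (a :: (Q ++ [b]))) (hS : z :: S <:+ Q) : Fac w (z :: (S ++ [b])) := by
  refine h.of_infix ?_
  obtain ⟨t, ht⟩ := hS
  refine ⟨a :: t, [], ?_⟩
  rw [← ht]; simp

theorem path_inj {w : List α} (hw : IsRich w) {a b : α} (hab : a ≠ b) {Q1 Q2 : List α}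
    (p1 : Pal Q1) (p2 : Pal Q2) (f1 : Fac w (a :: (Q1 ++ [b]))) (f2 : Fac w (a :: (Q2 ++ [b])))
    (h : path a b Q1 = path a b Q2) : Q1 = Q2 := by
  have f1' : Fac w (b :: (Q1 ++ [a])) := (fac_flip_pal p1).2 f1
  have f2' : Fac w (b :: (Q2 ++ [a])) := (fac_flip_pal p2).2 f2
  -- a proper suffix is impossible
  have key : ∀ {Q1 Q2 : List α}, Pal Q1 → Pal Q2 → Fac w (a :: (Q1 ++ [b])) →
      Fac w (a :: (Q2 ++ [b])) → path a b Q1 = path a b Q2 → ∀ z, ¬ z :: Q1 <:+ Q2 := by
    intro Q1 Q2 p1 p2 f1 f2 h z hz
    have f2' : Fac w (b :: (Q2 ++ [a])) := (fac_flip_pal p2).2 f2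
    have g1 := fac_suffix_append f2 hz
    have g2 := fac_suffix_append f2' hz
    by_cases hza : z = a
    · subst hza
      have := (path_suffix (a := z) (b := b) hz).length_le
      rw [path_cons_a p1, ← h] at this
      simp at this
    · by_cases hzb : z = b
      · subst hzb
        have := (path_suffix (a := a) (b := z) hz).length_le
        rw [path_cons_b hab p1, ← h] at this
        simp at this
      · exact F3 hw p1 hza hab hzb g2 f1 g1
  rcases suffix_split Q1 Q2 with h1 | ⟨z, h1⟩ | ⟨z, h1⟩ | ⟨z1, z2, S, hne, h1, h2⟩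
  · exact h1
  · exact absurd h1 (key p1 p2 f1 f2 h z)
  · exact absurd h1 (key p2 p1 f2 f1 h.symm z)
  · exfalso
    have g1b := fac_suffix_append f1 h1
    have g1a := fac_suffix_append f1' h1
    have g2b := fac_suffix_append f2 h2
    have g2a := fac_suffix_append f2' h2
    by_cases hS : Pal S
    · have diverge : ∀ {Q1 Q2 : List α}, path a b Q1 = path a b Q2 → a :: S <:+ Q1 →
          b :: S <:+ Q2 → False := by
        intro Q1 Q2 h h1 h2
        have e1 := path_suffix (a := a) (b := b) h1
        have e2 := path_suffix (a := a) (b := b) h2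
        rw [path_cons_a hS] at e1
        rw [path_cons_b hab hS, ← h] at e2
        have := (List.suffix_of_suffix_length_le e1 e2 (by simp)).eq_of_length (by simp)
        simp at this
      rcases F2 hw hS hne hab g1a g1b g2a g2b with ⟨rfl, rfl⟩ | ⟨rfl, rfl⟩
      · exact diverge h h1 h2
      · exact diverge h.symm h2 h1
    · have np : ∀ z y : α, ¬ Pal (z :: (S ++ [y])) := fun z y hh => hS (pal_cons_append.1 hh).2
      exact F1 hw hne hab (np _ _) (np _ _) (np _ _) (np _ _) g1a g1b g2a g2b

/-- Stern-Brocot label of a path. -/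
def labOf : List Bool → ℕ × ℕ
  | [] => (1, 1)
  | true :: p => ((labOf p).1, (labOf p).1 + (labOf p).2)
  | false :: p => ((labOf p).1 + (labOf p).2, (labOf p).2)

theorem labOf_pos (p : List Bool) : 1 ≤ (labOf p).1 ∧ 1 ≤ (labOf p).2 := by
  induction p with
  | nil => exact ⟨le_rfl, le_rfl⟩
  | cons c p ih =>
    cases c <;> simp only [labOf] <;> omega

theorem labOf_injective : Function.Injective labOf := by
  intro p
  induction p with
  | nil =>
    intro q h
    cases q with
    | nil => rfl
    | cons c q =>
      exfalso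
      have := labOf_pos q
      cases c <;> simp only [labOf, Prod.mk.injEq] at h <;> omega
  | cons c p ih =>
    intro q h
    have hp := labOf_pos p
    cases q with
    | nil =>
      exfalso
      cases c <;> simp only [labOf, Prod.mk.injEq] at h <;> omega
    | cons e q =>
      have hq := labOf_pos q
      cases c <;> cases e <;> simp only [labOf, Prod.mk.injEq] at h
      · have : p = q := ih (Prod.ext (by omega) (by omega))
        rw [this]
      · exfalso; omega
      · exfalso; omega
      · have : p = q := ih (Prod.ext (by omega) (by omega))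
        rw [this]

end Pool.Agent.W_MP_ffc92f_co
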