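import Pool.Agent.W_MP_ffc92f_co.Morph

namespace Pool.Agent.W_MP_ffc92f_co

open List (replicate)

theorem mL_rep_b (k : ℕ) : mL (replicate k true) = mR (replicate k false) := by
  induction k with
  | zero => rfl
  | succ k ih => simp [List.replicate_succ, ih]

theorem mL_rep_a (k : ℕ) : mL (replicate k false) = replicate k false := by
  induction k with
  | zero => rfl
  | succ k ih => simp [List.replicate_succ, ih]

theorem mR_rep_b (k : ℕ) : mR (replicate k true) = replicate k true := by
  induction k with
  | zero => rfl
  | succ k ih => simp [List.replicate_succ, ih]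

theorem tau_rep_a (k : ℕ) : tau (replicate k false) = replicate k true := by
  simp [tau]

theorem tau_rep_b (k : ℕ) : tau (replicate k true) = replicate k false := by
  simp [tau]

theorem not_bb_mL (u : List Bool) : ¬ [true, true] <:+: mL u := by
  induction u with
  | nil => simp
  | cons c u ih =>
    cases c
    · intro h
      rcases List.infix_cons_iff.1 h with h | h
      · simp at h
      · exact ih h
    · intro h
      rcases List.infix_cons_iff.1 h with h | h
      · simp at h
      · rcases List.infix_cons_iff.1 h with h | h
        · simp only [List.cons_prefix_cons, true_and] at h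
          cases u with
          | nil => simp at h
          | cons d u => cases d <;> simp at h
        · exact ih h

theorem not_aa_mR (u : List Bool) : ¬ [false, false] <:+: mR u := by
  intro h
  have h1 := tau_infix.2 h
  rw [tau_mR] at h1
  exact not_bb_mL _ h1

/-- `A k = (ab)^k a`. -/
def wA (k : ℕ) : List Bool := mL (replicate k true) ++ [false]

/-- `B k = b (ab)^k`. -/
def wB (k : ℕ) : List Bool := true :: mL (replicate k true)

theorem wA_cons (k : ℕ) : ∃ s, wA k = false :: s := mL_snoc_head _

theorem tau_wA (k : ℕ) : tau (wA k) = wB k := by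
  unfold wA wB
  rw [tau_append, tau_mL, tau_rep_b, mL_rep_b]
  rfl

theorem wA_succ (k : ℕ) : wA (k + 1) = false :: (wB k ++ [false]) := by
  unfold wA wB
  rw [List.replicate_succ, mL_b]
  rfl

theorem wB_succ (k : ℕ) : wB (k + 1) = true :: (wA k ++ [true]) := by
  unfold wA wB
  rw [List.replicate_succ', mL_append]
  simp

theorem wB_snoc (k : ℕ) : ∃ s, wB k = s ++ [true] := by
  cases k with
  | zero => exact ⟨[], rfl⟩
  | succ k => exact ⟨true :: wA k, wB_succ k⟩

theorem pal_classify {v : List Bool} (hv : Pal v) (h1 : ¬ [true, true] <:+: v)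
    (h2 : ¬ [false, false] <:+: v) : v = [] ∨ ∃ k, v = wA k ∨ v = wB k := by
  have hp : v.Palindrome := List.Palindrome.of_reverse_eq hv
  clear hv
  induction hp with
  | nil => left; rfl
  | singleton x => right; refine ⟨0, ?_⟩; cases x <;> simp [wA, wB]
  | @cons_concat x l hl ih =>
    right
    have hs : l <:+: x :: (l ++ [x]) := by
      have := List.infix_append [x] l [x]
      simpa using this
    have ih := ih (fun h => h1 (h.trans hs)) (fun h => h2 (h.trans hs))
    rcases ih with rfl | ⟨k, rfl | rfl⟩
    · exfalso
      cases x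
      · exact h2 List.infix_rfl
      · exact h1 List.infix_rfl
    · cases x
      · exfalso
        apply h2
        obtain ⟨s, hs⟩ := wA_cons k
        rw [hs]
        exact List.IsPrefix.isInfix ⟨s ++ [false], by simp⟩
      · exact ⟨k + 1, Or.inr (wB_succ k).symm⟩
    · cases x
      · exact ⟨k + 1, Or.inl (wA_succ k).symm⟩
      · exfalso
        apply h1
        exact List.IsPrefix.isInfix ⟨mL (replicate k true) ++ [true], by simp [wB]⟩

theorem rep_infix_of_le {c : Bool} {k t : ℕ} {u : List Bool} (h : k ≤ t)
    (hu : replicate t c <:+: u) : replicate k c <:+: u := by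
  refine List.IsInfix.trans ?_ hu
  refine List.IsPrefix.isInfix ⟨replicate (t - k) c, ?_⟩
  rw [List.replicate_append_replicate]
  congr 1; omega

theorem rep_of_wB {k : ℕ} {u : List Bool} (h : wB k <:+: mL u) :
    replicate (k + 1) true <:+: u := by
  have h1 : wB k <:+: mL u ++ [false] := h.trans (List.prefix_append _ _).isInfix
  have h2 := mL_left_ext h1
  obtain ⟨s, hs⟩ := wB_snoc k
  have h3 : (false :: s) ++ [true] <:+: mL u ++ [false] := by
    rw [List.cons_append, ← hs]; exact h2
  have h4 := mL_right_ext h3
  apply mL_infix_decode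
  have h5 : mL (replicate (k + 1) true) ++ [false] = (false :: s) ++ [true, false] := by
    have : wA (k + 1) = false :: (wB k ++ [false]) := wA_succ k
    unfold wA at this
    rw [this, hs]; simp
  rw [h5]; exact h4

theorem rep_of_wA {k : ℕ} {u : List Bool} (h : wA k <:+: mR u) :
    replicate (k + 1) false <:+: u := by
  have h1 := tau_infix.2 h
  rw [tau_wA, tau_mR] at h1
  have h2 := rep_of_wB h1
  rw [← tau_rep_a] at h2
  exact tau_infix.1 h2

/-- Gluing lemma. -/
theorem glue {X Y : List Bool} {t : ℕ}
    (hP : IsRich (mL (X ++ replicate t true))) (hS : IsRich (mR (replicate t false ++ Y)))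
    (hX : ¬ replicate (t + 1) true <:+: X ++ replicate t true)
    (hY : ¬ replicate (t + 1) false <:+: replicate t false ++ Y) :
    IsRich (mL X ++ mL (replicate t true) ++ mR Y) := by
  set P := mL (X ++ replicate t true) with hPd
  set S := mR (replicate t false ++ Y) with hSd
  set W := mL X ++ mL (replicate t true) ++ mR Y with hWd
  have hPW : P <:+: W := by
    rw [hPd, hWd, mL_append]
    exact (List.prefix_append _ _).isInfix
  have hSW : S <:+: W := by
    rw [hSd, hWd, mR_append, ← mL_rep_b, List.append_assoc]
    exact (List.suffix_append _ _).isInfix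
  have hlen : W.length + 2 * t = P.length + S.length := by
    have h2t : (mR (replicate t false)).length = 2 * t := by
      clear * -
      induction t with
      | zero => rfl
      | succ t ih => rw [List.replicate_succ, mR_a]; simp [ih]; ring
    rw [hPd, hSd, hWd]
    simp only [mL_append, mR_append, List.length_append, mL_rep_b, h2t]
    ring
  have hC : palFactors P ∩ palFactors S ⊆
      insert [] (wA '' (Set.Iio t) ∪ wB '' (Set.Iio t)) := by
    rintro v ⟨⟨hv1, hv2⟩, ⟨hv3, -⟩⟩
    rcases pal_classify hv2 (fun h => not_bb_mL _ (h.trans hv1))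
      (fun h => not_aa_mR _ (h.trans hv3)) with h | ⟨k, h | h⟩
    · left; exact h
    · right; left
      refine ⟨k, ?_, h.symm⟩
      by_contra hk
      rw [Set.mem_Iio, not_lt] at hk
      subst h
      exact hY (rep_infix_of_le (Nat.succ_le_succ hk) (rep_of_wA hv3))
    · right; right
      refine ⟨k, ?_, h.symm⟩
      by_contra hk
      rw [Set.mem_Iio, not_lt] at hk
      subst h
      exact hX (rep_infix_of_le (Nat.succ_le_succ hk) (rep_of_wB hv1))
  have hCf : (insert [] (wA '' (Set.Iio t) ∪ wB '' (Set.Iio t))).Finite :=
    (((Set.finite_Iio t).image _).union ((Set.finite_Iio t).image _)).insert _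
  have hCn : (insert [] (wA '' (Set.Iio t) ∪ wB '' (Set.Iio t))).ncard ≤ 2 * t + 1 := by
    refine (Set.ncard_insert_le _ _).trans ?_
    have h1 := Set.ncard_union_le (wA '' (Set.Iio t)) (wB '' (Set.Iio t))
    have h2 := Set.ncard_image_le (f := wA) (Set.finite_Iio t)
    have h3 := Set.ncard_image_le (f := wB) (Set.finite_Iio t)
    have h4 : (Set.Iio t).ncard = t := by
      rw [← Finset.coe_Iio, Set.ncard_coe_finset, Nat.card_Iio]
    omega
  have hI : (palFactors P ∩ palFactors S).ncard ≤ 2 * t + 1 :=
    (Set.ncard_le_ncard hC hCf).trans hCn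
  have hU := Set.ncard_union_add_ncard_inter (palFactors P) (palFactors S)
    (palFactors_finite _) (palFactors_finite _)
  have hUW : (palFactors P ∪ palFactors S).ncard ≤ (palFactors W).ncard :=
    Set.ncard_le_ncard (Set.union_subset (palFactors_mono hPW) (palFactors_mono hSW))
      (palFactors_finite _)
  rw [isRich_iff] at hP hS
  rw [isRich_iff_ge]
  omega

end Pool.Agent.W_MP_ffc92f_co
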