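import Pool.Agent.W_MP_ffc92f_co.Count

namespace Pool.Agent.W_MP_ffc92f_co

universe u

variable {α : Type u}

/-! ### Kraft inequality for sequential prediction -/

open Classical in
/-- All words of length `n`. -/
noncomputable def words (α : Type u) [Fintype α] : ℕ → Finset (List α)
  | 0 => {[]}
  | n + 1 => ((Finset.univ : Finset α) ×ˢ words α n).image (fun x => x.1 :: x.2)

theorem mem_words [Fintype α] {n : ℕ} {w : List α} : w ∈ words α n ↔ w.length = n := by
  classical
  induction n generalizing w with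
  | zero => rw [words, Finset.mem_singleton, List.length_eq_zero_iff]
  | succ n ih =>
    rw [words, Finset.mem_image]
    constructor
    · rintro ⟨⟨d, l⟩, hx, rfl⟩
      rw [Finset.mem_product] at hx
      rw [List.length_cons, ih.1 hx.2]
    · intro h
      cases w with
      | nil => simp at h
      | cons d l =>
        refine ⟨(d, l), ?_, rfl⟩
        rw [Finset.mem_product]
        refine ⟨Finset.mem_univ _, ih.2 ?_⟩
        simpa using h

/-- Product weight. -/
noncomputable def wgt (p : α → List α → ℝ) : List α → ℝ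
  | [] => 1
  | d :: l => p d l * wgt p l

theorem wgt_nonneg {p : α → List α → ℝ} (hp : ∀ d l, 0 ≤ p d l) (w : List α) :
    0 ≤ wgt p w := by
  induction w with
  | nil => exact zero_le_one
  | cons d l ih => exact mul_nonneg (hp d l) ih

theorem kraft [Fintype α] {p : α → List α → ℝ} (hp0 : ∀ d l, 0 ≤ p d l)
    (hp1 : ∀ l, ∑ d, p d l ≤ 1) (n : ℕ) : ∑ w ∈ words α n, wgt p w ≤ 1 := by
  classical
  induction n with
  | zero => rw [words, Finset.sum_singleton]; exact le_rfl
  | succ n ih =>
    rw [words, Finset.sum_image (by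
      rintro ⟨d, l⟩ _ ⟨d', l'⟩ _ h
      simp only [List.cons.injEq] at h
      rw [h.1, h.2]), Finset.sum_product_right]
    calc ∑ l ∈ words α n, ∑ d : α, wgt p (d :: l)
        = ∑ l ∈ words α n, (∑ d : α, p d l) * wgt p l := by
          refine Finset.sum_congr rfl fun l _ => ?_
          rw [Finset.sum_mul]; rfl
      _ ≤ ∑ l ∈ words α n, wgt p l := by
          refine Finset.sum_le_sum fun l _ => ?_
          exact mul_le_of_le_one_left (wgt_nonneg hp0 l) (hp1 l)
      _ ≤ 1 := ih

theorem wgt_eq_exp (x0 : α) {p : α → List α → ℝ} (hp : ∀ d l, 0 < p d l) (w : List α) :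
    wgt p w = Real.exp (-∑ i ∈ Finset.range w.length,
      -Real.log (p (w.getD i x0) (w.drop (i + 1)))) := by
  induction w with
  | nil => simp [wgt]
  | cons d l ih =>
    rw [wgt, List.length_cons, Finset.sum_range_succ']
    simp only [List.getD_cons_succ, List.drop_succ_cons, List.getD_cons_zero, List.drop_zero]
    rw [neg_add, Real.exp_add, neg_neg, Real.exp_log (hp d l), ← ih, mul_comm]

theorem richCount_eq [Fintype α] (n : ℕ) [DecidablePred (IsRich (α := α))] :
    richCount α n = ((words α n).filter (fun w => IsRich w)).card := by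
  rw [richCount, ← Set.ncard_coe_finset]
  congr 1
  ext w
  simp [mem_words]

theorem richCount_le_exp [Fintype α] (x0 : α) {p : α → List α → ℝ} (hp : ∀ d l, 0 < p d l)
    (hp1 : ∀ l, ∑ d, p d l ≤ 1) {n : ℕ} {B : ℝ}
    (hB : ∀ w : List α, w.length = n → IsRich w →
      ∑ i ∈ Finset.range w.length, -Real.log (p (w.getD i x0) (w.drop (i + 1))) ≤ B) :
    (richCount α n : ℝ) ≤ Real.exp B := by
  classical
  rw [richCount_eq]
  have h1 := kraft (fun d l => (hp d l).le) hp1 n
  have h2 : ((words α n).filter (fun w => IsRich w)).card • Real.exp (-B) ≤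
      ∑ w ∈ (words α n).filter (fun w => IsRich w), wgt p w := by
    refine Finset.card_nsmul_le_sum _ _ _ fun w hw => ?_
    rw [Finset.mem_filter, mem_words] at hw
    rw [wgt_eq_exp x0 hp]
    exact Real.exp_le_exp.2 (neg_le_neg (hB w hw.1 hw.2))
  have h3 : ∑ w ∈ (words α n).filter (fun w => IsRich w), wgt p w ≤
      ∑ w ∈ words α n, wgt p w :=
    Finset.sum_le_sum_of_subset_of_nonneg (Finset.filter_subset _ _)
      (fun w _ _ => wgt_nonneg (fun d l => (hp d l).le) w)
  rw [nsmul_eq_mul] at h2
  have h4 : (((words α n).filter (fun w => IsRich w)).card : ℝ) * Real.exp (-B) ≤ 1 := by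
    linarith
  rw [Real.exp_neg] at h4
  rwa [← div_eq_mul_inv, div_le_one (Real.exp_pos B)] at h4

/-! ### The predictor -/

/-- Probability of a nondefault letter. -/
noncomputable def eps (q : ℕ) (J : ℕ) (l : List α) (d : α) : ℝ :=
  1 / (4 * q) * (1 / 4) ^ (J - cls l d)

open Classical in
/-- Total probability of the nondefault letters. -/
noncomputable def epsSum [Fintype α] (x0 : α) (J : ℕ) (l : List α) : ℝ :=
  ∑ d ∈ (Finset.univ : Finset α).erase (dflt x0 l), eps (Fintype.card α) J l d

open Classical in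
/-- The prediction. -/
noncomputable def pred [Fintype α] (x0 : α) (J : ℕ) (d : α) (l : List α) : ℝ :=
  if d = dflt x0 l then 1 - epsSum x0 J l else eps (Fintype.card α) J l d

theorem eps_pos {q : ℕ} (hq : 1 ≤ q) (J : ℕ) (l : List α) (d : α) : 0 < eps q J l d := by
  unfold eps
  have : (0 : ℝ) < q := by exact_mod_cast hq
  positivity

theorem eps_le {q : ℕ} (hq : 1 ≤ q) (J : ℕ) (l : List α) (d : α) :
    eps q J l d ≤ 1 / (4 * q) := by
  unfold eps
  have : (0 : ℝ) < q := by exact_mod_cast hq
  refine mul_le_of_le_one_right (by positivity) ?_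
  exact pow_le_one₀ (by norm_num) (by norm_num)

theorem epsSum_nonneg [Fintype α] (x0 : α) (J : ℕ) (l : List α) : 0 ≤ epsSum x0 J l := by
  unfold epsSum
  refine Finset.sum_nonneg fun d _ => ?_
  unfold eps
  positivity

theorem epsSum_le [Fintype α] (x0 : α) (J : ℕ) (l : List α) : epsSum x0 J l ≤ 1 / 4 := by
  classical
  have hq : 1 ≤ Fintype.card α := Fintype.card_pos_iff.2 ⟨x0⟩
  have hq' : (0 : ℝ) < Fintype.card α := by exact_mod_cast hq
  unfold epsSum
  calc ∑ d ∈ (Finset.univ : Finset α).erase (dflt x0 l), eps (Fintype.card α) J l d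
      ≤ ∑ _d ∈ (Finset.univ : Finset α).erase (dflt x0 l), (1 / (4 * (Fintype.card α : ℝ))) :=
        Finset.sum_le_sum fun d _ => eps_le hq J l d
    _ ≤ ∑ _d : α, (1 / (4 * (Fintype.card α : ℝ))) :=
        Finset.sum_le_sum_of_subset_of_nonneg (Finset.subset_univ _)
          (fun _ _ _ => by positivity)
    _ = 1 / 4 := by
        rw [Finset.sum_const, Finset.card_univ, nsmul_eq_mul]
        field_simp

theorem pred_pos [Fintype α] (x0 : α) (J : ℕ) (d : α) (l : List α) : 0 < pred x0 J d l := by
  have hq : 1 ≤ Fintype.card α := Fintype.card_pos_iff.2 ⟨x0⟩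
  unfold pred
  split_ifs
  · have := epsSum_le x0 J l
    linarith
  · exact eps_pos hq J l d

theorem pred_sum [Fintype α] (x0 : α) (J : ℕ) (l : List α) : ∑ d, pred x0 J d l ≤ 1 := by
  classical
  rw [← Finset.add_sum_erase _ _ (Finset.mem_univ (dflt x0 l))]
  have h1 : pred x0 J (dflt x0 l) l = 1 - epsSum x0 J l := by
    unfold pred; rw [if_pos rfl]
  have h2 : ∑ d ∈ (Finset.univ : Finset α).erase (dflt x0 l), pred x0 J d l =
      epsSum x0 J l := by
    unfold epsSum
    refine Finset.sum_congr (by congr) fun d hd => ?_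
    unfold pred
    rw [if_neg (Finset.ne_of_mem_erase hd)]
  rw [h1, h2]
  linarith

open Classical in
theorem neg_log_pred_le [Fintype α] (x0 : α) (J : ℕ) (d : α) (l : List α) :
    -Real.log (pred x0 J d l) ≤ 2 * epsSum x0 J l +
      (if d ≠ dflt x0 l then Real.log (4 * Fintype.card α) + (J - cls l d : ℕ) * Real.log 4
        else 0) := by
  have hq : 1 ≤ Fintype.card α := Fintype.card_pos_iff.2 ⟨x0⟩
  have hq' : (0 : ℝ) < Fintype.card α := by exact_mod_cast hq
  have h0 := epsSum_nonneg x0 J l
  have h1 := epsSum_le x0 J l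
  by_cases hd : d = dflt x0 l
  · rw [if_neg (by simpa using hd), add_zero]
    unfold pred
    rw [if_pos hd]
    set y := epsSum x0 J l
    have h2 : 0 < 1 - y := by linarith
    have h3 := Real.one_sub_inv_le_log_of_pos h2
    have h4 : (1 - y)⁻¹ ≤ 1 + 2 * y := by
      rw [inv_le_iff_one_le_mul₀ h2]
      nlinarith
    linarith
  · rw [if_pos hd]
    unfold pred
    rw [if_neg hd]
    unfold eps
    rw [Real.log_mul (by positivity) (by positivity), Real.log_pow, one_div, one_div,
      Real.log_inv, Real.log_inv]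
    linarith

end Pool.Agent.W_MP_ffc92f_co
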