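import Pool.Agent.W_MP_ffc92f_co.TreeWords

namespace Pool.Agent.W_MP_ffc92f_co

open List (replicate)

universe u

/-- Weight of a word. -/
def wt (x y : ℕ) (v : List Bool) : ℕ := x * v.count false + y * v.count true

theorem wt_append (x y : ℕ) (u v : List Bool) : wt x y (u ++ v) = wt x y u + wt x y v := by
  simp only [wt, List.count_append]; ring

theorem wt_mL (x y : ℕ) (u : List Bool) : wt x y (mL u) = wt x (x + y) u := by
  induction u with
  | nil => simp [wt]
  | cons c u ih =>
    unfold wt at ih ⊢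
    cases c
    · simp only [mL_a, List.count_cons_self, List.count_cons_of_ne (show (false : Bool) ≠ true by simp)]
      linarith
    · simp only [mL_b, List.count_cons_self, List.count_cons_of_ne (show (false : Bool) ≠ true by simp),
        List.count_cons_of_ne (show (true : Bool) ≠ false by simp)]
      linarith

theorem wt_mR (x y : ℕ) (u : List Bool) : wt x y (mR u) = wt (x + y) y u := by
  induction u with
  | nil => simp [wt]
  | cons c u ih =>
    unfold wt at ih ⊢
    cases c
    · simp only [mR_a, List.count_cons_self, List.count_cons_of_ne (show (false : Bool) ≠ true by simp),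
        List.count_cons_of_ne (show (true : Bool) ≠ false by simp)]
      linarith
    · simp only [mR_b, List.count_cons_self, List.count_cons_of_ne (show (true : Bool) ≠ false by simp)]
      linarith

theorem wt_one (v : List Bool) : wt 1 1 v = v.length := by
  unfold wt
  rw [one_mul, one_mul]
  exact List.count_false_add_count_true v

/-- The cost of a shape. -/
def cost : Shape → ℕ → ℕ → ℕ
  | Shape.leaf, _, _ => 0
  | Shape.node l r, x, y => cost l x (x + y) + 2 * (x + y) + cost r (x + y) y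

theorem wt_le_cost (s : Shape) : ∀ (x y : ℕ), ∀ v ∈ Wd s, wt x y v ≤ cost s x y := by
  induction s with
  | leaf =>
    intro x y v hv
    rw [Wd, Finset.mem_singleton] at hv
    subst hv
    simp [wt]
  | node l r ihl ihr =>
    intro x y v hv
    rw [Wd, Finset.mem_image] at hv
    obtain ⟨⟨v1, b, v2⟩, hx, rfl⟩ := hv
    simp only [Finset.mem_product, Finset.mem_univ, true_and] at hx
    simp only [nodeWord, wt_append, wt_mL, wt_mR, cost]
    have h1 := ihl x (x + y) v1 hx.1
    have h2 := ihr (x + y) y v2 hx.2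
    have h3 : wt x (x + y) (replicate (ex b) true) ≤ 2 * (x + y) := by
      unfold wt
      rw [List.count_replicate, List.count_replicate]
      cases b <;> simp [ex] <;> omega
    omega

/-- The Stern-Brocot shape, with fuel `f`. -/
def T (K : ℕ) : ℕ → ℕ → ℕ → Shape
  | 0, _, _ => Shape.leaf
  | f + 1, x, y => if x + y ≤ K then Shape.node (T K f x (x + y)) (T K f (x + y) y)
      else Shape.leaf

theorem cost_T_le (K f : ℕ) : ∀ x y : ℕ, cost (T K f x y) x y ≤ 2 * K * (T K f x y).size := by
  induction f with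
  | zero => intro x y; simp [T, cost]
  | succ f ih =>
    intro x y
    unfold T
    split_ifs with h
    · simp only [cost, Shape.size]
      have h1 := ih x (x + y)
      have h2 := ih (x + y) y
      nlinarith
    · simp [cost]

theorem size_T_le (K f : ℕ) : ∀ x y : ℕ, 1 ≤ x → 1 ≤ y → x ≤ K → y ≤ K →
    ((T K f x y).size + 1) * (x * y) ≤ 2 * K * K := by
  induction f with
  | zero =>
    intro x y hx hy hxK hyK
    simp only [T, Shape.size, zero_add, one_mul]
    have := Nat.mul_le_mul hxK hyK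
    nlinarith
  | succ f ih =>
    intro x y hx hy hxK hyK
    unfold T
    split_ifs with h
    · simp only [Shape.size]
      have h1 := ih x (x + y) hx (by omega) hxK h
      have h2 := ih (x + y) y (by omega) hy h hyK
      set s1 := (T K f x (x + y)).size
      set s2 := (T K f (x + y) y).size
      have h3 : (s1 + s2 + 1 + 1) * (x * y) * (x + y) ≤ 2 * K * K * (x + y) := by nlinarith
      exact Nat.le_of_mul_le_mul_right h3 (by omega)
    · simp only [Shape.size, zero_add, one_mul]
      have := Nat.mul_le_mul hxK hyK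
      nlinarith

/-- Coprime pairs below a line. -/
def cp (K x y : ℕ) : Finset (ℕ × ℕ) :=
  ((Finset.range (K + 1)) ×ˢ (Finset.range (K + 1))).filter
    (fun p => 1 ≤ p.1 ∧ 1 ≤ p.2 ∧ Nat.Coprime p.1 p.2 ∧ p.1 * x + p.2 * y ≤ K)

theorem mem_cp {K x y : ℕ} (hx : 1 ≤ x) (hy : 1 ≤ y) {p : ℕ × ℕ} :
    p ∈ cp K x y ↔ 1 ≤ p.1 ∧ 1 ≤ p.2 ∧ Nat.Coprime p.1 p.2 ∧ p.1 * x + p.2 * y ≤ K := by
  unfold cp
  rw [Finset.mem_filter, Finset.mem_product, Finset.mem_range, Finset.mem_range]
  constructor
  · exact fun h => h.2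
  · rintro ⟨h1, h2, h3, h4⟩
    refine ⟨⟨?_, ?_⟩, h1, h2, h3, h4⟩ <;> nlinarith

theorem card_cp_le (K f : ℕ) : ∀ x y : ℕ, 1 ≤ x → 1 ≤ y → K < x + y + f →
    (cp K x y).card ≤ (T K f x y).size := by
  induction f with
  | zero =>
    intro x y hx hy h
    have : cp K x y = ∅ := by
      rw [Finset.eq_empty_iff_forall_notMem]
      intro p hp
      rw [mem_cp hx hy] at hp
      obtain ⟨h1, h2, h3, h4⟩ := hp
      nlinarith
    rw [this]; simp
  | succ f ih =>
    intro x y hx hy h
    unfold T
    split_ifs with hle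
    · simp only [Shape.size]
      have h1 := ih x (x + y) hx (by omega) (by omega)
      have h2 := ih (x + y) y (by omega) hy (by omega)
      have hsub : cp K x y ⊆ insert (1, 1) ((cp K x (x + y)).image (fun p => (p.1 + p.2, p.2)) ∪
          (cp K (x + y) y).image (fun p => (p.1, p.1 + p.2))) := by
        rintro ⟨a, b⟩ hp
        rw [mem_cp hx hy] at hp
        obtain ⟨ha, hb, hc, hK⟩ := hp
        simp only at ha hb hc hK
        rw [Finset.mem_insert, Finset.mem_union, Finset.mem_image, Finset.mem_image]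
        rcases lt_trichotomy a b with hlt | heq | hgt
        · right; right
          refine ⟨(a, b - a), ?_, ?_⟩
          · rw [mem_cp (by omega) hy]
            obtain ⟨c, rfl⟩ : ∃ c, b = a + c := ⟨b - a, by omega⟩
            refine ⟨ha, by simp only; omega, ?_, ?_⟩
            · simp only [Nat.add_sub_cancel_left]
              exact (Nat.coprime_self_add_right).1 hc
            · simp only [Nat.add_sub_cancel_left]
              nlinarith
          · simp only [Prod.mk.injEq, true_and]; omega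
        · left
          subst heq
          have : a = 1 := (Nat.coprime_self a).1 hc
          rw [this]
        · right; left
          refine ⟨(a - b, b), ?_, ?_⟩
          · rw [mem_cp hx (by omega)]
            obtain ⟨c, rfl⟩ : ∃ c, a = c + b := ⟨a - b, by omega⟩
            refine ⟨by simp only; omega, hb, ?_, ?_⟩
            · simp only [Nat.add_sub_cancel]
              exact (Nat.coprime_add_self_left).1 hc
            · simp only [Nat.add_sub_cancel]
              nlinarith
          · simp only [Prod.mk.injEq, and_true]; omega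
      have h3 := Finset.card_le_card hsub
      have h4 := Finset.card_insert_le (1, 1) ((cp K x (x + y)).image (fun p => (p.1 + p.2, p.2)) ∪
          (cp K (x + y) y).image (fun p => (p.1, p.1 + p.2)))
      have h5 := Finset.card_union_le ((cp K x (x + y)).image (fun p => (p.1 + p.2, p.2)))
          ((cp K (x + y) y).image (fun p => (p.1, p.1 + p.2)))
      have h6 := Finset.card_image_le (s := cp K x (x + y)) (f := fun p : ℕ × ℕ => (p.1 + p.2, p.2))
      have h7 := Finset.card_image_le (s := cp K (x + y) y) (f := fun p : ℕ × ℕ => (p.1, p.1 + p.2))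
      omega
    · have : cp K x y = ∅ := by
        rw [Finset.eq_empty_iff_forall_notMem]
        intro p hp
        rw [mem_cp hx hy] at hp
        obtain ⟨h1, h2, h3, h4⟩ := hp
        nlinarith
      rw [this]; simp

theorem sum_inv_sq (M : ℕ) (hM : 2 ≤ M) :
    ∑ d ∈ Finset.Icc 2 M, (1 : ℝ) / (d : ℝ) ^ 2 ≤ 3 / 4 - 1 / (M : ℝ) := by
  induction M, hM using Nat.le_induction with
  | base => norm_num
  | succ M hM ih =>
    rw [Finset.sum_Icc_succ_top (by omega)]
    have hpos : (0 : ℝ) < M := by positivity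
    have : (1 : ℝ) / ((M + 1 : ℕ) : ℝ) ^ 2 ≤ 1 / (M : ℝ) - 1 / ((M + 1 : ℕ) : ℝ) := by
      push_cast
      rw [div_sub_div _ _ (by positivity) (by positivity), div_le_div_iff₀ (by positivity)
        (by positivity)]
      nlinarith
    linarith

theorem card_coprime (M : ℕ) : M ^ 2 ≤ 4 * (((Finset.Ioc 0 M) ×ˢ (Finset.Ioc 0 M)).filter
    (fun p : ℕ × ℕ => Nat.Coprime p.1 p.2)).card := by
  set A := (Finset.Ioc 0 M) ×ˢ (Finset.Ioc 0 M) with hA
  have hcard : (A.filter (fun p : ℕ × ℕ => Nat.Coprime p.1 p.2)).card +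
      (A.filter (fun p : ℕ × ℕ => ¬ Nat.Coprime p.1 p.2)).card = M ^ 2 := by
    rw [Finset.card_filter_add_card_filter_not, hA, Finset.card_product, Nat.card_Ioc, sq]
    simp
  have hsub : A.filter (fun p : ℕ × ℕ => ¬ Nat.Coprime p.1 p.2) ⊆
      (Finset.Icc 2 M).biUnion (fun d => ((Finset.Ioc 0 M).filter (fun a => d ∣ a)) ×ˢ
        ((Finset.Ioc 0 M).filter (fun a => d ∣ a))) := by
    rintro ⟨a, b⟩ hp
    rw [Finset.mem_filter, hA, Finset.mem_product] at hp
    obtain ⟨⟨ha, hb⟩, hc⟩ := hp
    simp only [Finset.mem_Ioc] at ha hb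
    simp only at hc
    rw [Finset.mem_biUnion]
    refine ⟨Nat.gcd a b, ?_, ?_⟩
    · rw [Finset.mem_Icc]
      constructor
      · have h1 : 0 < Nat.gcd a b := Nat.gcd_pos_of_pos_left _ ha.1
        have h2 : Nat.gcd a b ≠ 1 := hc
        omega
      · exact (Nat.gcd_le_left b ha.1).trans ha.2
    · rw [Finset.mem_product, Finset.mem_filter, Finset.mem_filter, Finset.mem_Ioc, Finset.mem_Ioc]
      exact ⟨⟨ha, Nat.gcd_dvd_left _ _⟩, ⟨hb, Nat.gcd_dvd_right _ _⟩⟩
  have h1 := (Finset.card_le_card hsub).trans Finset.card_biUnion_le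
  have h2 : ∀ d ∈ Finset.Icc 2 M, (((Finset.Ioc 0 M).filter (fun a => d ∣ a)) ×ˢ
        ((Finset.Ioc 0 M).filter (fun a => d ∣ a))).card = (M / d) ^ 2 := by
    intro d _
    rw [Finset.card_product, Nat.Ioc_filter_dvd_card_eq_div, sq]
  rw [Finset.sum_congr rfl h2] at h1
  have h3 : (∑ d ∈ Finset.Icc 2 M, ((M / d) ^ 2 : ℕ) : ℝ) ≤ 3 / 4 * (M : ℝ) ^ 2 := by
    rcases Nat.lt_or_ge M 2 with hM | hM
    · rw [Finset.Icc_eq_empty (by omega)]; simp
    · calc (∑ d ∈ Finset.Icc 2 M, (((M / d) ^ 2 : ℕ) : ℝ))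
          ≤ ∑ d ∈ Finset.Icc 2 M, (M : ℝ) ^ 2 * (1 / (d : ℝ) ^ 2) := by
            refine Finset.sum_le_sum fun d hd => ?_
            rw [Finset.mem_Icc] at hd
            have hd0 : (0 : ℝ) < d := by
              have : 0 < d := by omega
              exact_mod_cast this
            have hle : ((M / d : ℕ) : ℝ) ≤ (M : ℝ) / d := Nat.cast_div_le
            push_cast
            calc ((M / d : ℕ) : ℝ) ^ 2 ≤ ((M : ℝ) / d) ^ 2 := by
                  exact pow_le_pow_left₀ (by positivity) hle 2
              _ = (M : ℝ) ^ 2 * (1 / (d : ℝ) ^ 2) := by field_simp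
        _ = (M : ℝ) ^ 2 * ∑ d ∈ Finset.Icc 2 M, (1 : ℝ) / (d : ℝ) ^ 2 := by
            rw [Finset.mul_sum]
        _ ≤ (M : ℝ) ^ 2 * (3 / 4) := by
            refine mul_le_mul_of_nonneg_left ?_ (by positivity)
            have := sum_inv_sq M hM
            have h0 : (0 : ℝ) ≤ 1 / (M : ℝ) := by positivity
            linarith
        _ = _ := by ring
  have h4 : ((A.filter (fun p : ℕ × ℕ => ¬ Nat.Coprime p.1 p.2)).card : ℝ) ≤
      3 / 4 * (M : ℝ) ^ 2 := by
    refine le_trans ?_ h3
    exact_mod_cast h1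
  have h5 : ((A.filter (fun p : ℕ × ℕ => Nat.Coprime p.1 p.2)).card : ℝ) +
      ((A.filter (fun p : ℕ × ℕ => ¬ Nat.Coprime p.1 p.2)).card : ℝ) = (M : ℝ) ^ 2 := by
    exact_mod_cast hcard
  have h6 : ((M ^ 2 : ℕ) : ℝ) ≤ ((4 * (A.filter (fun p : ℕ × ℕ => Nat.Coprime p.1 p.2)).card : ℕ) : ℝ) := by
    push_cast
    linarith
  exact_mod_cast h6

theorem size_T_ge (M : ℕ) : M ^ 2 ≤ 4 * (T (2 * M) (2 * M) 1 1).size := by
  refine (card_coprime M).trans ?_
  refine Nat.mul_le_mul_left 4 (le_trans ?_ (card_cp_le (2 * M) (2 * M) 1 1 le_rfl le_rfl (by omega)))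
  refine Finset.card_le_card ?_
  intro p hp
  rw [Finset.mem_filter, Finset.mem_product, Finset.mem_Ioc, Finset.mem_Ioc] at hp
  rw [mem_cp le_rfl le_rfl]
  refine ⟨by omega, by omega, hp.2, by omega⟩

theorem richWords_finite (α : Type u) [Finite α] (n : ℕ) :
    {w : List α | w.length = n ∧ IsRich w}.Finite :=
  (List.finite_length_eq α n).subset fun _ h => h.1

theorem richCount_bool_ge {M n : ℕ} (hn : 32 * M ^ 3 ≤ n) :
    2 ^ (T (2 * M) (2 * M) 1 1).size ≤ richCount Bool n := by
  set s := T (2 * M) (2 * M) 1 1 with hs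
  have hsize : M = 0 ∨ (s.size + 1) * (1 * 1) ≤ 2 * (2 * M) * (2 * M) := by
    rcases Nat.eq_zero_or_pos M with h | h
    · left; exact h
    · right; exact size_T_le (2 * M) (2 * M) 1 1 le_rfl le_rfl (by omega) (by omega)
  have hcost : cost s 1 1 ≤ n := by
    refine (cost_T_le (2 * M) (2 * M) 1 1).trans ?_
    rw [← hs]
    rcases hsize with h | h
    · subst h; simp
    · have : s.size ≤ 8 * M ^ 2 := by nlinarith
      calc 2 * (2 * M) * s.size ≤ 2 * (2 * M) * (8 * M ^ 2) := Nat.mul_le_mul_left _ this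
        _ = 32 * M ^ 3 := by ring
        _ ≤ n := hn
  rw [← card_Wd s, ← Set.ncard_coe_finset, richCount]
  have hlen : ∀ v ∈ Wd s, v.length ≤ n := by
    intro v hv
    rw [← wt_one]
    exact (wt_le_cost s 1 1 v hv).trans hcost
  refine Set.ncard_le_ncard_of_injOn (fun v => v ++ replicate (n - v.length) true) ?_ ?_
    (richWords_finite Bool n)
  · intro v hv
    rw [Finset.mem_coe] at hv
    refine ⟨?_, ?_⟩
    · have := hlen v hv
      rw [List.length_append, List.length_replicate]
      omega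
    · have := (Wd_props s v hv).1 0 (n - v.length)
      simpa using this
  · intro v hv v' hv' h
    rw [Finset.mem_coe] at hv hv'
    simp only at h
    have f1 := (Wd_props s v hv).2.1.rep (n - v.length)
    have f2 := (Wd_props s v' hv').2.1.rep (n - v'.length)
    rw [h] at f1
    have := f1.unique f2
    have h3 : n - v.length = n - v'.length := by omega
    rw [h3] at h
    exact List.append_cancel_right h

theorem richCount_mono_bool (α : Type u) [Finite α] [Nontrivial α] (n : ℕ) :
    richCount Bool n ≤ richCount α n := by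
  obtain ⟨x, y, hxy⟩ := exists_pair_ne α
  set f : Bool → α := fun b => if b then x else y with hf
  have hinj : Function.Injective f := by
    intro a b h
    cases a <;> cases b <;> simp_all
  refine Set.ncard_le_ncard_of_injOn (List.map f) ?_ ?_ (richWords_finite α n)
  · rintro w ⟨h1, h2⟩
    exact ⟨by rw [List.length_map]; exact h1, (isRich_map hinj).2 h2⟩
  · exact (List.map_injective_iff.2 hinj).injOn

theorem lower_bound (α : Type u) [Finite α] [Nontrivial α] :
    ∀ n : ℕ, 256 ≤ n → (1 / 400 : ℝ) * (n : ℝ) ^ (2 / 3 : ℝ) ≤ Real.log (richCount α n) := by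
  intro n hn
  set z : ℝ := ((n : ℝ) / 32) ^ (1 / 3 : ℝ) with hz
  have hn0 : (0 : ℝ) ≤ (n : ℝ) / 32 := by positivity
  have hz0 : 0 ≤ z := by positivity
  have hz3 : z ^ 3 = (n : ℝ) / 32 := by
    rw [hz, ← Real.rpow_natCast, ← Real.rpow_mul hn0]
    norm_num
  have hn' : (256 : ℝ) ≤ n := by exact_mod_cast hn
  have hz2 : 2 ≤ z := by
    by_contra hc
    push Not at hc
    have : z ^ 3 < 2 ^ 3 := pow_lt_pow_left₀ hc hz0 (by norm_num)
    rw [hz3] at this
    linarith
  set M : ℕ := ⌊z⌋₊ with hM
  have hMz : (M : ℝ) ≤ z := Nat.floor_le hz0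
  have hMz2 : z < M + 1 := Nat.lt_floor_add_one z
  have hMge : z / 2 ≤ M := by linarith
  have hM3 : 32 * M ^ 3 ≤ n := by
    have : (32 : ℝ) * (M : ℝ) ^ 3 ≤ n := by
      have h1 : (M : ℝ) ^ 3 ≤ z ^ 3 := pow_le_pow_left₀ (by positivity) hMz 3
      rw [hz3] at h1
      linarith
    exact_mod_cast this
  have h1 := richCount_bool_ge hM3
  have h2 := richCount_mono_bool α n
  have h3 := size_T_ge M
  set s := (T (2 * M) (2 * M) 1 1).size with hs
  have h4 : ((2 : ℝ) ^ s) ≤ (richCount α n : ℝ) := by exact_mod_cast h1.trans h2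
  have h5 : (s : ℝ) * Real.log 2 ≤ Real.log (richCount α n) := by
    have := Real.log_le_log (by positivity) h4
    rwa [Real.log_pow] at this
  have h6 : (M : ℝ) ^ 2 / 4 ≤ s := by
    have : ((M ^ 2 : ℕ) : ℝ) ≤ ((4 * s : ℕ) : ℝ) := by exact_mod_cast h3
    push_cast at this
    linarith
  have h7 : z ^ 2 / 16 ≤ s := by
    have : (z / 2) ^ 2 ≤ (M : ℝ) ^ 2 := pow_le_pow_left₀ (by positivity) hMge 2
    nlinarith
  have h8 : z ^ 2 = (n : ℝ) ^ (2 / 3 : ℝ) / (32 : ℝ) ^ (2 / 3 : ℝ) := by
    rw [hz, ← Real.rpow_natCast, ← Real.rpow_mul hn0, Real.div_rpow (by positivity) (by norm_num)]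
    norm_num
  have h9 : (32 : ℝ) ^ (2 / 3 : ℝ) ≤ 11 := by
    have : ((32 : ℝ) ^ (2 / 3 : ℝ)) ^ 3 ≤ 11 ^ 3 := by
      rw [← Real.rpow_natCast, ← Real.rpow_mul (by norm_num)]
      norm_num
    exact le_of_pow_le_pow_left₀ (by norm_num) (by norm_num) this
  have h10 : (0.69 : ℝ) ≤ Real.log 2 := by
    have := Real.log_two_gt_d9
    linarith
  have hp : (0 : ℝ) ≤ (n : ℝ) ^ (2 / 3 : ℝ) := by positivity
  have h11 : (n : ℝ) ^ (2 / 3 : ℝ) / 11 ≤ z ^ 2 := by
    rw [h8]
    exact div_le_div_of_nonneg_left hp (by positivity) h9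
  have h12 : (n : ℝ) ^ (2 / 3 : ℝ) / 11 / 16 * 0.69 ≤ s * Real.log 2 := by
    have hs0 : (n : ℝ) ^ (2 / 3 : ℝ) / 11 / 16 ≤ s := by linarith
    exact mul_le_mul hs0 h10 (by norm_num) (by positivity)
  nlinarith

end Pool.Agent.W_MP_ffc92f_co
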