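import Pool.Agent.W_MP_ffc92f_co.Rich

namespace Pool.Agent.W_MP_ffc92f_co

/-- The morphism `a ↦ a`, `b ↦ ab` (`a = false`, `b = true`). -/
def mL : List Bool → List Bool
  | [] => []
  | false :: u => false :: mL u
  | true :: u => false :: true :: mL u

/-- The morphism `a ↦ ab`, `b ↦ b`. -/
def mR : List Bool → List Bool
  | [] => []
  | false :: u => false :: true :: mR u
  | true :: u => true :: mR u

/-- Reverse and exchange the two letters. -/
def tau (w : List Bool) : List Bool := (w.map not).reverse

@[simp] theorem mL_nil : mL [] = [] := rfl
@[simp] theorem mL_a (u : List Bool) : mL (false :: u) = false :: mL u := rfl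
@[simp] theorem mL_b (u : List Bool) : mL (true :: u) = false :: true :: mL u := rfl
@[simp] theorem mR_nil : mR [] = [] := rfl
@[simp] theorem mR_a (u : List Bool) : mR (false :: u) = false :: true :: mR u := rfl
@[simp] theorem mR_b (u : List Bool) : mR (true :: u) = true :: mR u := rfl

@[simp] theorem mL_append (u v : List Bool) : mL (u ++ v) = mL u ++ mL v := by
  induction u with
  | nil => rfl
  | cons c u ih => cases c <;> simp [ih]

@[simp] theorem mR_append (u v : List Bool) : mR (u ++ v) = mR u ++ mR v := by
  induction u with
  | nil => rfl
  | cons c u ih => cases c <;> simp [ih]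

theorem tau_nil : tau [] = [] := rfl

theorem tau_cons (c : Bool) (u : List Bool) : tau (c :: u) = tau u ++ [!c] := by
  simp [tau]

theorem tau_append (u v : List Bool) : tau (u ++ v) = tau v ++ tau u := by
  simp [tau]

@[simp] theorem tau_tau (u : List Bool) : tau (tau u) = u := by
  simp [tau, List.map_reverse, Function.comp_def]

@[simp] theorem tau_length (u : List Bool) : (tau u).length = u.length := by
  simp [tau]

theorem tau_injective : Function.Injective tau :=
  Function.LeftInverse.injective tau_tau

theorem tau_infix {u v : List Bool} : tau u <:+: tau v ↔ u <:+: v := by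
  constructor
  · intro h
    have h1 : tau (tau u) <:+: tau (tau v) := by
      unfold tau at h ⊢
      exact (h.map _).reverse
    simpa using h1
  · intro h
    unfold tau
    exact (h.map _).reverse

theorem tau_mL (u : List Bool) : tau (mL u) = mR (tau u) := by
  induction u with
  | nil => rfl
  | cons c u ih => cases c <;> simp [tau_cons, ih]

theorem tau_mR (u : List Bool) : tau (mR u) = mL (tau u) := by
  have := tau_mL (tau u)
  rw [tau_tau] at this
  rw [← this, tau_tau]

theorem isRich_tau {u : List Bool} : IsRich (tau u) ↔ IsRich u := by
  unfold tau
  rw [isRich_reverse]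
  exact isRich_map Bool.not_injective

theorem pal_tau {u : List Bool} : Pal (tau u) ↔ Pal u := by
  unfold tau
  rw [pal_reverse]
  unfold Pal
  rw [← List.map_reverse]
  exact (List.map_injective_iff.2 Bool.not_injective).eq_iff

/-- `mL u ++ [a]` starts with `a`. -/
theorem mL_snoc_head (u : List Bool) : ∃ t, mL u ++ [false] = false :: t := by
  cases u with
  | nil => exact ⟨[], rfl⟩
  | cons c u => cases c <;> exact ⟨_, rfl⟩

theorem mL_reverse (u : List Bool) : (mL u ++ [false]).reverse = mL u.reverse ++ [false] := by
  induction u with
  | nil => rfl
  | cons c u ih =>
    cases c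
    · simp only [mL_a, List.cons_append, List.reverse_cons, ih, mL_append, mL_nil]
    · simp only [mL_b, List.cons_append, List.reverse_cons, ih, mL_append, mL_nil,
        List.append_assoc, List.nil_append]

theorem mL_injective : Function.Injective mL := by
  intro u
  induction u with
  | nil =>
    intro v h
    cases v with
    | nil => rfl
    | cons c v => cases c <;> simp at h
  | cons c u ih =>
    intro v h
    cases v with
    | nil => cases c <;> simp at h
    | cons d v =>
      cases c <;> cases d
      · simp only [mL_a, List.cons.injEq, true_and] at h
        rw [ih h]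
      · simp only [mL_a, mL_b, List.cons.injEq, true_and] at h
        cases u with
        | nil => simp at h
        | cons e u => cases e <;> simp at h
      · simp only [mL_a, mL_b, List.cons.injEq, true_and] at h
        cases v with
        | nil => simp at h
        | cons e v => cases e <;> simp at h
      · simp only [mL_b, List.cons.injEq, true_and] at h
        rw [ih h]

theorem mR_injective : Function.Injective mR := by
  intro u v h
  have h1 : tau (mR u) = tau (mR v) := by rw [h]
  rw [tau_mR, tau_mR] at h1
  exact tau_injective (mL_injective h1)

theorem pal_mL {u : List Bool} : Pal (mL u ++ [false]) ↔ Pal u := by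
  unfold Pal
  rw [mL_reverse]
  constructor
  · intro h
    exact mL_injective (List.append_inj_left' h rfl)
  · intro h
    rw [h]

theorem mL_prefix_decode {p u : List Bool} (h : mL p ++ [false] <+: mL u ++ [false]) :
    p <+: u := by
  induction p generalizing u with
  | nil => exact List.nil_prefix
  | cons c p ih =>
    cases u with
    | nil =>
      exfalso
      have := h.length_le
      cases c <;> simp at this
    | cons d u =>
      cases c <;> cases d
      · simp only [mL_a, List.cons_append, List.cons_prefix_cons, true_and] at h ⊢
        exact ih h
      · exfalso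
        simp only [mL_a, mL_b, List.cons_append, List.cons_prefix_cons, true_and] at h
        obtain ⟨t, ht⟩ := mL_snoc_head p
        rw [ht] at h
        simp at h
      · exfalso
        simp only [mL_a, mL_b, List.cons_append, List.cons_prefix_cons, true_and] at h
        obtain ⟨t, ht⟩ := mL_snoc_head u
        rw [ht] at h
        simp at h
      · simp only [mL_b, List.cons_append, List.cons_prefix_cons, true_and] at h ⊢
        exact ih h

theorem mL_infix_decode {p u : List Bool} (h : mL p ++ [false] <:+: mL u ++ [false]) :
    p <:+: u := by
  induction u with
  | nil =>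
    have := h.length_le
    cases p with
    | nil => exact List.infix_rfl
    | cons c p => cases c <;> simp at this
  | cons d u ih =>
    rcases List.infix_cons_iff.1 (show mL p ++ [false] <:+: false ::
        ((mL (d :: u) ++ [false]).tail) by cases d <;> exact h) with h1 | h1
    · have : mL p ++ [false] <+: mL (d :: u) ++ [false] := by
        cases d <;> exact h1
      exact (mL_prefix_decode this).isInfix
    · cases d
      · exact List.infix_cons (ih h1)
      · simp only [mL_b, List.cons_append, List.tail_cons] at h1
        rcases List.infix_cons_iff.1 h1 with h2 | h2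
        · exfalso
          obtain ⟨t, ht⟩ := mL_snoc_head p
          rw [ht] at h2
          simp at h2
        · exact List.infix_cons (ih h2)

/-- Every factor `b x` of `mL u a` is preceded by `a`. -/
theorem mL_left_ext {x u : List Bool} (h : true :: x <:+: mL u ++ [false]) :
    false :: true :: x <:+: mL u ++ [false] := by
  induction u with
  | nil =>
    exfalso
    have := h.sublist.subset (List.mem_cons_self)
    simp at this
  | cons c u ih =>
    cases c
    · simp only [mL_a, List.cons_append] at h ⊢
      rcases List.infix_cons_iff.1 h with h1 | h1
      · simp at h1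
      · exact List.infix_cons (ih h1)
    · simp only [mL_b, List.cons_append] at h ⊢
      rcases List.infix_cons_iff.1 h with h1 | h1
      · simp at h1
      · rcases List.infix_cons_iff.1 h1 with h2 | h2
        · exact List.IsPrefix.isInfix (by simpa using h2)
        · exact List.infix_cons (List.infix_cons (ih h2))

theorem mL_right_ext {x u : List Bool} (h : x ++ [true] <:+: mL u ++ [false]) :
    x ++ [true, false] <:+: mL u ++ [false] := by
  have h1 := h.reverse
  rw [mL_reverse] at h1
  simp only [List.reverse_append, List.reverse_cons, List.reverse_nil, List.nil_append,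
    List.singleton_append] at h1
  have h2 := (mL_left_ext h1).reverse
  rw [mL_reverse, List.reverse_reverse] at h2
  simpa using h2

theorem isRich_mL {u : List Bool} (hu : IsRich u) : IsRich (mL u ++ [false]) := by
  induction u with
  | nil =>
    rw [mL_nil, List.nil_append]
    exact isRich_cons_iff.2 ⟨isRich_nil, [false], List.prefix_rfl, rfl, by simp⟩
  | cons c u ih =>
    obtain ⟨hu', p, hp1, hp2, hp3⟩ := isRich_cons_iff.1 hu
    have ih := ih hu'
    have hpre : mL p ++ [false] <+: mL (c :: u) ++ [false] := by
      obtain ⟨t, ht⟩ := hp1
      rw [← ht, mL_append]
      obtain ⟨s, hs⟩ := mL_snoc_head t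
      rw [List.append_assoc, hs]
      exact ⟨s, by simp⟩
    have hnf : ¬ mL p ++ [false] <:+: mL u ++ [false] := fun h => hp3 (mL_infix_decode h)
    cases c
    · exact isRich_cons_iff.2 ⟨ih, _, hpre, pal_mL.2 hp2, hnf⟩
    · -- p starts and ends with b
      rcases List.prefix_cons_iff.1 hp1 with hp | ⟨t, rfl, ht⟩
      · subst hp; exact absurd List.nil_infix hp3
      · -- p = true :: t
        have hq : ∃ q, mL (true :: t) ++ [false] = false :: ((true :: q) ++ [false]) ∧
            ∃ r, true :: q = r ++ [true] := by
          have hpp : Pal (mL (true :: t) ++ [false]) := pal_mL.2 hp2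
          -- true :: t = s ++ [true]
          have : ∃ s, true :: t = s ++ [true] := by
            refine ⟨t.reverse, ?_⟩
            have := hp2
            unfold Pal at this
            rw [← this]; simp
          obtain ⟨s, hs⟩ := this
          refine ⟨mL t, by simp, ?_⟩
          have h2 : mL (true :: t) = mL s ++ [false, true] := by
            rw [hs]; simp
          rw [mL_b] at h2
          cases hs' : mL s with
          | nil => rw [hs'] at h2; simp at h2; exact ⟨[], by simp [h2]⟩
          | cons e s' =>
            rw [hs'] at h2
            simp only [List.cons_append, List.cons.injEq] at h2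
            exact ⟨s' ++ [false], by rw [h2.2]; simp⟩
        obtain ⟨q, hq1, r, hr⟩ := hq
        have hpq : Pal (true :: q) := by
          have hpp : Pal (mL (true :: t) ++ [false]) := pal_mL.2 hp2
          rw [hq1] at hpp
          exact (pal_cons_append.1 hpp).2
        have h1 : IsRich (true :: (mL u ++ [false])) := by
          refine isRich_cons_iff.2 ⟨ih, true :: q, ?_, hpq, ?_⟩
          · rw [hq1] at hpre
            simp only [mL_b, List.cons_append, List.cons_prefix_cons, true_and] at hpre ⊢
            exact (List.prefix_append _ _).trans hpre
          · intro hc
            apply hnf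
            rw [hq1]
            have h3 := mL_left_ext hc
            have h4 : (false :: r) ++ [true] <:+: mL u ++ [false] := by
              rw [List.cons_append, ← hr]; exact h3
            have h5 := mL_right_ext h4
            rw [hr]
            simpa using h5
        refine isRich_cons_iff.2 ⟨h1, _, hpre, pal_mL.2 hp2, ?_⟩
        intro hc
        rcases List.infix_cons_iff.1 hc with hc | hc
        · obtain ⟨s, hs⟩ := mL_snoc_head (true :: t)
          rw [hs] at hc
          simp at hc
        · exact hnf hc

theorem isRich_mL' {u : List Bool} (hu : IsRich u) : IsRich (mL u) :=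
  (isRich_mL hu).of_prefix (List.prefix_append _ _)

theorem isRich_mR {u : List Bool} (hu : IsRich u) : IsRich (true :: mR u) := by
  have h := isRich_mL (isRich_tau.2 hu)
  rw [← tau_mR] at h
  have h2 := isRich_tau.2 h
  rw [tau_append, tau_tau] at h2
  exact h2

theorem isRich_mR' {u : List Bool} (hu : IsRich u) : IsRich (mR u) :=
  (isRich_mR hu).of_cons

theorem mR_infix_decode {p u : List Bool} (h : true :: mR p <:+: true :: mR u) : p <:+: u := by
  have h1 := tau_infix.2 h
  rw [tau_cons, tau_cons, tau_mR, tau_mR] at h1
  exact tau_infix.1 (mL_infix_decode h1)

end Pool.Agent.W_MP_ffc92f_co
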