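import Pool.Agent.W_MP_ffc92f_co.Returns

namespace Pool.Agent.W_MP_ffc92f_co

universe u

variable {α : Type u} {β : Type*}

open Classical in
/-- Length of the longest palindromic initial segment. -/
noncomputable def lppLen (l : List α) : ℕ := Nat.findGreatest (fun k => Pal (l.take k)) l.length

open Classical in
/-- Length of the longest proper palindromic initial segment. -/
noncomputable def bd (l : List α) : ℕ :=
  Nat.findGreatest (fun k => Pal (l.take k)) (l.length - 1)

/-- The smallest period of a palindrome. -/
noncomputable def per (l : List α) : ℕ := l.length - bd l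

/-- second longest. -/
noncomputable def lppp (l : List α) : ℕ := bd (l.take (lppLen l))

theorem pal_take_lppLen (l : List α) : Pal (l.take (lppLen l)) := by
  classical
  unfold lppLen
  exact Nat.findGreatest_spec (P := fun k => Pal (l.take k)) (Nat.zero_le _)
    (by simp only [List.take_zero]; exact pal_nil)

theorem lppLen_le (l : List α) : lppLen l ≤ l.length := by
  classical
  unfold lppLen
  exact Nat.findGreatest_le _

theorem le_lppLen {l : List α} {k : ℕ} (hk : k ≤ l.length) (h : Pal (l.take k)) :
    k ≤ lppLen l := by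
  classical
  exact Nat.le_findGreatest hk h

theorem pal_take_bd (l : List α) : Pal (l.take (bd l)) := by
  classical
  unfold bd
  exact Nat.findGreatest_spec (P := fun k => Pal (l.take k)) (Nat.zero_le _)
    (by simp only [List.take_zero]; exact pal_nil)

theorem bd_le (l : List α) : bd l ≤ l.length - 1 := by
  classical
  unfold bd
  exact Nat.findGreatest_le _

theorem le_bd {l : List α} {k : ℕ} (hk : k ≤ l.length - 1) (h : Pal (l.take k)) : k ≤ bd l := by
  classical
  exact Nat.le_findGreatest hk h

theorem bd_lt {l : List α} (h : l ≠ []) : bd l < l.length := by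
  have := bd_le l
  have := List.length_pos_of_ne_nil h
  omega

theorem per_pos {l : List α} (h : l ≠ []) : 1 ≤ per l := by
  have := bd_lt h
  unfold per; omega

theorem per_le_length (l : List α) : per l ≤ l.length := Nat.sub_le _ _

theorem lppLen_pos {l : List α} (h : l ≠ []) : 1 ≤ lppLen l := by
  apply le_lppLen
  · exact List.length_pos_of_ne_nil h
  · cases l with
    | nil => exact absurd rfl h
    | cons d l => simp only [List.take_succ_cons, List.take_zero]; rfl

theorem take_lppLen_length (l : List α) : (l.take (lppLen l)).length = lppLen l := by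
  rw [List.length_take]; exact min_eq_left (lppLen_le l)

theorem lppp_le (l : List α) : lppp l ≤ lppLen l - 1 := by
  have := bd_le (l.take (lppLen l))
  rwa [take_lppLen_length] at this

theorem pal_take_lppp (l : List α) : Pal (l.take (lppp l)) := by
  have h := pal_take_bd (l.take (lppLen l))
  rw [List.take_take] at h
  have h2 := lppp_le l
  unfold lppp at h2 ⊢
  rwa [min_eq_left (by omega)] at h

theorem le_lppp {l : List α} {k : ℕ} (hk : k < lppLen l) (h : Pal (l.take k)) : k ≤ lppp l := by
  apply le_bd
  · rw [take_lppLen_length]; omega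
  · rw [List.take_take, min_eq_left hk.le]; exact h

/-! ### Palindromes and periods in terms of indices -/

def PalAt (f : ℕ → β) (s e : ℕ) : Prop := ∀ x, s ≤ x → x < e → f x = f (s + e - 1 - x)

def PerAt (f : ℕ → β) (s e p : ℕ) : Prop := ∀ x, s ≤ x → x + p < e → f x = f (x + p)

theorem perAt_of_palAt {f : ℕ → β} {s m e : ℕ} (h1 : PalAt f s e) (h2 : PalAt f s m)
    (hme : m ≤ e) : PerAt f s e (e - m) := by
  intro x hx hxe
  have a1 := h2 x hx (by omega)
  have a2 := h1 (x + (e - m)) (by omega) (by omega)
  have : s + e - 1 - (x + (e - m)) = s + m - 1 - x := by omega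
  rw [this] at a2
  rw [a1, a2]

theorem palAt_of_perAt {f : ℕ → β} {s e p : ℕ} (h1 : PalAt f s e) (h2 : PerAt f s e p) :
    PalAt f s (e - p) := by
  intro x hx hxe
  have a1 := h2 x hx (by omega)
  have a2 := h1 (x + p) (by omega) (by omega)
  have : s + e - 1 - (x + p) = s + (e - p) - 1 - x := by omega
  rw [this] at a2
  rw [a1, a2]

/-- Two palindromic occurrences with distinct centres give a period of the smaller one. -/
theorem two_pal {f : ℕ → β} {s1 e1 s2 e2 : ℕ} (h1 : PalAt f s1 e1) (h2 : PalAt f s2 e2)
    (hs1 : s1 ≤ e1) (hs2 : s2 ≤ e2) (hlen : e1 - s1 ≤ e2 - s2) {Δ : ℕ}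
    (hΔ : s1 + e1 + Δ = s2 + e2 ∨ s2 + e2 + Δ = s1 + e1) : PerAt f s1 e1 Δ := by
  intro x hx hxe
  rcases hΔ with hΔ | hΔ
  · have a1 := h1 x hx (by omega)
    have a2 := h2 (x + Δ) (by omega) (by omega)
    have : s2 + e2 - 1 - (x + Δ) = s1 + e1 - 1 - x := by omega
    rw [this] at a2
    rw [a1, a2]
  · have a1 := h1 (x + Δ) (by omega) (by omega)
    have a2 := h2 x (by omega) (by omega)
    have : s1 + e1 - 1 - (x + Δ) = s2 + e2 - 1 - x := by omega
    rw [this] at a1
    rw [a1, a2]

/-- A word with period `p1` inside a longer word with period `p2` starting one letter earlier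
(or more). -/
theorem two_period {f : ℕ → β} {i e1 s0 e0 p1 p2 : ℕ} (h1 : PerAt f (i + 1) e1 p1)
    (h0 : PerAt f s0 e0 p2) (hi : s0 ≤ i) (he : e1 ≤ e0) (hp2 : 1 ≤ p2)
    (hlen : i + p1 + p2 < e1) : f i = f (i + p1) := by
  have a1 := h0 i hi (by omega)
  have a2 := h1 (i + p2) (by omega) (by omega)
  have a3 := h0 (i + p1) (by omega) (by omega)
  rw [a1, a2, a3]
  congr 1; omega

theorem palAt_iff {w : List α} {s m : ℕ} (h : s + m ≤ w.length) :
    Pal ((w.drop s).take m) ↔ PalAt (fun x => w[x]?) s (s + m) := by
  have hlen : ((w.drop s).take m).length = m := by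
    rw [List.length_take, List.length_drop]; omega
  have key : ∀ x < m, ((w.drop s).take m)[x]? = w[s + x]? := by
    intro x hx
    rw [List.getElem?_take_of_lt hx, List.getElem?_drop]
  have keyr : ∀ x < m, ((w.drop s).take m).reverse[x]? = w[s + (m - 1 - x)]? := by
    intro x hx
    rw [List.getElem?_reverse (by rw [hlen]; exact hx), hlen, key _ (by omega)]
  constructor
  · intro hp x hx hxe
    obtain ⟨y, rfl⟩ : ∃ y, x = s + y := ⟨x - s, by omega⟩
    have hy : y < m := by omega
    have e1 := keyr y hy
    rw [hp, key y hy] at e1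
    change w[s + y]? = w[s + (s + m) - 1 - (s + y)]?
    rw [e1]
    congr 1; omega
  · intro hp
    unfold Pal
    apply List.ext_getElem?
    intro x
    by_cases hx : x < m
    · rw [keyr x hx, key x hx]
      have := hp (s + x) (by omega) (by omega)
      simp only at this
      rw [this]
      congr 1; omega
    · rw [List.getElem?_eq_none (by rw [List.length_reverse, hlen]; omega),
        List.getElem?_eq_none (by rw [hlen]; omega)]

theorem palAt_iff_zero {l : List α} {m : ℕ} (h : m ≤ l.length) :
    Pal (l.take m) ↔ PalAt (fun x => l[x]?) 0 m := by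
  have := palAt_iff (w := l) (s := 0) (m := m) (by omega)
  simpa using this

theorem per_perAt {w : List α} {s m : ℕ} (h : s + m ≤ w.length)
    (hp : Pal ((w.drop s).take m)) :
    PerAt (fun x => w[x]?) s (s + m) (per ((w.drop s).take m)) := by
  set Q := (w.drop s).take m with hQ
  have hlen : Q.length = m := by
    rw [hQ, List.length_take, List.length_drop]; omega
  have hb : bd Q ≤ m := by
    have := bd_le Q
    omega
  have h1 : Pal ((w.drop s).take (bd Q)) := by
    have := pal_take_bd Q
    rwa [hQ, List.take_take, ← hQ, min_eq_left hb] at this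
  have h2 := (palAt_iff (by omega)).1 h1
  have h3 := (palAt_iff h).1 hp
  have h4 := perAt_of_palAt h3 h2 (by omega)
  unfold per
  rw [hlen]
  have : s + m - (s + bd Q) = m - bd Q := by omega
  rw [this] at h4
  exact h4

theorem per_le_of_perAt {w : List α} {s m p : ℕ} (h : s + m ≤ w.length)
    (hp : Pal ((w.drop s).take m)) (h1 : 1 ≤ p)
    (hper : PerAt (fun x => w[x]?) s (s + m) p) : per ((w.drop s).take m) ≤ p := by
  set Q := (w.drop s).take m with hQ
  have hlen : Q.length = m := by
    rw [hQ, List.length_take, List.length_drop]; omega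
  by_cases hpm : p ≤ m
  · have h3 := (palAt_iff h).1 hp
    have h4 := palAt_of_perAt h3 hper
    have h5 : s + m - p = s + (m - p) := by omega
    rw [h5] at h4
    have h6 := (palAt_iff (w := w) (s := s) (m := m - p) (by omega)).2 h4
    have h7 : m - p ≤ bd Q := by
      apply le_bd
      · rw [hlen]; omega
      · rw [hQ, List.take_take, min_eq_left (by omega)]; exact h6
    unfold per
    rw [hlen]; omega
  · have := per_le_length Q
    omega

theorem per_perAt_zero {l : List α} {m : ℕ} (h : m ≤ l.length) (hp : Pal (l.take m)) :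
    PerAt (fun x => l[x]?) 0 m (per (l.take m)) := by
  have := per_perAt (w := l) (s := 0) (m := m) (by omega) (by simpa using hp)
  simpa using this

theorem perAt_zero_of_pal {l : List α} {m k : ℕ} (h : m ≤ l.length) (hp : Pal (l.take m))
    (hk : Pal (l.take k)) (hkm : k ≤ m) : PerAt (fun x => l[x]?) 0 m (m - k) :=
  perAt_of_palAt ((palAt_iff_zero h).1 hp) ((palAt_iff_zero (hkm.trans h)).1 hk) hkm

/-! ### Palindromic initial segments after adding a letter -/

theorem take_succ_eq {l : List α} {k : ℕ} {d : α} (h : l[k]? = some d) :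
    l.take (k + 1) = l.take k ++ [d] := by
  rw [List.take_add_one, h]; rfl

theorem pal_cons_take {l : List α} {d : α} {k : ℕ} (hk : k + 2 ≤ (d :: l).length) :
    Pal ((d :: l).take (k + 2)) ↔ l[k]? = some d ∧ Pal (l.take k) := by
  have hk' : k < l.length := by simp only [List.length_cons] at hk; omega
  have h1 : (d :: l).take (k + 2) = d :: (l.take k ++ [l[k]]) := by
    rw [List.take_succ_cons, take_succ_eq (List.getElem?_eq_getElem hk')]
  rw [h1, pal_cons_append, List.getElem?_eq_getElem hk', Option.some.injEq]
  exact and_congr_left' eq_comm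

theorem pal_take_of_getElem? {l : List α} {d : α} {k : ℕ} (h : l[k]? = some d)
    (hp : Pal (l.take k)) : k + 2 ≤ lppLen (d :: l) := by
  have hk' : k < l.length := by
    by_contra hc
    rw [List.getElem?_eq_none (by omega)] at h
    exact absurd h (by simp)
  have hk : k + 2 ≤ (d :: l).length := by simp only [List.length_cons]; omega
  exact le_lppLen hk ((pal_cons_take hk).2 ⟨h, hp⟩)

theorem lppLen_cons_spec {l : List α} {d : α} (h : 2 ≤ lppLen (d :: l)) :
    l[lppLen (d :: l) - 2]? = some d ∧ Pal (l.take (lppLen (d :: l) - 2)) := by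
  have h1 := lppLen_le (d :: l)
  have h2 : lppLen (d :: l) - 2 + 2 = lppLen (d :: l) := by omega
  rw [← pal_cons_take (by rw [h2]; exact h1), h2]
  exact pal_take_lppLen _

theorem lppLen_cons_le (d : α) (l : List α) : lppLen (d :: l) ≤ lppLen l + 2 := by
  by_cases h : 2 ≤ lppLen (d :: l)
  · have h1 := lppLen_cons_spec h
    have h2 := lppLen_le (d :: l)
    rw [List.length_cons] at h2
    have := le_lppLen (l := l) (by omega) h1.2
    omega
  · omega

theorem lppLen_drop_le (w : List α) (j k : ℕ) (hjk : j ≤ k) :
    lppLen (w.drop j) ≤ lppLen (w.drop k) + 2 * (k - j) := by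
  induction k, hjk using Nat.le_induction with
  | base => omega
  | succ k hjk ih =>
    have h1 : lppLen (w.drop k) ≤ lppLen (w.drop (k + 1)) + 2 := by
      by_cases hk : k < w.length
      · rw [List.drop_eq_getElem_cons hk]
        exact lppLen_cons_le _ _
      · have : lppLen (w.drop k) = 0 := by
          rw [List.drop_eq_nil_of_le (by omega)]
          have := lppLen_le ([] : List α)
          simpa using this
        omega
    omega

theorem lppp_cons_le (d : α) (l : List α) : lppp (d :: l) ≤ lppp l + 2 := by
  by_cases h : 2 ≤ lppp (d :: l)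
  · have h1 := pal_take_lppp (d :: l)
    have h2 := lppp_le (d :: l)
    have h3 := lppLen_le (d :: l)
    obtain ⟨k, hk⟩ : ∃ k, lppp (d :: l) = k + 2 := ⟨lppp (d :: l) - 2, by omega⟩
    rw [hk] at h1 h2 ⊢
    rw [pal_cons_take (by omega)] at h1
    have h4 := lppLen_cons_le d l
    have := le_lppp (l := l) (k := k) (by omega) h1.2
    omega
  · omega

end Pool.Agent.W_MP_ffc92f_co
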