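import Pool.Agent.W_MP_ffc92f_co.Forest

namespace Pool.Agent.W_MP_ffc92f_co

universe u

variable {α : Type u}

/-- A complete return to a palindrome in a rich word is a palindrome. -/
theorem complete_return {s r : List α} (hs : IsRich s) (h1 : r <+: s)
    (h2 : r <:+ s) (h3 : r.length < s.length)
    (hmin : ∀ s', s' <:+ s → r <+: s' → r.length < s'.length → s' = s) (hr : Pal r) : Pal s := by
  cases s with
  | nil => simp at h3
  | cons d l =>
    obtain ⟨-, p, hp1, hp2, hp3⟩ := isRich_cons_iff.1 hs
    have hrl : r <:+ l := suffix_tail_of_lt h2 (by rw [List.length_cons] at h3; omega)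
    have hlt : r.length < p.length := by
      by_contra hc
      push Not at hc
      have : p <+: r := List.prefix_of_prefix_length_le hp1 h1 hc
      exact hp3 (this.isInfix.trans hrl.isInfix)
    have hrp : r <+: p := List.prefix_of_prefix_length_le h1 hp1 hlt.le
    have hrp' : r <:+ p := pal_prefix_suffix hr hp2 hrp
    obtain ⟨u, hu⟩ := hrp'
    obtain ⟨t, ht⟩ := hp1
    by_cases htn : t = []
    · subst htn
      rw [List.append_nil] at ht
      rw [← ht]; exact hp2
    · exfalso
      have hsuf : r ++ t <:+ d :: l := ⟨u, by rw [← ht, ← hu]; simp⟩
      have hlen : r.length < (r ++ t).length := by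
        rw [List.length_append]
        have := List.length_pos_of_ne_nil htn
        omega
      have heq := hmin _ hsuf (List.prefix_append _ _) hlen
      have h5 : (r ++ t).length = (p ++ t).length := by rw [heq, ht]
      rw [List.length_append, List.length_append] at h5
      omega

theorem exists_min_return (n : ℕ) : ∀ {t r : List α}, t.length = n → r <+: t →
    r.length < t.length → ∃ s, s <:+ t ∧ r <+: s ∧ r.length < s.length ∧
      ∀ s', s' <:+ s → r <+: s' → r.length < s'.length → s' = s := by
  induction n using Nat.strong_induction_on with
  | _ n ih =>
    intro t r hn hr hlt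
    by_cases h : ∃ s', s' <:+ t ∧ r <+: s' ∧ r.length < s'.length ∧ s' ≠ t
    · obtain ⟨s', h1, h2, h3, h4⟩ := h
      have h5 : s'.length < n := by
        rw [← hn]
        rcases h1.length_le.lt_or_eq with h5 | h5
        · exact h5
        · exact absurd (h1.eq_of_length h5) h4
      obtain ⟨s, g1, g2, g3, g4⟩ := ih _ h5 rfl h2 h3
      exact ⟨s, g1.trans h1, g2, g3, g4⟩
    · refine ⟨t, List.suffix_rfl, hr, hlt, ?_⟩
      intro s' h1 h2 h3
      by_contra hne
      exact h ⟨s', h1, h2, h3, hne⟩

/-- A lower bound `x` for the return time after `r` followed by `c`. -/
def Ret (r : List α) (c : α) (x : ℕ) : Prop :=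
  ∀ t, IsRich t → r ++ [c] <+: t → r <:+ t → r.length < t.length → r.length + x ≤ t.length

theorem two_returns {r : List α} {c e : α} {x y : ℕ} (hr : Pal r) (hce : c ≠ e)
    (hc : Ret r c x) (he : Ret r e y) {t : List α} (ht : IsRich t) (h1 : r ++ [c] <+: t)
    (h2 : e :: r <:+ t) : r.length + x + y ≤ t.length := by
  have hrt : r <+: t := (List.prefix_append r [c]).trans h1
  have hlt : r.length < t.length := by
    have := h1.length_le
    rw [List.length_append, List.length_singleton] at this
    omega
  obtain ⟨s, g1, g2, g3, g4⟩ := exists_min_return _ rfl hrt hlt
  have hers : e :: r <:+ s :=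
    List.suffix_of_suffix_length_le h2 g1 (by rw [List.length_cons]; omega)
  have hrs : r <:+ s := (List.suffix_cons e r).trans hers
  have hsr : IsRich s := ht.of_suffix g1
  have hsp : Pal s := complete_return hsr g2 hrs g3 g4 hr
  have hre : r ++ [e] <+: s := by
    have := hers.reverse
    rw [hsp, List.reverse_cons, hr] at this
    exact this
  have hy := he s hsr hre hrs g3
  obtain ⟨u, hu⟩ := g1
  have hune : u ≠ [] := by
    rintro rfl
    rw [List.nil_append] at hu
    subst hu
    have := (List.prefix_of_prefix_length_le h1 hre (by simp)).eq_of_length (by simp)
    exact hce (by simpa using this)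
  have hulen := List.length_pos_of_ne_nil hune
  have hur : u ++ r <+: t := by
    obtain ⟨q, hq⟩ := g2
    exact ⟨q, by rw [← hu, ← hq]; simp⟩
  have hcu : r ++ [c] <+: u ++ r := by
    refine List.prefix_of_prefix_length_le h1 hur ?_
    rw [List.length_append, List.length_append, List.length_singleton]
    omega
  have hx := hc (u ++ r) (ht.of_prefix hur) hcu (List.suffix_append _ _)
    (by rw [List.length_append]; omega)
  rw [List.length_append] at hx
  have : t.length = u.length + s.length := by rw [← hu, List.length_append]
  omega

theorem ret_path {a b : α} (hab : a ≠ b) (r : List α) :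
    Ret r a (labOf (path a b r)).1 ∧ Ret r b (labOf (path a b r)).2 := by
  induction r with
  | nil =>
    constructor
    · intro t _ _ _ h; simp only [path_nil, labOf, List.length_nil] at h ⊢; omega
    · intro t _ _ _ h; simp only [path_nil, labOf, List.length_nil] at h ⊢; omega
  | cons z r ih =>
    obtain ⟨iha, ihb⟩ := ih
    -- stripping the first letter
    have strip : ∀ {c : α} {t : List α}, (z :: r) ++ [c] <+: t → z :: r <:+ t →
        (z :: r).length < t.length →
        ∃ t', t = z :: t' ∧ r ++ [c] <+: t' ∧ z :: r <:+ t' := by
      intro c t h1 h2 h3
      rcases List.prefix_cons_iff (a := z) (l₂ := t.tail) |>.1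
        (by
          cases t with
          | nil => simp at h3
          | cons e t =>
            have : z = e := by
              rw [List.cons_append, List.cons_prefix_cons] at h1
              exact h1.1
            subst this
            exact h1) with h | ⟨q, hq, hq2⟩
      · simp at h
      · cases t with
        | nil => simp at h3
        | cons e t =>
          have hze : z = e := by
            rw [List.cons_append, List.cons_prefix_cons] at h1
            exact h1.1
          subst hze
          refine ⟨t, rfl, ?_, ?_⟩
          · rw [List.cons_append, List.cons_prefix_cons] at h1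
            exact h1.2
          · refine suffix_tail_of_lt h2 ?_
            rw [List.length_cons (as := t)] at h3
            omega
    have same : ∀ {c : α} {x : ℕ}, Ret r c x → Ret (z :: r) c x := by
      intro c x hx t ht h1 h2 h3
      obtain ⟨t', rfl, g1, g2⟩ := strip h1 h2 h3
      have h4 := g2.length_le
      rw [List.length_cons] at h4
      have := hx t' ht.of_cons g1 ((List.suffix_cons z r).trans g2) (by omega)
      rw [List.length_cons, List.length_cons]
      omega
    by_cases hr : Pal r
    · by_cases hza : z = a
      · subst hza
        rw [path_cons_a hr]
        refine ⟨same iha, ?_⟩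
        intro t ht h1 h2 h3
        obtain ⟨t', rfl, g1, g2⟩ := strip h1 h2 h3
        have := two_returns hr (Ne.symm hab) ihb iha ht.of_cons g1 g2
        simp only [labOf, List.length_cons]
        omega
      · by_cases hzb : z = b
        · subst hzb
          rw [path_cons_b hab hr]
          refine ⟨?_, same ihb⟩
          intro t ht h1 h2 h3
          obtain ⟨t', rfl, g1, g2⟩ := strip h1 h2 h3
          have := two_returns hr hab iha ihb ht.of_cons g1 g2
          simp only [labOf, List.length_cons]
          omega
        · rw [path_cons_other hza hzb]
          exact ⟨same iha, same ihb⟩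
    · rw [path_cons_not_pal hr]
      exact ⟨same iha, same ihb⟩

theorem path_skip {a b : α} (u s : List α)
    (h : ∀ s', s' <:+ u ++ s → s.length ≤ s'.length → s'.length < (u ++ s).length → ¬ Pal s') :
    path a b (u ++ s) = path a b s := by
  induction u with
  | nil => rfl
  | cons c u ih =>
    rw [List.cons_append, path_cons_not_pal]
    · apply ih
      intro s' h1 h2 h3
      exact h s' (h1.trans (List.suffix_cons _ _)) h2 (by rw [List.cons_append, List.length_cons]; omega)
    · exact h (u ++ s) (List.suffix_cons _ _) (by rw [List.length_append]; omega) (by simp)

theorem label_sum_le {a b : α} (hab : a ≠ b) (n : ℕ) : ∀ {r : List α}, r.length = n → Pal r →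
    IsRich r → (labOf (path a b r)).1 + (labOf (path a b r)).2 ≤ r.length + 2 := by
  induction n using Nat.strong_induction_on with
  | _ n ih =>
    intro r hn hp hr
    rcases Nat.eq_zero_or_pos n with h0 | hpos
    · have : r = [] := List.length_eq_zero_iff.1 (hn.trans h0)
      subst this
      simp [path_nil, labOf]
    · -- the longest proper palindromic suffix
      classical
      have hex : ∃ k, k < r.length ∧ Pal (r.drop (r.length - k)) ∧
          ∀ m, k < m → m < r.length → ¬ Pal (r.drop (r.length - m)) := by
        have h0 : (fun k => Pal (r.drop (r.length - k))) 0 := by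
          simp only [Nat.sub_zero, List.drop_length]; exact pal_nil
        refine ⟨Nat.findGreatest (fun k => Pal (r.drop (r.length - k))) (r.length - 1), ?_, ?_, ?_⟩
        · have := Nat.findGreatest_le (P := fun k => Pal (r.drop (r.length - k))) (r.length - 1)
          omega
        · exact Nat.findGreatest_spec (P := fun k => Pal (r.drop (r.length - k))) (Nat.zero_le _) h0
        · intro m h1 h2
          exact Nat.findGreatest_is_greatest h1 (by omega)
      obtain ⟨k, hk1, hk2, hk3⟩ := hex
      set r' := r.drop (r.length - k) with hr'
      have hlen' : r'.length = k := by rw [hr', List.length_drop]; omega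
      have hsuf : r' <:+ r := List.drop_suffix _ _
      -- the letter before it
      have hz : ∃ u z, r = u ++ z :: r' := by
        obtain ⟨v, hv⟩ := hsuf
        have hvne : v ≠ [] := by
          rintro rfl
          rw [List.nil_append] at hv
          have := congrArg List.length hv
          omega
        refine ⟨v.dropLast, v.getLast hvne, ?_⟩
        have := List.dropLast_append_getLast hvne
        rw [← hv]
        conv_lhs => rw [← this]
        simp
      obtain ⟨u, z, hu⟩ := hz
      have hpath : path a b r = path a b (z :: r') := by
        rw [hu]
        apply path_skip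
        intro s' h1 h2 h3
        rw [← hu] at h1 h3
        have h4 := hk3 s'.length (by rw [List.length_cons, hlen'] at h2; omega) h3
        have h5 : s' = r.drop (r.length - s'.length) := List.suffix_iff_eq_drop.1 h1
        rw [h5]
        exact h4
      have hr'r : IsRich r' := hr.of_suffix hsuf
      have hih := ih k (by omega) hlen' hk2 hr'r
      have hzsuf : z :: r' <:+ r := ⟨u, hu.symm⟩
      have hpre : r' ++ [z] <+: r := by
        have := hzsuf.reverse
        rw [hp, List.reverse_cons, hk2] at this
        exact this
      have hret := ret_path hab r'
      rw [hpath]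
      by_cases hza : z = a
      · subst hza
        have h6 := hret.1 r hr hpre hsuf (by omega)
        rw [path_cons_a hk2]
        simp only [labOf]
        omega
      · by_cases hzb : z = b
        · subst hzb
          have h6 := hret.2 r hr hpre hsuf (by omega)
          rw [path_cons_b hab hk2]
          simp only [labOf]
          omega
        · rw [path_cons_other hza hzb]
          omega

end Pool.Agent.W_MP_ffc92f_co
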