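import Pool.Agent.W_MP_ffc92f_co.Defs

namespace Pool.Agent.W_MP_ffc92f_co

universe u v

variable {α : Type u} {β : Type v}

/-- Palindromes. -/
def Pal (v : List α) : Prop := v.reverse = v

theorem pal_nil : Pal ([] : List α) := rfl

theorem pal_singleton (a : α) : Pal [a] := rfl

theorem pal_reverse {v : List α} : Pal v.reverse ↔ Pal v := by
  unfold Pal
  rw [List.reverse_reverse]
  exact eq_comm

theorem pal_cons_append {d e : α} {v : List α} :
    Pal (d :: (v ++ [e])) ↔ d = e ∧ Pal v := by
  unfold Pal
  simp only [List.reverse_cons, List.reverse_append, List.reverse_nil, List.nil_append,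
    List.cons_append, List.cons.injEq]
  constructor
  · rintro ⟨h1, h2⟩
    refine ⟨h1.symm, ?_⟩
    exact (List.append_inj' h2 rfl).1
  · rintro ⟨rfl, h⟩
    exact ⟨rfl, by rw [h]⟩

/-- A palindromic prefix, in a strictly longer palindromic (or any) prefix context. -/
theorem pal_prefix_suffix {p q : List α} (hp : Pal p) (hq : Pal q) (h : p <+: q) : p <:+ q := by
  have := h.reverse
  rwa [hp, hq] at this

theorem suffix_tail_of_lt {p q : List α} {d : α} (h : p <:+ d :: q) (hl : p.length ≤ q.length) :
    p <:+ q := by
  rcases List.suffix_cons_iff.1 h with h | h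
  · subst h; simp at hl
  · exact h

theorem infixes_finite (w : List α) : {v | v <:+: w}.Finite := by
  induction w with
  | nil => simp
  | cons d l ih =>
    have : {v | v <:+: d :: l} ⊆ {v | v <:+: l} ∪ ((fun n => (d :: l).take n) ''
        (Set.Iic (l.length + 1))) := by
      intro v hv
      rcases List.infix_cons_iff.1 hv with h | h
      · right
        refine ⟨v.length, ?_, ?_⟩
        · simpa using h.length_le
        · exact (List.prefix_iff_eq_take.1 h).symm
      · left; exact h
    exact (ih.union ((Set.finite_Iic _).image _)).subset this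

theorem palFactors_finite (w : List α) : (palFactors w).Finite :=
  (infixes_finite w).subset fun _ hv => hv.1

theorem mem_palFactors {v w : List α} : v ∈ palFactors w ↔ v <:+: w ∧ Pal v := Iff.rfl

theorem palFactors_mono {v w : List α} (h : v <:+: w) : palFactors v ⊆ palFactors w :=
  fun _ hx => ⟨hx.1.trans h, hx.2⟩

/-- shorter palindromic prefixes are factors of the tail. -/
theorem short_pal_prefix {p q l : List α} {d : α} (hp : Pal p) (hq : Pal q)
    (hp1 : p <+: d :: l) (hq1 : q <+: d :: l) (hlt : p.length < q.length) : p <:+: l := by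
  have h1 : p <+: q := List.prefix_of_prefix_length_le hp1 hq1 hlt.le
  have h2 : p <:+ q := pal_prefix_suffix hp hq h1
  rcases List.prefix_cons_iff.1 hq1 with h | ⟨t, rfl, ht⟩
  · subst h; simp at hlt
  · have h3 : p <:+ t := suffix_tail_of_lt h2 (by simpa using Nat.lt_succ_iff.1 hlt)
    exact h3.isInfix.trans ht.isInfix

theorem palFactors_cons_subset (d : α) (l : List α) :
    ∃ p, palFactors (d :: l) ⊆ insert p (palFactors l) := by
  by_cases h : ∃ p, p <+: d :: l ∧ Pal p ∧ ¬ p <:+: l
  · obtain ⟨p, hp1, hp2, hp3⟩ := h
    refine ⟨p, ?_⟩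
    intro v hv
    rcases List.infix_cons_iff.1 hv.1 with h | h
    · rcases lt_trichotomy v.length p.length with hlt | heq | hlt
      · right
        exact ⟨short_pal_prefix hv.2 hp2 h hp1 hlt, hv.2⟩
      · left
        exact (List.prefix_of_prefix_length_le h hp1 heq.le).eq_of_length heq
      · exact absurd (short_pal_prefix hp2 hv.2 hp1 h hlt) hp3
    · right; exact ⟨h, hv.2⟩
  · refine ⟨[], ?_⟩
    intro v hv
    rcases List.infix_cons_iff.1 hv.1 with h' | h'
    · right
      by_contra hc
      exact h ⟨v, h', hv.2, fun hh => hc ⟨hh, hv.2⟩⟩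
    · right; exact ⟨h', hv.2⟩

theorem ncard_palFactors_cons_le (d : α) (l : List α) :
    (palFactors (d :: l)).ncard ≤ (palFactors l).ncard + 1 := by
  obtain ⟨p, hp⟩ := palFactors_cons_subset d l
  calc (palFactors (d :: l)).ncard ≤ (insert p (palFactors l)).ncard :=
        Set.ncard_le_ncard hp ((palFactors_finite l).insert p)
    _ ≤ (palFactors l).ncard + 1 := Set.ncard_insert_le _ _

theorem palFactors_nil : palFactors ([] : List α) = {[]} := by
  ext v
  rw [Set.mem_singleton_iff]
  constructor
  · exact fun h => List.infix_nil.1 h.1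
  · rintro rfl; exact ⟨List.infix_rfl, rfl⟩

theorem ncard_palFactors_le (w : List α) : (palFactors w).ncard ≤ w.length + 1 := by
  induction w with
  | nil => simp [palFactors_nil]
  | cons d l ih =>
    have := ncard_palFactors_cons_le d l
    simp only [List.length_cons]
    omega

theorem isRich_iff (w : List α) : IsRich w ↔ (palFactors w).ncard = w.length + 1 := by
  unfold IsRich defect
  omega

theorem isRich_iff_ge (w : List α) : IsRich w ↔ w.length + 1 ≤ (palFactors w).ncard := by
  rw [isRich_iff]
  have := ncard_palFactors_le w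
  omega

theorem isRich_nil : IsRich ([] : List α) := by
  rw [isRich_iff]; simp [palFactors_nil]

theorem isRich_cons_iff {d : α} {l : List α} :
    IsRich (d :: l) ↔ IsRich l ∧ ∃ p, p <+: d :: l ∧ Pal p ∧ ¬ p <:+: l := by
  constructor
  · intro h
    rw [isRich_iff] at h
    have h1 := ncard_palFactors_cons_le d l
    have h2 := ncard_palFactors_le l
    simp only [List.length_cons] at h
    have h3 : (palFactors l).ncard = l.length + 1 := by omega
    refine ⟨(isRich_iff l).2 h3, ?_⟩
    by_contra hc
    have : palFactors (d :: l) ⊆ palFactors l := by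
      intro v hv
      rcases List.infix_cons_iff.1 hv.1 with h' | h'
      · by_contra hc'
        exact hc ⟨v, h', hv.2, fun hh => hc' ⟨hh, hv.2⟩⟩
      · exact ⟨h', hv.2⟩
    have := Set.ncard_le_ncard this (palFactors_finite l)
    omega
  · rintro ⟨h, p, hp1, hp2, hp3⟩
    rw [isRich_iff] at h
    rw [isRich_iff_ge]
    have hsub : insert p (palFactors l) ⊆ palFactors (d :: l) := by
      intro v hv
      rcases hv with rfl | hv
      · exact ⟨hp1.isInfix, hp2⟩
      · exact palFactors_mono (List.infix_cons List.infix_rfl) hv
    have hn : p ∉ palFactors l := fun hh => hp3 hh.1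
    have := Set.ncard_le_ncard hsub (palFactors_finite _)
    rw [Set.ncard_insert_of_notMem hn (palFactors_finite l)] at this
    simp only [List.length_cons]
    omega

theorem IsRich.of_cons {d : α} {l : List α} (h : IsRich (d :: l)) : IsRich l :=
  (isRich_cons_iff.1 h).1

theorem palFactors_reverse (w : List α) : palFactors w.reverse = palFactors w := by
  ext v
  rw [mem_palFactors, mem_palFactors]
  constructor
  · rintro ⟨h1, h2⟩
    refine ⟨?_, h2⟩
    have := h1.reverse
    rwa [List.reverse_reverse, h2] at this
  · rintro ⟨h1, h2⟩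
    refine ⟨?_, h2⟩
    have := h1.reverse
    rwa [h2] at this

theorem isRich_reverse {w : List α} : IsRich w.reverse ↔ IsRich w := by
  rw [isRich_iff, isRich_iff, palFactors_reverse, List.length_reverse]

theorem IsRich.of_suffix {v w : List α} (hw : IsRich w) (h : v <:+ w) : IsRich v := by
  induction w with
  | nil =>
    have : v = [] := List.suffix_nil.1 h
    rw [this]; exact isRich_nil
  | cons d l ih =>
    rcases List.suffix_cons_iff.1 h with h | h
    · rw [h]; exact hw
    · exact ih hw.of_cons h

theorem IsRich.of_prefix {v w : List α} (hw : IsRich w) (h : v <+: w) : IsRich v := by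
  rw [← isRich_reverse]
  exact (isRich_reverse.2 hw).of_suffix h.reverse

theorem IsRich.of_infix {v w : List α} (hw : IsRich w) (h : v <:+: w) : IsRich v := by
  obtain ⟨t, h1, h2⟩ := List.infix_iff_prefix_suffix.1 h
  exact (hw.of_suffix h2).of_prefix h1

theorem palFactors_map {f : α → β} (hf : Function.Injective f) (w : List α) :
    palFactors (w.map f) = (List.map f) '' palFactors w := by
  have hinj : Function.Injective (List.map f) := List.map_injective_iff.2 hf
  ext v
  constructor
  · rintro ⟨h1, h2⟩
    obtain ⟨v', hv', rfl⟩ := List.infix_map_iff.1 h1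
    refine ⟨v', ⟨hv', ?_⟩, rfl⟩
    rw [← List.map_reverse] at h2
    exact hinj h2
  · rintro ⟨v', ⟨h1, h2⟩, rfl⟩
    refine ⟨h1.map f, ?_⟩
    rw [← List.map_reverse, h2]

theorem isRich_map {f : α → β} (hf : Function.Injective f) {w : List α} :
    IsRich (w.map f) ↔ IsRich w := by
  rw [isRich_iff, isRich_iff, palFactors_map hf, List.length_map,
    Set.ncard_image_of_injective _ (List.map_injective_iff.2 hf)]

end Pool.Agent.W_MP_ffc92f_co
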