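import Pool.Agent.W_MP_ffc92f_co.Periods

namespace Pool.Agent.W_MP_ffc92f_co

universe u

variable {α : Type u}

/-- The predicted letter. -/
noncomputable def dflt (x0 : α) (l : List α) : α :=
  if 8 * (lppLen l - lppp l) ≤ lppLen l ∨ lppLen l = l.length then l.getD (lppp l) x0
  else l.getD (lppLen l) x0

theorem dflt_of_hp (x0 : α) {l : List α} (hl : l ≠ [])
    (h : 8 * (lppLen l - lppp l) ≤ lppLen l ∨ lppLen l = l.length) :
    l[lppp l]? = some (dflt x0 l) := by
  unfold dflt
  rw [if_pos h]
  have h1 := lppp_le l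
  have h2 := lppLen_le l
  have h3 := lppLen_pos hl
  have h4 : lppp l < l.length := by omega
  rw [List.getD_eq_getElem _ _ h4, List.getElem?_eq_getElem h4]

theorem dflt_of_not (x0 : α) {l : List α}
    (h : ¬ (8 * (lppLen l - lppp l) ≤ lppLen l ∨ lppLen l = l.length)) :
    l[lppLen l]? = some (dflt x0 l) := by
  unfold dflt
  rw [if_neg h]
  have h2 := lppLen_le l
  have h4 : lppLen l < l.length := by
    rcases h2.lt_or_eq with h3 | h3
    · exact h3
    · exact absurd (Or.inr h3) h
  rw [List.getD_eq_getElem _ _ h4, List.getElem?_eq_getElem h4]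

/-- Drop steps lose a lot. -/
theorem typeI {x0 d : α} {l : List α} (h2 : 2 ≤ lppLen (d :: l)) (hd : d ≠ dflt x0 l)
    (hlt : lppLen (d :: l) - 2 < lppLen l) :
    lppLen (d :: l) - 2 < 8 * (lppLen l - (lppLen (d :: l) - 2)) := by
  obtain ⟨hm1, hm2⟩ := lppLen_cons_spec h2
  set m := lppLen (d :: l) - 2 with hm
  by_contra hc
  push Not at hc
  have hlen := lppLen_le l
  have hl : l ≠ [] := by
    rintro rfl
    simp at hm1
  have hmp : m ≤ lppp l := le_lppp hlt hm2
  have hpl := lppp_le l
  have hpos := lppLen_pos hl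
  have hd' := dflt_of_hp x0 hl (Or.inl (by omega))
  have hP1 := perAt_zero_of_pal hlen (pal_take_lppLen l) hm2 hlt.le
  have hP2 := perAt_zero_of_pal hlen (pal_take_lppLen l) (pal_take_lppp l) (by omega)
  set L := lppLen l with hL
  set L' := lppp l with hL'
  have e1 := hP2 (m - (L - L')) (Nat.zero_le _) (by omega)
  have e2 := hP1 (m - (L - L')) (Nat.zero_le _) (by omega)
  simp only at e1 e2
  have i1 : m - (L - L') + (L - L') = m := by omega
  have i2 : m - (L - L') + (L - m) = L' := by omega
  rw [i1] at e1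
  rw [i2] at e2
  rw [e1, hm1, hd'] at e2
  exact hd (Option.some.inj e2)

/-- Breaking steps. -/
theorem typeII {x0 d : α} {l : List α} (h2 : 3 ≤ lppLen (d :: l)) (hd : d ≠ dflt x0 l)
    (heq : lppLen (d :: l) - 2 = lppLen l) :
    8 * (lppLen l - lppp l) ≤ lppLen l ∧ l[lppp l]? = some (dflt x0 l) ∧
      8 * lppp (d :: l) ≤ lppLen l + 16 := by
  obtain ⟨hm1, hm2⟩ := lppLen_cons_spec (by omega : 2 ≤ lppLen (d :: l))
  rw [heq] at hm1 hm2
  have hlen := lppLen_le l
  have hl : l ≠ [] := by
    rintro rfl
    simp at hm1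
  have hlt : lppLen l < l.length := by
    by_contra hc
    rw [List.getElem?_eq_none (by omega)] at hm1
    exact absurd hm1 (by simp)
  have hhp : 8 * (lppLen l - lppp l) ≤ lppLen l := by
    by_contra hc
    have := dflt_of_not x0 (l := l) (by
      rintro (h | h)
      · exact hc h
      · omega)
    rw [hm1] at this
    exact hd (Option.some.inj this)
  have hd' := dflt_of_hp x0 hl (Or.inl hhp)
  refine ⟨hhp, hd', ?_⟩
  by_contra hc
  push Not at hc
  have hpl := lppp_le l
  have hpos := lppLen_pos hl
  set L := lppLen l with hL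
  set L' := lppp l with hL'
  set r := lppp (d :: l) with hr
  have hr1 := lppp_le (d :: l)
  have hlen2 := lppLen_le (d :: l)
  have hP0 := perAt_zero_of_pal hlen2 (pal_take_lppLen (d :: l)) (pal_take_lppp (d :: l)) (by omega)
  have hperL : per (((d :: l).drop 1).take L) = L - L' := by
    unfold per
    rw [List.drop_one, List.tail_cons, hL, take_lppLen_length]
    rfl
  have hP1 := per_perAt (w := d :: l) (s := 1) (m := L) (by simp only [List.length_cons]; omega)
    (by rw [List.drop_one, List.tail_cons]; exact pal_take_lppLen l)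
  rw [hperL] at hP1
  have h1' : PerAt (fun x => (d :: l)[x]?) (0 + 1) (L + 1) (L - L') := by
    rw [Nat.add_comm L 1]; exact hP1
  have key := two_period h1' hP0 (Nat.zero_le _) (by omega) (by omega) (by omega)
  simp only [Nat.zero_add] at key
  have i1 : L - L' = (L - L' - 1) + 1 := by omega
  rw [i1, List.getElem?_cons_succ, List.getElem?_cons_zero] at key
  have e3 := (palAt_iff_zero hlen).1 (pal_take_lppLen l) (L - L' - 1) (Nat.zero_le _) (by omega)
  simp only at e3
  have i2 : 0 + lppLen l - 1 - (L - L' - 1) = L' := by omega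
  rw [i2, ← key, hd'] at e3
  exact hd (Option.some.inj e3)

/-- The potential. -/
noncomputable def pot (l : List α) : ℕ := 8 * (lppLen l + lppp l)

theorem pot_step_aux {x0 d : α} {l : List α} (hd : d ≠ dflt x0 l) :
    pot (d :: l) + (lppLen (d :: l) - 2) ≤ pot l + 32 := by
  unfold pot
  have h1 := lppLen_cons_le d l
  have h2 := lppp_cons_le d l
  have h3 := lppp_le l
  by_cases hM : 3 ≤ lppLen (d :: l)
  · by_cases hlt : lppLen (d :: l) - 2 < lppLen l
    · have := typeI (by omega) hd hlt
      omega
    · obtain ⟨g1, -, g3⟩ := typeII hM hd (by omega)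
      omega
  · omega

theorem pot_step_aux' (d : α) (l : List α) : pot (d :: l) ≤ pot l + 32 := by
  unfold pot
  have h1 := lppLen_cons_le d l
  have h2 := lppp_cons_le d l
  omega

/-- The step predicate for nondefault steps. -/
def ND (x0 : α) (w : List α) (i : ℕ) : Prop := w.getD i x0 ≠ dflt x0 (w.drop (i + 1))

/-- Core length of step `i`. -/
noncomputable def mlen (w : List α) (i : ℕ) : ℕ := lppLen (w.drop i) - 2

theorem drop_cons (x0 : α) {w : List α} {i : ℕ} (hi : i < w.length) :
    w.drop i = w.getD i x0 :: w.drop (i + 1) := by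
  rw [List.getD_eq_getElem _ _ hi]
  exact List.drop_eq_getElem_cons hi

open Classical in
theorem sum_mlen_le (x0 : α) (w : List α) :
    ∑ i ∈ Finset.range w.length, (if ND x0 w i then mlen w i else 0) + pot w ≤
      32 * w.length := by
  induction w with
  | nil =>
    simp only [List.length_nil, Finset.range_zero, Finset.sum_empty, pot]
    have h1 := lppLen_le ([] : List α)
    have h2 := lppp_le ([] : List α)
    simp only [List.length_nil] at h1
    omega
  | cons d l ih =>
    rw [List.length_cons, Finset.sum_range_succ']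
    have e1 : ∀ i, ND x0 (d :: l) (i + 1) ↔ ND x0 l i := by
      intro i; unfold ND
      rw [List.getD_cons_succ, List.drop_succ_cons]
    have e2 : ∀ i, mlen (d :: l) (i + 1) = mlen l i := by
      intro i; unfold mlen
      rw [List.drop_succ_cons]
    have e3 : ND x0 (d :: l) 0 ↔ d ≠ dflt x0 l := by
      unfold ND
      rw [List.getD_cons_zero, List.drop_succ_cons, List.drop_zero]
    have e4 : mlen (d :: l) 0 = lppLen (d :: l) - 2 := rfl
    simp only [e1, e2, e3, e4]
    have h1 := pot_step_aux' d l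
    split_ifs with h
    · have h2 := pot_step_aux h
      omega
    · omega

open Classical in
theorem card_large_le (x0 : α) (w : List α) (k : ℕ) :
    ((Finset.range w.length).filter (fun i => ND x0 w i ∧ k ≤ mlen w i)).card * k ≤
      32 * w.length := by
  refine le_trans ?_ (le_trans (Nat.le_add_right _ (pot w)) (sum_mlen_le x0 w))
  rw [← smul_eq_mul, ← Finset.sum_const]
  calc ∑ _i ∈ (Finset.range w.length).filter (fun i => ND x0 w i ∧ k ≤ mlen w i), k
      ≤ ∑ i ∈ (Finset.range w.length).filter (fun i => ND x0 w i ∧ k ≤ mlen w i),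
          (if ND x0 w i then mlen w i else 0) := by
        refine Finset.sum_le_sum fun i hi => ?_
        rw [Finset.mem_filter] at hi
        rw [if_pos hi.2.1]
        exact hi.2.2
    _ ≤ _ := Finset.sum_le_sum_of_subset (Finset.filter_subset _ _)

/-! ### The counting of candidate steps by class (no richness needed) -/

/-- Class of the letter `d` at `l`. -/
noncomputable def cls (l : List α) (d : α) : ℕ :=
  Nat.log 2 (per (l.take (lppLen (d :: l) - 2)))

/-- Candidate for letter `d` of class `j` at time `i`. -/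
def Bad (x0 : α) (w : List α) (d : α) (j i : ℕ) : Prop :=
  i < w.length ∧ d ≠ dflt x0 (w.drop (i + 1)) ∧ cls (w.drop (i + 1)) d = j

theorem bad_data {x0 : α} {w : List α} {d : α} {j i : ℕ} (hj : 1 ≤ j)
    (h : Bad x0 w d j i) : ∃ m, lppLen (d :: w.drop (i + 1)) = m + 2 ∧ 1 ≤ m ∧
      i + 1 + m < w.length ∧ w[i + 1 + m]? = some d ∧ Pal ((w.drop (i + 1)).take m) ∧
      2 ^ j ≤ per ((w.drop (i + 1)).take m) ∧ per ((w.drop (i + 1)).take m) < 2 ^ (j + 1) := by
  obtain ⟨hi, hd, hc⟩ := h
  unfold cls at hc
  set M := lppLen (d :: w.drop (i + 1)) with hM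
  have hper : per ((w.drop (i + 1)).take (M - 2)) ≠ 0 := by
    intro h0
    rw [h0, Nat.log_zero_right] at hc
    omega
  have hm1 : 1 ≤ M - 2 := by
    by_contra hcc
    have : M - 2 = 0 := by omega
    rw [this, List.take_zero] at hper
    apply hper
    have := per_le_length ([] : List α)
    simpa using this
  have h2 : 2 ≤ lppLen (d :: w.drop (i + 1)) := by omega
  obtain ⟨g1, g2⟩ := lppLen_cons_spec h2
  rw [← hM] at g1 g2
  rw [List.getElem?_drop] at g1
  refine ⟨M - 2, by omega, hm1, ?_, g1, g2, ?_, ?_⟩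
  · by_contra hcc
    rw [List.getElem?_eq_none (by omega)] at g1
    exact absurd g1 (by simp)
  · rw [← hc]; exact Nat.pow_log_le_self 2 hper
  · rw [← hc]; exact Nat.lt_pow_succ_log_self (by norm_num) _

/-- Centre. -/
noncomputable def ctr (w : List α) (d : α) (i : ℕ) : ℕ := 2 * i + lppLen (d :: w.drop (i + 1))

theorem bad_sep {x0 : α} {w : List α} {d : α} {j i1 i2 : ℕ} (hj : 1 ≤ j)
    (h1 : Bad x0 w d j i1) (h2 : Bad x0 w d j i2) (hlt : ctr w d i1 < ctr w d i2) :
    ctr w d i1 + 2 ^ j ≤ ctr w d i2 := by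
  obtain ⟨m1, a1, a2, a3, a4, a5, a6, a7⟩ := bad_data hj h1
  obtain ⟨m2, b1, b2, b3, b4, b5, b6, b7⟩ := bad_data hj h2
  unfold ctr at hlt ⊢
  rw [a1, b1] at hlt ⊢
  have p1 := (palAt_iff (w := w) (s := i1 + 1) (m := m1) (by omega)).1 a5
  have p2 := (palAt_iff (w := w) (s := i2 + 1) (m := m2) (by omega)).1 b5
  obtain ⟨Δ, hΔ⟩ : ∃ Δ, 2 * i2 + (m2 + 2) = 2 * i1 + (m1 + 2) + Δ :=
    ⟨2 * i2 + (m2 + 2) - (2 * i1 + (m1 + 2)), by omega⟩
  by_cases hm : m1 ≤ m2
  · have := two_pal p1 p2 (by omega) (by omega) (by omega) (Δ := Δ) (Or.inl (by omega))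
    have := per_le_of_perAt (by omega) a5 (by omega) this
    omega
  · have := two_pal p2 p1 (by omega) (by omega) (by omega) (Δ := Δ) (Or.inr (by omega))
    have := per_le_of_perAt (by omega) b5 (by omega) this
    omega

theorem bad_same {x0 : α} {w : List α} {d : α} {j i1 i2 : ℕ} (hj : 1 ≤ j)
    (h1 : Bad x0 w d j i1) (h2 : Bad x0 w d j i2) (hlt : i1 < i2)
    (heq : ctr w d i1 = ctr w d i2) {m1 : ℕ} (hm1 : lppLen (d :: w.drop (i1 + 1)) = m1 + 2) :
    w[i2]? = some d ∧ lppLen (w.drop (i1 + 1)) = m1 := by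
  obtain ⟨m1', a1, a2, a3, a4, a5, a6, a7⟩ := bad_data hj h1
  obtain ⟨m2, b1, b2, b3, b4, b5, b6, b7⟩ := bad_data hj h2
  have : m1' = m1 := by omega
  subst this
  unfold ctr at heq
  rw [a1, b1] at heq
  have p1 := (palAt_iff (w := w) (s := i1 + 1) (m := m1') (by omega)).1 a5
  have e1 := p1 i2 (by omega) (by omega)
  simp only at e1
  have i3 : i1 + 1 + (i1 + 1 + m1') - 1 - i2 = i2 + 1 + m2 := by omega
  rw [i3, b4] at e1
  refine ⟨e1, ?_⟩
  have hi2 : i2 < w.length := h2.1
  have hdrop : w.drop i2 = d :: w.drop (i2 + 1) := by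
    have h5 := List.drop_eq_getElem_cons hi2
    rw [List.getElem?_eq_getElem hi2] at e1
    rw [h5, Option.some.inj e1]
  have h6 := lppLen_drop_le w (i1 + 1) i2 (by omega)
  rw [hdrop, b1] at h6
  have h7 : m1' ≤ lppLen (w.drop (i1 + 1)) :=
    le_lppLen (by rw [List.length_drop]; omega) a5
  omega

theorem bad_three {x0 : α} {w : List α} {d : α} {j i1 i2 i3 : ℕ} (hj : 1 ≤ j)
    (h1 : Bad x0 w d j i1) (h2 : Bad x0 w d j i2) (h3 : Bad x0 w d j i3)
    (h12 : i1 < i2) (h23 : i2 < i3) (he12 : ctr w d i1 = ctr w d i2)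
    (he23 : ctr w d i2 = ctr w d i3) : False := by
  obtain ⟨m1, a1, a2, a3, a4, a5, a6, a7⟩ := bad_data hj h1
  obtain ⟨m2, b1, b2, b3, b4, b5, b6, b7⟩ := bad_data hj h2
  obtain ⟨f12, -⟩ := bad_same hj h1 h2 h12 he12 a1
  obtain ⟨-, l2⟩ := bad_same hj h2 h3 h23 he23 b1
  have h2' := h2.2.1
  unfold ctr at he12
  rw [a1, b1] at he12
  set l := w.drop (i2 + 1) with hl
  have hlne : l ≠ [] := by
    intro h0
    have := lppLen_le l
    rw [h0] at this
    rw [h0] at l2
    simp at this
    omega
  have hlm : l[m2]? = some d := by rw [hl, List.getElem?_drop]; exact b4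
  have hmlt : m2 < l.length := by
    by_contra hc
    rw [List.getElem?_eq_none (by omega)] at hlm
    exact absurd hlm (by simp)
  have hhp : 8 * (lppLen l - lppp l) ≤ lppLen l := by
    by_contra hc
    have := dflt_of_not x0 (l := l) (by
      rintro (h | h)
      · exact hc h
      · omega)
    rw [l2, hlm] at this
    exact h2' (Option.some.inj this)
  have hd' := dflt_of_hp x0 hlne (Or.inl hhp)
  have hpl := lppp_le l
  have hper2 : per (l.take m2) = m2 - lppp l := by
    unfold per lppp
    rw [l2, List.length_take, min_eq_left hmlt.le]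
  rw [hper2] at b6 b7
  rw [l2] at hhp hpl
  have P1 := per_perAt (w := w) (s := i1 + 1) (m := m1) (by omega) a5
  have P2 := per_perAt (w := w) (s := i2 + 1) (m := m2) (by omega) b5
  rw [← hl, hper2] at P2
  set p1 := per ((w.drop (i1 + 1)).take m1) with hp1
  set p2 := m2 - lppp l with hp2
  have hpow : 2 ^ (j + 1) = 2 * 2 ^ j := by rw [pow_succ]; ring
  have hpow2 : 1 ≤ 2 ^ j := Nat.one_le_two_pow
  have key := two_period P2 P1 (by omega) (by omega) (by omega) (by omega)
  change w[i2]? = w[i2 + p2]? at key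
  rw [f12] at key
  have p2pal := (palAt_iff (w := w) (s := i2 + 1) (m := m2) (by omega)).1 b5
  have e3 := p2pal (i2 + p2) (by omega) (by omega)
  simp only at e3
  have i4 : i2 + 1 + (i2 + 1 + m2) - 1 - (i2 + p2) = i2 + 1 + lppp l := by omega
  have e5 : w[i2 + 1 + lppp l]? = l[lppp l]? := by rw [hl, List.getElem?_drop]
  rw [i4, ← key, e5, hd'] at e3
  exact h2' (Option.some.inj e3)

open Classical in
theorem card_bad_le (x0 : α) (w : List α) (d : α) (j : ℕ) :
    ((Finset.range w.length).filter (fun i => Bad x0 w d j i)).card * 2 ^ j ≤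
      6 * w.length := by
  rcases Nat.eq_zero_or_pos j with hj | hj
  · subst hj
    have := Finset.card_filter_le (Finset.range w.length) (fun i => Bad x0 w d 0 i)
    rw [Finset.card_range] at this
    omega
  · set B := (Finset.range w.length).filter (fun i => Bad x0 w d j i) with hB
    rcases B.eq_empty_or_nonempty with hE | ⟨i0, hi0⟩
    · rw [hE]; simp
    · have hpow : 1 ≤ 2 ^ j := Nat.one_le_two_pow
      have h2n : 2 ^ j ≤ w.length := by
        rw [hB, Finset.mem_filter] at hi0
        obtain ⟨m1, a1, a2, a3, a4, a5, a6, a7⟩ := bad_data hj hi0.2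
        have h1 := per_le_length ((w.drop (i0 + 1)).take m1)
        rw [List.length_take, List.length_drop] at h1
        omega
      have himg : B.image (fun i => ctr w d i / 2 ^ j) ⊆
          Finset.range (2 * w.length / 2 ^ j + 1) := by
        intro a ha
        rw [Finset.mem_image] at ha
        obtain ⟨i, hi, rfl⟩ := ha
        rw [hB, Finset.mem_filter] at hi
        obtain ⟨m1, a1, a2, a3, a4, a5, a6, a7⟩ := bad_data hj hi.2
        rw [Finset.mem_range]
        have : ctr w d i ≤ 2 * w.length := by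
          unfold ctr; rw [a1]; omega
        have := Nat.div_le_div_right (c := 2 ^ j) this
        omega
      have hfib : ∀ a ∈ B.image (fun i => ctr w d i / 2 ^ j),
          (B.filter fun x => ctr w d x / 2 ^ j = a).card ≤ 2 := by
        intro a _
        by_contra hc
        push Not at hc
        set F := B.filter fun x => ctr w d x / 2 ^ j = a with hF
        have hFne : F.Nonempty := by
          rw [← Finset.card_pos]; omega
        have hsame : ∀ x ∈ F, ∀ y ∈ F, ctr w d x = ctr w d y := by
          intro x hx y hy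
          rw [hF, Finset.mem_filter, hB, Finset.mem_filter] at hx hy
          by_contra hne
          have hdiv : ctr w d x / 2 ^ j = ctr w d y / 2 ^ j := hx.2.trans hy.2.symm
          rcases lt_or_gt_of_ne hne with hlt | hlt
          · have h5 := bad_sep hj hx.1.2 hy.1.2 hlt
            have h6 := Nat.div_le_div_right (c := 2 ^ j) h5
            rw [Nat.add_div_right _ (by omega)] at h6
            omega
          · have h5 := bad_sep hj hy.1.2 hx.1.2 hlt
            have h6 := Nat.div_le_div_right (c := 2 ^ j) h5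
            rw [Nat.add_div_right _ (by omega)] at h6
            omega
        set i3 := F.max' hFne with hi3
        have hi3F : i3 ∈ F := Finset.max'_mem _ _
        have hcard : 1 < (F.erase i3).card := by
          rw [Finset.card_erase_of_mem hi3F]; omega
        obtain ⟨x, hx, y, hy, hxy⟩ := Finset.one_lt_card.1 hcard
        have hxF := Finset.mem_of_mem_erase hx
        have hyF := Finset.mem_of_mem_erase hy
        have hx3 : x < i3 := lt_of_le_of_ne (Finset.le_max' _ _ hxF) (Finset.ne_of_mem_erase hx)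
        have hy3 : y < i3 := lt_of_le_of_ne (Finset.le_max' _ _ hyF) (Finset.ne_of_mem_erase hy)
        have badOf : ∀ z ∈ F, Bad x0 w d j z := by
          intro z hz
          rw [hF, Finset.mem_filter, hB, Finset.mem_filter] at hz
          exact hz.1.2
        rcases lt_or_gt_of_ne hxy with h | h
        · exact bad_three hj (badOf _ hxF) (badOf _ hyF) (badOf _ hi3F) h hy3
            (hsame _ hxF _ hyF) (hsame _ hyF _ hi3F)
        · exact bad_three hj (badOf _ hyF) (badOf _ hxF) (badOf _ hi3F) h hx3
            (hsame _ hyF _ hxF) (hsame _ hxF _ hi3F)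
      have h1 := Finset.card_le_mul_card_image B 2 hfib
      have h2 := Finset.card_le_card himg
      rw [Finset.card_range] at h2
      have h3 : 2 * w.length / 2 ^ j * 2 ^ j ≤ 2 * w.length := Nat.div_mul_le_self _ _
      calc B.card * 2 ^ j ≤ 2 * (2 * w.length / 2 ^ j + 1) * 2 ^ j :=
            Nat.mul_le_mul_right _ (h1.trans (Nat.mul_le_mul_left _ h2))
        _ = 2 * (2 * w.length / 2 ^ j * 2 ^ j) + 2 * 2 ^ j := by ring
        _ ≤ 6 * w.length := by omega

end Pool.Agent.W_MP_ffc92f_co
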