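import Pool.Agent.W_MP_ffc92f_co.Glue

namespace Pool.Agent.W_MP_ffc92f_co

open List (replicate)

/-- Binary tree shapes. -/
inductive Shape : Type
  | leaf : Shape
  | node : Shape → Shape → Shape

namespace Shape

def size : Shape → ℕ
  | leaf => 0
  | node l r => l.size + r.size + 1

def rr : Shape → ℕ
  | leaf => 0
  | node _ r => r.rr + 1

def ll : Shape → ℕ
  | leaf => 0
  | node l _ => l.ll + 1

end Shape

/-- exponents `1` or `2`. -/
def ex : Bool → ℕ
  | false => 1
  | true => 2

/-- The word of a node. -/
def nodeWord (v1 : List Bool) (e : ℕ) (v2 : List Bool) : List Bool :=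
  mL v1 ++ mL (replicate e true) ++ mR v2

/-- The words of a shape. -/
def Wd : Shape → Finset (List Bool)
  | Shape.leaf => {[]}
  | Shape.node l r => ((Wd l) ×ˢ ((Finset.univ : Finset Bool) ×ˢ (Wd r))).image
      (fun x => nodeWord x.1 (ex x.2.1) x.2.2)

/-- The last run of `b` has length `k` and no run of `b` is longer. -/
def FinB (w : List Bool) (k : ℕ) : Prop :=
  (∃ X, w = X ++ replicate k true) ∧ ¬ replicate (k + 1) true <:+: w

theorem finB_nil : FinB [] 0 := ⟨⟨[], rfl⟩, by simp⟩

theorem FinB.snoc {w : List Bool} {k : ℕ} (h : FinB w k) : FinB (w ++ [true]) (k + 1) := by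
  obtain ⟨⟨X, hX⟩, h2⟩ := h
  refine ⟨⟨X, ?_⟩, ?_⟩
  · rw [hX, List.append_assoc, ← List.replicate_succ']
  · intro hc
    rw [List.infix_concat_iff] at hc
    rcases hc with hc | hc
    · apply h2
      rw [List.replicate_succ'] at hc
      obtain ⟨s, hs⟩ := hc
      rw [← List.append_assoc] at hs
      have := (List.append_inj' hs rfl).1
      exact ⟨s, [], by rw [List.append_nil]; exact this⟩
    · exact h2 (rep_infix_of_le (Nat.le_succ _) hc)

theorem FinB.rep {w : List Bool} {k : ℕ} (h : FinB w k) (j : ℕ) :
    FinB (w ++ replicate j true) (k + j) := by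
  induction j with
  | zero => simpa using h
  | succ j ih =>
    have := ih.snoc
    rw [List.append_assoc, ← List.replicate_succ'] at this
    exact this

theorem FinB.cons_a {w : List Bool} {k : ℕ} (h : FinB w k) : FinB (false :: w) k := by
  obtain ⟨⟨X, hX⟩, h2⟩ := h
  refine ⟨⟨false :: X, by rw [hX]; rfl⟩, ?_⟩
  intro hc
  rcases List.infix_cons_iff.1 hc with hc | hc
  · rw [List.replicate_succ] at hc
    simp at hc
  · exact h2 hc

theorem FinB.pre {w : List Bool} {k : ℕ} (h : FinB w k) (i : ℕ) :
    FinB (replicate i false ++ w) k := by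
  induction i with
  | zero => simpa using h
  | succ i ih => rw [List.replicate_succ, List.cons_append]; exact ih.cons_a

theorem FinB.unique {w : List Bool} {k k' : ℕ} (h : FinB w k) (h' : FinB w k') : k = k' := by
  have key : ∀ {k k' : ℕ}, FinB w k → FinB w k' → ¬ k < k' := by
    intro k k' h h' hlt
    apply h.2
    obtain ⟨X, hX⟩ := h'.1
    rw [hX]
    exact (rep_infix_of_le (Nat.succ_le_of_lt hlt) List.infix_rfl).trans
      (List.suffix_append _ _).isInfix
  have h1 := key h h'
  have h2 := key h' h
  omega

theorem split_rep {m : ℕ} {Z M : List Bool} (h : replicate m true <:+: Z ++ false :: M) :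
    replicate m true <:+: Z ∨ replicate m true <:+: M := by
  induction Z with
  | nil =>
    rcases List.infix_cons_iff.1 h with h | h
    · cases m with
      | zero => left; simp
      | succ m => rw [List.replicate_succ] at h; simp at h
    · right; exact h
  | cons c Z ih =>
    rcases List.infix_cons_iff.1 h with h | h
    · by_cases hl : m ≤ (c :: Z).length
      · left
        refine (List.prefix_of_prefix_length_le h (List.prefix_append (c :: Z) _) ?_).isInfix
        simpa using hl
      · exfalso
        have h1 : c :: Z ++ [false] <+: replicate m true := by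
          refine List.prefix_of_prefix_length_le (l₃ := c :: Z ++ false :: M) ⟨M, by simp⟩ h ?_
          simp only [List.length_append, List.length_singleton, List.length_replicate]
          omega
        have h2 : false ∈ replicate m true := h1.subset (by simp)
        simp at h2
    · rcases ih h with h | h
      · left; exact List.infix_cons h
      · right; exact h

theorem cons_mR_snoc (X : List Bool) : ∃ Z, true :: mR X = Z ++ [true] := by
  induction X with
  | nil => exact ⟨[], rfl⟩
  | cons c X ih =>
    obtain ⟨Z, hZ⟩ := ih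
    cases c
    · exact ⟨true :: false :: Z, by simp [hZ]⟩
    · exact ⟨true :: Z, by simp [hZ]⟩

theorem FinB.node {u : List Bool} {k : ℕ} (h : FinB u k) (v : List Bool) {e : ℕ} (he : 1 ≤ e) :
    FinB (nodeWord v e u) (k + 1) := by
  obtain ⟨e, rfl⟩ : ∃ e', e = e' + 1 := ⟨e - 1, by omega⟩
  have hform : nodeWord v (e + 1) u = mL (v ++ replicate e true) ++ false :: (true :: mR u) := by
    unfold nodeWord
    rw [List.replicate_succ', mL_append, mL_append]
    simp
  rw [hform]
  obtain ⟨⟨X, hX⟩, h2⟩ := h
  constructor
  · obtain ⟨Z, hZ⟩ := cons_mR_snoc X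
    refine ⟨mL (v ++ replicate e true) ++ false :: Z, ?_⟩
    have : true :: mR u = Z ++ [true] ++ replicate k true := by
      rw [hX, mR_append, mR_rep_b, ← List.cons_append, hZ]
    rw [this, List.replicate_succ]
    simp
  · intro hc
    rcases split_rep hc with hc | hc
    · refine not_bb_mL _ (List.IsInfix.trans ?_ hc)
      rw [List.replicate_succ, List.replicate_succ]
      exact List.IsPrefix.isInfix ⟨replicate k true, by simp⟩
    · apply h2
      apply mR_infix_decode
      rw [mR_rep_b, ← List.replicate_succ]
      exact hc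

theorem tau_nodeWord (v1 : List Bool) (e : ℕ) (v2 : List Bool) :
    tau (nodeWord v1 e v2) = nodeWord (tau v2) e (tau v1) := by
  unfold nodeWord
  rw [tau_append, tau_append, tau_mL, tau_mL, tau_mR, tau_rep_b, ← mL_rep_b, List.append_assoc]

theorem ex_pos (b : Bool) : 1 ≤ ex b := by cases b <;> simp [ex]

theorem ex_injective : Function.Injective ex := by
  intro a b h
  cases a <;> cases b <;> simp_all [ex]

theorem Wd_props (s : Shape) : ∀ v ∈ Wd s,
    (∀ i j : ℕ, IsRich (replicate i false ++ v ++ replicate j true)) ∧
      FinB v s.rr ∧ FinB (tau v) s.ll := by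
  induction s with
  | leaf =>
    intro v hv
    rw [Wd, Finset.mem_singleton] at hv
    subst hv
    refine ⟨?_, finB_nil, finB_nil⟩
    intro i j
    rw [List.append_nil]
    induction i with
    | zero =>
      rw [List.replicate_zero, List.nil_append]
      induction j with
      | zero => exact isRich_nil
      | succ j ih =>
        rw [List.replicate_succ]
        refine isRich_cons_iff.2 ⟨ih, replicate (j + 1) true, ?_, ?_, ?_⟩
        · rw [← List.replicate_succ]
        · unfold Pal; exact List.reverse_replicate
        · intro hc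
          have := hc.length_le
          simp at this
    | succ i ih =>
      rw [List.replicate_succ, List.cons_append]
      refine isRich_cons_iff.2 ⟨ih, replicate (i + 1) false, ?_, ?_, ?_⟩
      · rw [← List.cons_append, ← List.replicate_succ]
        exact List.prefix_append _ _
      · unfold Pal; exact List.reverse_replicate
      · intro hc
        have := hc.sublist.count_le false
        simp [List.count_replicate] at this
  | node l r ihl ihr =>
    intro v hv
    rw [Wd, Finset.mem_image] at hv
    obtain ⟨⟨v1, b, v2⟩, hx, rfl⟩ := hv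
    simp only [Finset.mem_product, Finset.mem_univ, true_and] at hx
    obtain ⟨h1r, h1f, h1t⟩ := ihl v1 hx.1
    obtain ⟨h2r, h2f, h2t⟩ := ihr v2 hx.2
    have hfin : FinB (nodeWord v1 (ex b) v2) (r.rr + 1) := h2f.node v1 (ex_pos b)
    have hfint : FinB (tau (nodeWord v1 (ex b) v2)) (l.ll + 1) := by
      rw [tau_nodeWord]
      exact h1t.node _ (ex_pos b)
    refine ⟨?_, hfin, hfint⟩
    intro i j
    simp only
    have hu1 : FinB (replicate i false ++ v1) l.rr := h1f.pre i
    have hu2 : FinB (tau (v2 ++ replicate j true)) r.ll := by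
      rw [tau_append, tau_rep_b]; exact h2t.pre j
    obtain ⟨X, hX⟩ := hu1.1
    obtain ⟨Y', hY'⟩ := hu2.1
    have hY : v2 ++ replicate j true = replicate r.ll false ++ tau Y' := by
      have := congrArg tau hY'
      rw [tau_tau, tau_append, tau_rep_b] at this
      exact this
    set Y := tau Y' with hYd
    set e := ex b with hed
    have hT1 : X ++ replicate (l.rr + (e + r.ll)) true =
        replicate i false ++ v1 ++ replicate (e + r.ll) true := by
      rw [hX, List.append_assoc, List.replicate_append_replicate]
    have hT2 : replicate (l.rr + (e + r.ll)) false ++ Y =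
        replicate (l.rr + e) false ++ v2 ++ replicate j true := by
      rw [List.append_assoc, hY, ← List.append_assoc, List.replicate_append_replicate, Nat.add_assoc]
    have hg := glue (X := X) (Y := Y) (t := l.rr + (e + r.ll))
      (by rw [hT1]; exact isRich_mL' (h1r _ _)) (by rw [hT2]; exact isRich_mR' (h2r _ _))
      (by rw [hT1]; exact (hu1.rep (e + r.ll)).2)
      (by
        intro hc
        have h3 := (hu2.rep (l.rr + e)).2
        apply h3
        have h4 := tau_infix.2 hc
        rw [tau_rep_a, hT2, List.append_assoc, tau_append, tau_rep_a] at h4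
        have h5 : r.ll + (l.rr + e) + 1 = l.rr + (e + r.ll) + 1 := by ring
        rw [h5]; exact h4)
    have hfinal : mL X ++ mL (replicate (l.rr + (e + r.ll)) true) ++ mR Y =
        replicate i false ++ nodeWord v1 e v2 ++ replicate j true := by
      have e1 : mL (replicate (l.rr + (e + r.ll)) true) =
          mL (replicate l.rr true) ++ mL (replicate e true) ++ mR (replicate r.ll false) := by
        rw [← mL_rep_b, ← mL_append, ← mL_append, List.replicate_append_replicate,
          List.replicate_append_replicate, Nat.add_assoc]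
      have e2 : mL X ++ mL (replicate l.rr true) = replicate i false ++ mL v1 := by
        rw [← mL_append, ← hX, mL_append, mL_rep_a]
      have e3 : mR (replicate r.ll false) ++ mR Y = mR v2 ++ replicate j true := by
        rw [← mR_append, ← hY, mR_append, mR_rep_b]
      calc mL X ++ mL (replicate (l.rr + (e + r.ll)) true) ++ mR Y
          = (mL X ++ mL (replicate l.rr true)) ++ mL (replicate e true) ++
              (mR (replicate r.ll false) ++ mR Y) := by rw [e1]; simp only [List.append_assoc]
        _ = _ := by rw [e2, e3]; unfold nodeWord; simp only [List.append_assoc]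
    rw [hfinal] at hg
    exact hg

theorem unique_split {P1 P2 Q1 Q2 : List Bool} (h : P1 ++ Q1 = P2 ++ Q2)
    (h1 : ∃ s, P1 = s ++ [true]) (h2 : ∃ s, P2 = s ++ [true])
    (n1 : ¬ [true, true] <:+: P1) (n2 : ¬ [true, true] <:+: P2)
    (q1 : Q1 = [] ∨ ∃ s, Q1 = true :: s) (q2 : Q2 = [] ∨ ∃ s, Q2 = true :: s) : P1 = P2 := by
  have key : ∀ {P1 P2 Q1 Q2 : List Bool}, P1 ++ Q1 = P2 ++ Q2 → (∃ s, P1 = s ++ [true]) →
      ¬ [true, true] <:+: P2 → (Q1 = [] ∨ ∃ s, Q1 = true :: s) → ¬ P1.length < P2.length := by
    intro P1 P2 Q1 Q2 h h1 n2 q1 hlt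
    apply n2
    obtain ⟨s, hs⟩ := h1
    have hQ : Q1 ≠ [] := by
      rintro rfl
      have := congrArg List.length h
      simp at this
      omega
    obtain ⟨r, hr⟩ := q1.resolve_left hQ
    have h3 : s ++ [true, true] <+: P2 := by
      refine List.prefix_of_prefix_length_le (l₃ := P1 ++ Q1) ⟨r, by rw [hs, hr]; simp⟩
        ⟨Q2, h.symm⟩ ?_
      rw [hs] at hlt
      simp at hlt ⊢
      omega
    exact List.IsInfix.trans (List.suffix_append s [true, true]).isInfix h3.isInfix
  have a1 := key h h1 n2 q1
  have a2 := key h.symm h2 n1 q2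
  exact (List.append_inj h (by omega)).1

theorem FinB.start_split {v : List Bool} {k : ℕ} (h : FinB (tau v) k) :
    ∃ Y, v = replicate k false ++ Y ∧ (Y = [] ∨ ∃ s, Y = true :: s) := by
  obtain ⟨⟨X, hX⟩, h2⟩ := h
  have hv : v = replicate k false ++ tau X := by
    have := congrArg tau hX
    rw [tau_tau, tau_append, tau_rep_b] at this
    exact this
  refine ⟨tau X, hv, ?_⟩
  cases hY : tau X with
  | nil => left; rfl
  | cons c s =>
    right
    cases c
    · exfalso
      apply h2
      have h3 : replicate (k + 1) false <:+: v := by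
        rw [hv, hY, List.replicate_succ']
        exact List.IsPrefix.isInfix ⟨s, by simp⟩
      have h4 := tau_infix.2 h3
      rwa [tau_rep_a] at h4
    · exact ⟨s, rfl⟩

theorem mR_start {Y : List Bool} (h : Y = [] ∨ ∃ s, Y = true :: s) :
    mR Y = [] ∨ ∃ s, mR Y = true :: s := by
  rcases h with rfl | ⟨s, rfl⟩
  · left; rfl
  · right; exact ⟨mR s, rfl⟩

theorem nodeWord_inj {l r : Shape} {v1 v1' v2 v2' : List Bool} {e e' : ℕ} (he : 1 ≤ e)
    (he' : 1 ≤ e') (h1 : FinB v1 l.rr) (h1' : FinB v1' l.rr) (h2 : FinB (tau v2) r.ll)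
    (h2' : FinB (tau v2') r.ll) (h : nodeWord v1 e v2 = nodeWord v1' e' v2') :
    v1 = v1' ∧ e = e' ∧ v2 = v2' := by
  obtain ⟨Y, hY, hYs⟩ := h2.start_split
  obtain ⟨Y', hY', hYs'⟩ := h2'.start_split
  have form : ∀ (v : List Bool) (e : ℕ) (Y : List Bool), nodeWord v e (replicate r.ll false ++ Y) =
      mL (v ++ replicate (e + r.ll) true) ++ mR Y := by
    intro v e Y
    unfold nodeWord
    rw [mR_append, ← mL_rep_b, ← List.replicate_append_replicate, mL_append, mL_append]
    simp only [List.append_assoc]
  have ends : ∀ (v : List Bool) {e : ℕ}, 1 ≤ e → ∃ s, mL (v ++ replicate (e + r.ll) true) =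
      s ++ [true] := by
    intro v e he
    obtain ⟨m, hm⟩ : ∃ m, e + r.ll = m + 1 := ⟨e + r.ll - 1, by omega⟩
    refine ⟨mL (v ++ replicate m true) ++ [false], ?_⟩
    rw [hm, List.replicate_succ', ← List.append_assoc, mL_append (v ++ replicate m true)]
    simp
  rw [hY, hY', form, form] at h
  have hP := unique_split h (ends v1 he) (ends v1' he') (not_bb_mL _) (not_bb_mL _)
    (mR_start hYs) (mR_start hYs')
  have hQ : mR Y = mR Y' := by
    rw [hP] at h
    exact List.append_cancel_left h
  have hY2 : Y = Y' := mR_injective hQ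
  have hP2 := mL_injective hP
  have f1 := h1.rep (e + r.ll)
  have f2 := h1'.rep (e' + r.ll)
  rw [hP2] at f1
  have hk := f1.unique f2
  have hee : e = e' := by omega
  subst hee
  refine ⟨List.append_cancel_right hP2, rfl, ?_⟩
  rw [hY, hY', hY2]

theorem card_Wd (s : Shape) : (Wd s).card = 2 ^ s.size := by
  induction s with
  | leaf => rfl
  | node l r ihl ihr =>
    rw [Wd, Finset.card_image_of_injOn, Finset.card_product, Finset.card_product, ihl, ihr,
      Finset.card_univ, Fintype.card_bool, Shape.size, pow_succ, pow_add]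
    · ring
    · rintro ⟨v1, b, v2⟩ hx ⟨v1', b', v2'⟩ hx' h
      simp only [Finset.coe_product, Finset.coe_univ, Set.mem_prod, Finset.mem_coe, Set.mem_univ,
        true_and] at hx hx'
      obtain ⟨-, h1f, -⟩ := Wd_props l v1 hx.1
      obtain ⟨-, -, h2t⟩ := Wd_props r v2 hx.2
      obtain ⟨-, h1f', -⟩ := Wd_props l v1' hx'.1
      obtain ⟨-, -, h2t'⟩ := Wd_props r v2' hx'.2
      obtain ⟨a1, a2, a3⟩ := nodeWord_inj (ex_pos b) (ex_pos b') h1f h1f' h2t h2t' h
      rw [a1, a3, ex_injective a2]

end Pool.Agent.W_MP_ffc92f_co
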